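import Pool.Agent.H94.Cyc.Low

set_option autoImplicit false

namespace Pool.Agent.H94.Cyc

open MeasureTheory Filter Topology Set Polynomial

theorem one_add_sum_le (s : Finset ℕ) (b : ℕ → ℝ) (hb : ∀ i, 0 ≤ b i) :
    1 + ∑ i ∈ s, b i ≤ ∏ i ∈ s, (1 + b i) := by
  classical
  induction s using Finset.induction_on with
  | empty => simp
  | insert i s hi ih =>
    rw [Finset.sum_insert hi, Finset.prod_insert hi]
    have h1 : 0 ≤ ∑ i ∈ s, b i := Finset.sum_nonneg fun i _ => hb i
    have h2 := hb i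
    nlinarith [mul_nonneg h2 h1]

theorem even_prod_pos (J : ℕ) (hJ : Even J) (b : ℕ → ℝ) (hb : ∀ i < J, b i < 0) :
    0 < ∏ i ∈ Finset.range J, b i := by
  have h1 : ∏ i ∈ Finset.range J, b i = ∏ i ∈ Finset.range J, (-b i) := by
    rw [Finset.prod_neg, Finset.card_range, hJ.neg_one_pow, one_mul]
  rw [h1]
  apply Finset.prod_pos
  intro i hi
  rw [Finset.mem_range] at hi
  linarith [hb i hi]

theorem estimate {f : ℝ → ℝ} (hf : Measurable f) (hL : LapInt f (-1))
    (hle : ∀ y, |f y| ≤ psi (fun _ => 1) y) (hlow : ∀ y, low y ≤ f y) {k : ℕ}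
    (horth : ∀ R : ℝ[X], R.degree < k → ∫ y, f y * R.eval y = 0) {a : ℕ → ℝ}
    (ha0 : ∀ i, 0 ≤ a i) (hanti : Antitone a) {V J : ℕ} (hJ : Even J) (hJV : J ≤ V)
    (hV : V < k + J) (hsign : ∀ y, 0 ≤ f y * ∏ i ∈ Finset.range V, (1 - a i * y)) {β : ℝ}
    (hβ : 0 < β) (hβa : β ≤ a (J - 1)) :
    (∑ i ∈ Finset.Ico J V, a i) * A0 ≤ ∫ y in Ioc (0 : ℝ) (1 / β), psi (fun _ => 1) y := by
  set R : ℝ[X] := ∏ i ∈ Finset.Ico J V, (1 - C (a i) * X) with hR
  have hReval : ∀ y, R.eval y = ∏ i ∈ Finset.Ico J V, (1 - a i * y) := by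
    intro y; rw [hR, eval_prod]; simp
  have hdeg : R.degree < k := by
    have h1 : R.natDegree ≤ V - J := by
      rw [hR]
      refine (natDegree_prod_le _ _).trans ?_
      calc ∑ i ∈ Finset.Ico J V, (1 - C (a i) * X).natDegree ≤ ∑ i ∈ Finset.Ico J V, 1 := by
            apply Finset.sum_le_sum
            intro i _
            refine (natDegree_sub_le _ _).trans ?_
            rw [natDegree_one]
            exact max_le (by norm_num) ((natDegree_C_mul_le _ _).trans natDegree_X_le)
        _ = V - J := by simp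
    have h2 : R.degree ≤ (V - J : ℕ) := degree_le_of_natDegree_le h1
    refine lt_of_le_of_lt h2 ?_
    exact_mod_cast (by omega : V - J < k)
  have hint := int_poly hf hL R
  have h0 := horth R hdeg
  set aJ := a (J - 1) with haJ
  have haJ0 : 0 < aJ := lt_of_lt_of_le hβ hβa
  set Y : ℝ := 1 / aJ with hY
  have hY0 : 0 < Y := by positivity
  set c : ℝ := ∑ i ∈ Finset.Ico J V, a i with hc
  have hc0 : 0 ≤ c := Finset.sum_nonneg fun i _ => ha0 i
  -- splitting
  have hsplit : ∫ y, f y * R.eval y = (∫ y in Iic (0 : ℝ), f y * R.eval y) +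
      ((∫ y in Ioc (0 : ℝ) Y, f y * R.eval y) + ∫ y in Ioi Y, f y * R.eval y) := by
    rw [← setIntegral_univ, ← Iic_union_Ioi (a := (0 : ℝ)),
      setIntegral_union (Iic_disjoint_Ioi le_rfl) measurableSet_Ioi hint.integrableOn
        hint.integrableOn, ← Ioc_union_Ioi_eq_Ioi hY0.le,
      setIntegral_union (Ioc_disjoint_Ioi le_rfl) measurableSet_Ioi hint.integrableOn
        hint.integrableOn]
  have hpsi : ∀ y, 0 ≤ psi (fun _ => 1) y := fun y => (abs_nonneg _).trans (hle y)
  -- part 1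
  have hp1 : c * A0 ≤ ∫ y in Iic (0 : ℝ), f y * R.eval y := by
    unfold A0
    rw [← integral_const_mul]
    apply setIntegral_mono_on (low_integrable.const_mul c) hint.integrableOn measurableSet_Iic
    intro y hy
    rw [mem_Iic] at hy
    have h1 : 1 + ∑ i ∈ Finset.Ico J V, a i * |y| ≤ R.eval y := by
      rw [hReval]
      have h2 : ∏ i ∈ Finset.Ico J V, (1 - a i * y) = ∏ i ∈ Finset.Ico J V, (1 + a i * |y|) := by
        apply Finset.prod_congr rfl
        intro i _
        rw [abs_of_nonpos hy]; ring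
      rw [h2]
      exact one_add_sum_le _ (fun i => a i * |y|) fun i => mul_nonneg (ha0 i) (abs_nonneg y)
    rw [← Finset.sum_mul, ← hc] at h1
    have h2 := low_pos (show y ≤ 1 by linarith)
    have h3 := hlow y
    have h4 : 0 ≤ c * |y| := mul_nonneg hc0 (abs_nonneg y)
    calc c * (|y| * low y) = low y * (c * |y|) := by ring
      _ ≤ f y * R.eval y := mul_le_mul h3 (by linarith) h4 (by linarith)
  -- part 2
  have hpint : ∀ Z : ℝ, IntegrableOn (psi (fun _ => 1)) (Ioc 0 Z) := by
    intro Z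
    have h1 := (lapInt_psi_one 2 (by norm_num)).integrableOn (s := Ioc 0 Z)
    have h2 : IntegrableOn (fun y => Real.exp (2 * Z) *
        (psi (fun _ => 1) y * Real.exp (-(2 * y)))) (Ioc 0 Z) := h1.const_mul _
    refine Integrable.mono' h2 (measurable_psi (by simp)).aestronglyMeasurable ?_
    refine (ae_restrict_iff' measurableSet_Ioc).mpr (ae_of_all _ fun y hy => ?_)
    rw [Real.norm_eq_abs, abs_of_nonneg (hpsi y)]
    have h3 : 1 ≤ Real.exp (2 * Z) * Real.exp (-(2 * y)) := by
      rw [← Real.exp_add, ← Real.exp_zero]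
      apply Real.exp_le_exp.mpr
      linarith [hy.2]
    calc psi (fun _ => 1) y ≤ psi (fun _ => 1) y * (Real.exp (2 * Z) * Real.exp (-(2 * y))) :=
          le_mul_of_one_le_right (hpsi y) h3
      _ = _ := by ring
  have hp2 : -(∫ y in Ioc (0 : ℝ) (1 / β), psi (fun _ => 1) y) ≤
      ∫ y in Ioc (0 : ℝ) Y, f y * R.eval y := by
    have h1 : (∫ y in Ioc (0 : ℝ) Y, psi (fun _ => 1) y) ≤
        ∫ y in Ioc (0 : ℝ) (1 / β), psi (fun _ => 1) y := by
      apply setIntegral_mono_set (hpint _) (ae_of_all _ fun y => hpsi y)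
      apply LE.le.eventuallyLE
      apply Ioc_subset_Ioc_right
      exact one_div_le_one_div_of_le hβ hβa
    have h2 : -(∫ y in Ioc (0 : ℝ) Y, psi (fun _ => 1) y) ≤
        ∫ y in Ioc (0 : ℝ) Y, f y * R.eval y := by
      rw [← integral_neg]
      apply setIntegral_mono_on (hpint Y).neg hint.integrableOn measurableSet_Ioc
      intro y hy
      have hfac : ∀ i ∈ Finset.Ico J V, 0 ≤ 1 - a i * y ∧ 1 - a i * y ≤ 1 := by
        intro i hi
        rw [Finset.mem_Ico] at hi
        have h3 : a i ≤ aJ := hanti (by omega)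
        have h4 : a i * y ≤ aJ * Y := mul_le_mul h3 hy.2 hy.1.le haJ0.le
        have h5 : aJ * Y = 1 := by rw [hY]; field_simp
        have h6 := mul_nonneg (ha0 i) hy.1.le
        constructor <;> linarith
      have h7 : |R.eval y| ≤ 1 := by
        rw [hReval, Finset.abs_prod]
        apply Finset.prod_le_one
        · intro i _; exact abs_nonneg _
        · intro i hi
          rw [abs_of_nonneg (hfac i hi).1]
          exact (hfac i hi).2
      have h8 : |f y * R.eval y| ≤ psi (fun _ => 1) y := by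
        rw [abs_mul]
        calc |f y| * |R.eval y| ≤ psi (fun _ => 1) y * 1 :=
              mul_le_mul (hle y) h7 (abs_nonneg _) (hpsi y)
          _ = _ := mul_one _
      exact (abs_le.mp h8).1
    linarith
  -- part 3
  have hp3 : 0 ≤ ∫ y in Ioi Y, f y * R.eval y := by
    apply setIntegral_nonneg measurableSet_Ioi
    intro y hy
    rw [mem_Ioi] at hy
    have h1 := hsign y
    have h2 : ∏ i ∈ Finset.range V, (1 - a i * y) =
        (∏ i ∈ Finset.range J, (1 - a i * y)) * ∏ i ∈ Finset.Ico J V, (1 - a i * y) := by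
      rw [Finset.prod_range_mul_prod_Ico _ hJV]
    have h3 : 0 < ∏ i ∈ Finset.range J, (1 - a i * y) := by
      apply even_prod_pos J hJ
      intro i hi
      have h4 : aJ ≤ a i := hanti (by omega)
      have h5 : aJ * Y = 1 := by rw [hY]; field_simp
      have h6 : aJ * Y < aJ * y := mul_lt_mul_of_pos_left hy haJ0
      have h7 : aJ * y ≤ a i * y := mul_le_mul_of_nonneg_right h4 (by linarith)
      linarith
    rw [h2] at h1
    rw [hReval]
    have h8 : f y * ((∏ i ∈ Finset.range J, (1 - a i * y)) * ∏ i ∈ Finset.Ico J V, (1 - a i * y)) =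
        (∏ i ∈ Finset.range J, (1 - a i * y)) * (f y * ∏ i ∈ Finset.Ico J V, (1 - a i * y)) := by
      ring
    rw [h8] at h1
    exact nonneg_of_mul_nonneg_right h1 h3
  rw [h0] at hsplit
  linarith

end Pool.Agent.H94.Cyc
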