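import Pool.Agent.H94.Cyc.Seq
import Pool.Agent.H94.Cyc.Est

set_option autoImplicit false

namespace Pool.Agent.H94.Cyc

open MeasureTheory Filter Topology Set Polynomial

/-- orthogonality forces zeros -/
theorem count_ge {f : ℝ → ℝ} (hf : Measurable f) (hL : LapInt f (-1)) {k : ℕ}
    (horth : ∀ R : ℝ[X], R.degree < k → ∫ y, f y * R.eval y = 0) (Y : Multiset ℝ)
    (hsign : ∃ σ : ℝ, σ ≠ 0 ∧ ∀ y, 0 ≤ σ * (f y * (Y.map (fun z => y - z)).prod))
    (hz : ∀ y, f y = 0 → y ∈ Y) : k ≤ Multiset.card Y := by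
  obtain ⟨σ, hσ, hsign⟩ := hsign
  by_contra hc
  push Not at hc
  set R : ℝ[X] := (Y.map (fun z => X - C z)).prod with hR
  have hRe : ∀ y, R.eval y = (Y.map (fun z => y - z)).prod := by
    intro y
    rw [hR, eval_multiset_prod, Multiset.map_map]
    congr 1
    apply Multiset.map_congr rfl
    intro z _
    simp
  have hR0 : R ≠ 0 := (monic_multiset_prod_of_monic _ _ fun z _ => monic_X_sub_C z).ne_zero
  have hdeg : R.degree < k := by
    rw [degree_eq_natDegree hR0, hR, natDegree_multiset_prod_X_sub_C_eq_card]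
    exact_mod_cast hc
  have h0 := horth R hdeg
  have hint := int_poly hf hL R
  have h1 : ∫ y, σ * (f y * R.eval y) = 0 := by rw [integral_const_mul, h0, mul_zero]
  have h2 : (fun y => σ * (f y * R.eval y)) =ᵐ[volume] 0 := by
    apply (integral_eq_zero_iff_of_nonneg (fun y => ?_) (hint.const_mul σ)).mp h1
    simp only [Pi.zero_apply]
    rw [hRe]; exact hsign y
  have h3 : ∀ᵐ y : ℝ, y ∉ (Y.toFinset : Set ℝ) :=
    measure_eq_zero_iff_ae_notMem.mp (Y.toFinset.finite_toSet.measure_zero volume)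
  have h4 : ∀ᵐ y : ℝ, False := by
    filter_upwards [h2, h3] with y hy1 hy2
    simp only [Pi.zero_apply] at hy1
    rw [Finset.mem_coe, Multiset.mem_toFinset] at hy2
    rcases mul_eq_zero.mp hy1 with h | h
    · exact hσ h
    rcases mul_eq_zero.mp h with h | h
    · exact hy2 (hz y h)
    · rw [hRe, Multiset.prod_eq_zero_iff, Multiset.mem_map] at h
      obtain ⟨z, hz1, hz2⟩ := h
      have : y = z := by linarith
      rw [this] at hy2
      exact hy2 hz1
  rw [ae_iff] at h4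
  simp at h4

theorem pos_count {k : ℕ} (hk : 0 < k) :
    k - 1 ≤ Multiset.card ((pol k).roots.filter (· ∈ Ioo (0 : ℝ) 1)) := by
  obtain ⟨l, rfl⟩ : ∃ l, k = l + 1 := ⟨k - 1, by omega⟩
  obtain ⟨h1, h2, -⟩ := pos_side hk
  have := count_ge (measurable_psi (alf_abs _)) (lapInt_NN q_prime q_inj l)
    (orth q_prime q_inj l) _ h1 h2
  rw [Multiset.card_map] at this
  exact this

theorem alf_two_zero {n : ℕ} : alf n 0 = 1 := by
  unfold alf
  simp

theorem neg_count {k : ℕ} (hk : 0 < k) :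
    k ≤ Multiset.card ((pol k).roots.filter (· ∈ Ioo (-1 : ℝ) 0)) := by
  obtain ⟨h1, h2, -⟩ := neg_side hk
  rw [two_mul_NN] at h1 h2
  have := count_ge (measurable_psi (alf_abs _)) (lapInt_NN q'_prime q'_inj k)
    (orth q'_prime q'_inj k) _ h1 h2
  rw [Multiset.card_map] at this
  exact this

theorem card_add_le (k : ℕ) : Multiset.card ((pol k).roots.filter (· ∈ Ioo (0 : ℝ) 1)) +
    Multiset.card ((pol k).roots.filter (· ∈ Ioo (-1 : ℝ) 0)) ≤ Multiset.card (pol k).roots := by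
  rw [← Multiset.card_add, Multiset.filter_add_filter, Multiset.card_add]
  have h1 : (pol k).roots.filter (fun a => a ∈ Ioo (0 : ℝ) 1 ∧ a ∈ Ioo (-1 : ℝ) 0) = 0 := by
    rw [Multiset.filter_eq_nil]
    intro a _ ⟨h, h'⟩
    linarith [h.1, h'.2]
  rw [h1, Multiset.card_zero, add_zero]
  exact Multiset.card_le_card (Multiset.filter_le _ _)

/-- data on the negative side -/
theorem neg_data {k : ℕ} (hk : 0 < k) : ∃ a : ℕ → ℝ,
    (∀ i, 0 ≤ a i) ∧ (∀ i, a i ≤ 1) ∧ Antitone a ∧
    (∀ i, Multiset.card ((pol k).roots.filter (· ∈ Ioo (-1 : ℝ) 0)) ≤ i → a i = 0) ∧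
    ∀ y, 0 ≤ psi (alf (2 * NN q k)) y *
      ∏ i ∈ Finset.range (Multiset.card ((pol k).roots.filter (· ∈ Ioo (-1 : ℝ) 0))),
        (1 - a i * y) := by
  obtain ⟨⟨σ, hσ, h1⟩, h2, h3⟩ := neg_side hk
  set Y := ((pol k).roots.filter (· ∈ Ioo (-1 : ℝ) 0)).map (fun z => gpos (-z)) with hY
  have hcard : Multiset.card Y = Multiset.card ((pol k).roots.filter (· ∈ Ioo (-1 : ℝ) 0)) := by
    rw [hY, Multiset.card_map]
  have hlow : ∀ y, low y ≤ psi (alf (2 * NN q k)) y := low_le (alf_abs _) alf_two_zero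
  have hYgt : ∀ z ∈ Y, 1 < z := by
    intro z hz
    by_contra hc
    push Not at hc
    have := low_pos hc
    have := hlow z
    have := h3 z hz
    linarith
  obtain ⟨a, ha0, ha1, hanti, hazero, hprod⟩ := seq_of_multiset Y hYgt
  rw [hcard] at hazero hprod
  refine ⟨a, ha0, ha1, hanti, hazero, ?_⟩
  set τ : ℝ := σ * (Y.map (fun z => -z)).prod with hτ
  have hpr : ∀ y, (Y.map (fun z => y - z)).prod =
      (Y.map (fun z => -z)).prod * (Y.map (fun z => 1 - y / z)).prod := by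
    intro y
    rw [← Multiset.prod_map_mul]
    congr 1
    apply Multiset.map_congr rfl
    intro z hz
    have : z ≠ 0 := by have := hYgt z hz; linarith
    field_simp
    ring
  have h4 : ∀ y, 0 ≤ τ * (psi (alf (2 * NN q k)) y *
      ∏ i ∈ Finset.range (Multiset.card ((pol k).roots.filter (· ∈ Ioo (-1 : ℝ) 0))),
        (1 - a i * y)) := by
    intro y
    have := h1 y
    rw [hpr, hprod] at this
    rw [hτ]
    calc (0 : ℝ) ≤ _ := this
      _ = _ := by ring
  have h5 := h4 0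
  have h6 : 0 < psi (alf (2 * NN q k)) 0 := lt_of_lt_of_le (low_pos (by norm_num)) (hlow 0)
  simp only [mul_zero, sub_zero, Finset.prod_const_one, mul_one] at h5
  have h7 : 0 ≤ τ := nonneg_of_mul_nonneg_left h5 h6
  have h8 : τ ≠ 0 := by
    rw [hτ]
    apply mul_ne_zero hσ
    rw [Ne, Multiset.prod_eq_zero_iff, Multiset.mem_map]
    rintro ⟨z, hz, hz0⟩
    have := hYgt z hz
    linarith
  have h9 : 0 < τ := lt_of_le_of_ne h7 h8.symm
  intro y
  exact nonneg_of_mul_nonneg_right (h4 y) h9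

end Pool.Agent.H94.Cyc
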