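import Pool.Agent.H94.Cyc.Orth

set_option autoImplicit false

namespace Pool.Agent.H94.Cyc

open Polynomial

theorem cyc_ne_zero {N : ℕ} (hN : N ≠ 0) {x : ℝ} (hx : |x| < 1) :
    (cyclotomic N ℝ).eval x ≠ 0 := by
  intro h
  obtain ⟨q, hq⟩ := cyclotomic.dvd_X_pow_sub_one N ℝ
  have h1 := congrArg (eval x) hq
  rw [eval_mul, h, zero_mul, eval_sub, eval_pow, eval_X, eval_one] at h1
  have h2 : |x| ^ N = 1 := by
    rw [← abs_pow]
    have : x ^ N = 1 := by linarith
    rw [this, abs_one]
  have h3 : |x| ^ N < 1 := pow_lt_one₀ (abs_nonneg x) hx hN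
  linarith

theorem cyc_step {N p : ℕ} (hp : p.Prime) (hpN : ¬ p ∣ N) {x : ℝ}
    (hne : (cyclotomic N ℝ).eval x ≠ 0) (a b : ℝ)
    (h1 : x * (derivative (cyclotomic N ℝ)).eval x = a * (cyclotomic N ℝ).eval x)
    (h2 : x ^ p * (derivative (cyclotomic N ℝ)).eval (x ^ p) =
      b * (cyclotomic N ℝ).eval (x ^ p)) :
    x * (derivative (cyclotomic (N * p) ℝ)).eval x =
      (p * b - a) * (cyclotomic (N * p) ℝ).eval x := by
  have h3 := cyclotomic_expand_eq_cyclotomic_mul hp hpN ℝ
  have h4 := congrArg (eval x) h3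
  rw [expand_eval, eval_mul] at h4
  have h5 := congrArg (fun q => eval x (derivative q)) h3
  simp only [derivative_expand, derivative_mul, eval_mul, eval_add, expand_eval, eval_pow, eval_X,
    eval_natCast] at h5
  have h6 : x * x ^ (p - 1) = x ^ p := by
    rw [← pow_succ', Nat.sub_add_cancel hp.one_lt.le]
  have h7 : (x * (derivative (cyclotomic (N * p) ℝ)).eval x) * (cyclotomic N ℝ).eval x =
      ((p * b - a) * (cyclotomic (N * p) ℝ).eval x) * (cyclotomic N ℝ).eval x := by
    have e1 : (x * (derivative (cyclotomic (N * p) ℝ)).eval x) * (cyclotomic N ℝ).eval x =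
        p * (x ^ p * (derivative (cyclotomic N ℝ)).eval (x ^ p)) -
          (cyclotomic (N * p) ℝ).eval x * (x * (derivative (cyclotomic N ℝ)).eval x) := by
      linear_combination (-x) * h5 + p * (derivative (cyclotomic N ℝ)).eval (x ^ p) * h6
    rw [e1, h1, h2, h4]
    ring
  exact mul_right_cancel₀ hne h7

/-- positive side -/
theorem cyc_pos_rel {p : ℕ → ℕ} (hp : ∀ i, (p i).Prime) (hinj : Function.Injective p) (k : ℕ) :
    ∀ t : ℝ, 0 < t → Real.exp (-t) * (derivative (cyclotomic (NN p k) ℝ)).eval (Real.exp (-t)) =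
      (-(-1) ^ k * FF (NN p k) t) * (cyclotomic (NN p k) ℝ).eval (Real.exp (-t)) := by
  induction k with
  | zero =>
    intro t ht
    have h0 : NN p 0 = 1 := by simp [NN]
    rw [h0, FF_one, cyclotomic_one]
    simp only [derivative_sub, derivative_X, derivative_one, sub_zero, eval_one, mul_one, pow_zero,
      eval_sub, eval_X]
    unfold hh
    have h1 : Real.exp (-t) * Real.exp t = 1 := by rw [← Real.exp_add]; simp
    have h2 : Real.exp t - 1 ≠ 0 := by
      have := Real.one_lt_exp_iff.mpr ht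
      linarith
    field_simp
    linarith
  | succ k ih =>
    intro t ht
    have hp0 : (0 : ℝ) < p k := by exact_mod_cast (hp k).pos
    have hpt : 0 < (p k : ℝ) * t := by positivity
    have hx : |Real.exp (-t)| < 1 := by
      rw [abs_of_pos (Real.exp_pos _), Real.exp_lt_one_iff]; linarith
    have hpow : Real.exp (-t) ^ p k = Real.exp (-(p k * t)) := by
      rw [← Real.exp_nat_mul]; ring_nf
    have hnd := NN_not_dvd hp hinj (le_refl k)
    rw [NN_succ, FF_mul (NN_ne_zero hp k) (hp k) hnd]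
    have h2 := ih (p k * t) hpt
    rw [← hpow] at h2
    rw [cyc_step (hp k) hnd (cyc_ne_zero (NN_ne_zero hp k) hx) _ _ (ih t ht) h2]
    ring

/-- negative side, for sequences of odd primes -/
theorem cyc_neg_rel {p : ℕ → ℕ} (hp : ∀ i, (p i).Prime) (hinj : Function.Injective p)
    (hodd : ∀ i, p i ≠ 2) (k : ℕ) :
    ∀ t : ℝ, 0 < t → (-Real.exp (-t)) *
      (derivative (cyclotomic (NN p k) ℝ)).eval (-Real.exp (-t)) =
      ((-1) ^ k * FF (2 * NN p k) t) * (cyclotomic (NN p k) ℝ).eval (-Real.exp (-t)) := by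
  induction k with
  | zero =>
    intro t ht
    have h0 : NN p 0 = 1 := by simp [NN]
    have hF : FF (2 * 1) t = hh t - 2 * hh (2 * t) := by
      have h := FF_mul (n := 1) one_ne_zero Nat.prime_two (by norm_num) t
      rw [FF_one, FF_one] at h
      rw [mul_comm 2 1, h]
      push_cast
      rfl
    rw [h0, hF, cyclotomic_one]
    simp only [derivative_sub, derivative_X, derivative_one, sub_zero, eval_one, mul_one, pow_zero,
      eval_sub, eval_X]
    unfold hh
    have h1 : Real.exp (-t) = (Real.exp t)⁻¹ := Real.exp_neg t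
    have h2 : Real.exp t - 1 ≠ 0 := by
      have := Real.one_lt_exp_iff.mpr ht
      linarith
    have h3 : Real.exp (2 * t) = Real.exp t ^ 2 := by rw [← Real.exp_nat_mul]; push_cast; rfl
    have h4 : Real.exp t + 1 ≠ 0 := by have := Real.exp_pos t; linarith
    have h5 : Real.exp t ≠ 0 := (Real.exp_pos t).ne'
    have h6 : Real.exp t ^ 2 - 1 = (Real.exp t - 1) * (Real.exp t + 1) := by ring
    rw [h1, h3, h6]
    field_simp
    ring
  | succ k ih =>
    intro t ht
    have hp0 : (0 : ℝ) < p k := by exact_mod_cast (hp k).pos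
    have hpt : 0 < (p k : ℝ) * t := by positivity
    have hx : |-Real.exp (-t)| < 1 := by
      rw [abs_neg, abs_of_pos (Real.exp_pos _), Real.exp_lt_one_iff]; linarith
    have hoddk : Odd (p k) := (hp k).odd_of_ne_two (hodd k)
    have hpow : (-Real.exp (-t)) ^ p k = -Real.exp (-(p k * t)) := by
      rw [hoddk.neg_pow, ← Real.exp_nat_mul]; ring_nf
    have hnd := NN_not_dvd hp hinj (le_refl k)
    have hnd2 : ¬ p k ∣ 2 * NN p k := by
      rw [(hp k).dvd_mul]
      rintro (h | h)
      · exact hodd k ((Nat.prime_dvd_prime_iff_eq (hp k) Nat.prime_two).mp h)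
      · exact hnd h
    rw [NN_succ, ← mul_assoc, FF_mul (mul_ne_zero two_ne_zero (NN_ne_zero hp k)) (hp k) hnd2]
    have h2 := ih (p k * t) hpt
    rw [← hpow] at h2
    rw [cyc_step (hp k) hnd (cyc_ne_zero (NN_ne_zero hp k) hx) _ _ (ih t ht) h2]
    ring

end Pool.Agent.H94.Cyc
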