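import Pool.Agent.H94.Cyc.Mel

set_option autoImplicit false

namespace Pool.Agent.H94.Cyc

open MeasureTheory Filter Topology Set Polynomial

/-- the finite sums over the divisors of `n` -/
noncomputable def FF (n : ℕ) (t : ℝ) : ℝ :=
  ∑ d ∈ n.divisors, ((ArithmeticFunction.moebius d : ℤ) : ℝ) * (d * hh (d * t))

theorem divisors_mul_prime {n p : ℕ} (hn : n ≠ 0) (hp : p.Prime) (hpn : ¬ p ∣ n) :
    (n * p).divisors = n.divisors ∪ n.divisors.image (· * p) := by
  ext d
  rw [Nat.mem_divisors, Finset.mem_union, Nat.mem_divisors, Finset.mem_image]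
  constructor
  · rintro ⟨hd, _⟩
    by_cases hpd : p ∣ d
    · right
      obtain ⟨e, rfl⟩ := hpd
      refine ⟨e, ?_, by ring⟩
      rw [Nat.mem_divisors]
      refine ⟨?_, hn⟩
      rw [mul_comm n p] at hd
      exact Nat.dvd_of_mul_dvd_mul_left hp.pos hd
    · left
      refine ⟨?_, hn⟩
      have : Nat.Coprime d p := ((Nat.Prime.coprime_iff_not_dvd hp).mpr hpd).symm
      exact this.dvd_of_dvd_mul_right hd
  · rintro (⟨hd, _⟩ | ⟨e, he, rfl⟩)
    · exact ⟨hd.mul_right p, mul_ne_zero hn hp.ne_zero⟩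
    · rw [Nat.mem_divisors] at he
      exact ⟨mul_dvd_mul_right he.1 p, mul_ne_zero hn hp.ne_zero⟩

theorem FF_mul {n p : ℕ} (hn : n ≠ 0) (hp : p.Prime) (hpn : ¬ p ∣ n) (t : ℝ) :
    FF (n * p) t = FF n t - p * FF n (p * t) := by
  unfold FF
  rw [divisors_mul_prime hn hp hpn, Finset.sum_union, Finset.sum_image, Finset.mul_sum, sub_eq_add_neg,
    ← Finset.sum_neg_distrib]
  · congr 1
    apply Finset.sum_congr rfl
    intro e he
    rw [Nat.mem_divisors] at he
    have hpe : ¬ p ∣ e := fun h => hpn (h.trans he.1)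
    have hcop : Nat.Coprime e p := ((Nat.Prime.coprime_iff_not_dvd hp).mpr hpe).symm
    rw [ArithmeticFunction.isMultiplicative_moebius.map_mul_of_coprime hcop,
      ArithmeticFunction.moebius_apply_prime hp]
    push_cast
    have : (e : ℝ) * p * t = e * (p * t) := by ring
    rw [this]
    ring
  · intro a _ b _ hab
    exact Nat.eq_of_mul_eq_mul_right hp.pos hab
  · rw [Finset.disjoint_left]
    intro d hd hd'
    rw [Finset.mem_image] at hd'
    obtain ⟨e, _, rfl⟩ := hd'
    rw [Nat.mem_divisors] at hd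
    exact hpn ((dvd_mul_left p e).trans hd.1)

/-- indicator coefficients -/
noncomputable def alf (n : ℕ) (d : ℕ) : ℝ :=
  if (d + 1) ∣ n then ((ArithmeticFunction.moebius (d + 1) : ℤ) : ℝ) else 0

theorem alf_abs (n d : ℕ) : |alf n d| ≤ 1 := by
  unfold alf
  split_ifs
  · have := ArithmeticFunction.abs_moebius_le_one (n := d + 1)
    exact_mod_cast this
  · simp

theorem SS_alf {n : ℕ} (hn : n ≠ 0) (t : ℝ) : SS (alf n) t = FF n t := by
  unfold SS FF
  have h1 : ∑' d : ℕ, alf n d * (((d : ℝ) + 1) * hh (((d : ℝ) + 1) * t)) =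
      ∑ d ∈ Finset.range n, alf n d * (((d : ℝ) + 1) * hh (((d : ℝ) + 1) * t)) := by
    apply tsum_eq_sum
    intro d hd
    rw [Finset.mem_range, not_lt] at hd
    have : ¬ (d + 1) ∣ n := fun h => by
      have := Nat.le_of_dvd (Nat.pos_of_ne_zero hn) h
      omega
    unfold alf
    rw [if_neg this, zero_mul]
  rw [h1]
  have h2 : n.divisors = ((Finset.range n).filter (fun d => (d + 1) ∣ n)).image (· + 1) := by
    ext d
    rw [Nat.mem_divisors, Finset.mem_image]
    constructor
    · rintro ⟨hd, _⟩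
      have hd0 : 0 < d := Nat.pos_of_dvd_of_pos hd (Nat.pos_of_ne_zero hn)
      have hdn := Nat.le_of_dvd (Nat.pos_of_ne_zero hn) hd
      refine ⟨d - 1, ?_, by omega⟩
      rw [Finset.mem_filter, Finset.mem_range, Nat.sub_add_cancel hd0]
      exact ⟨by omega, hd⟩
    · rintro ⟨e, he, rfl⟩
      rw [Finset.mem_filter] at he
      exact ⟨he.2, hn⟩
  rw [h2, Finset.sum_image (by intro a _ b _ h; simpa using h), Finset.sum_filter]
  apply Finset.sum_congr rfl
  intro d _
  unfold alf
  split_ifs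
  · push_cast; rfl
  · simp

theorem psi_alf {n : ℕ} (hn : n ≠ 0) (y : ℝ) :
    psi (alf n) y = FF n (Real.exp (2 - y)) * Real.exp (2 - y) := by
  unfold psi
  rw [SS_alf hn]

theorem psi_mul {n p : ℕ} (hn : n ≠ 0) (hp : p.Prime) (hpn : ¬ p ∣ n) (y : ℝ) :
    psi (alf (n * p)) y = psi (alf n) y - psi (alf n) (y - Real.log p) := by
  have hp0 : (0 : ℝ) < p := by exact_mod_cast hp.pos
  have h1 : Real.exp (2 - (y - Real.log p)) = p * Real.exp (2 - y) := by
    rw [show 2 - (y - Real.log p) = Real.log p + (2 - y) by ring, Real.exp_add, Real.exp_log hp0]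
  rw [psi_alf (mul_ne_zero hn hp.ne_zero), psi_alf hn, psi_alf hn, FF_mul hn hp hpn, h1]
  ring

/-- bounds for `hh` -/
theorem hh_lt {t : ℝ} (ht : 0 < t) : hh t < 1 / t := by
  unfold hh
  have := Real.add_one_lt_exp ht.ne'
  apply one_div_lt_one_div_of_lt ht
  linarith

theorem lt_hh {t : ℝ} (ht : 0 < t) : 1 / t - 1 ≤ hh t := by
  rcases le_or_gt 1 t with h | h
  · have h1 : 1 / t ≤ 1 := by rw [div_le_one ht]; exact h
    have := hh_pos ht
    linarith
  · have h1 : Real.exp t ≤ 1 / (1 - t) := by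
      have h2 := Real.add_one_le_exp (-t)
      have h3 : Real.exp (-t) * Real.exp t = 1 := by rw [← Real.exp_add]; simp
      rw [le_div_iff₀ (by linarith)]
      have := Real.exp_pos t
      nlinarith
    have h4 : 0 < Real.exp t - 1 := by
      have := Real.one_lt_exp_iff.mpr ht
      linarith
    unfold hh
    rw [le_div_iff₀ h4]
    have h5 : Real.exp t - 1 ≤ t / (1 - t) := by
      have : 1 / (1 - t) - 1 = t / (1 - t) := by
        have : 1 - t ≠ 0 := by linarith
        field_simp; ring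
      linarith
    calc (1 / t - 1) * (Real.exp t - 1) ≤ (1 / t - 1) * (t / (1 - t)) := by
          apply mul_le_mul_of_nonneg_left h5
          have : 1 ≤ 1 / t := by rw [le_div_iff₀ ht]; linarith
          linarith
      _ = 1 := by
          have : 1 - t ≠ 0 := by linarith
          field_simp

theorem FF_one (t : ℝ) : FF 1 t = hh t := by
  unfold FF
  simp

theorem FF_prime_abs {p : ℕ} (hp : p.Prime) {t : ℝ} (ht : 0 < t) : |FF p t| ≤ p := by
  have h1 := FF_mul (n := 1) one_ne_zero hp (by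
    intro h; exact hp.one_lt.ne' (Nat.dvd_one.mp h)) t
  rw [one_mul, FF_one, FF_one] at h1
  have hp1 : (1 : ℝ) ≤ p := by exact_mod_cast hp.pos
  have hpt : 0 < (p : ℝ) * t := by positivity
  rw [h1, abs_le]
  have a1 := hh_lt ht
  have a2 := lt_hh ht
  have b1 := hh_lt hpt
  have b2 := lt_hh hpt
  have e1 : (p : ℝ) * (1 / (p * t)) = 1 / t := by field_simp
  constructor
  · have : (p : ℝ) * hh (p * t) ≤ 1 / t := by
      rw [← e1]; exact mul_le_mul_of_nonneg_left b1.le (by linarith)
    linarith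
  · have : 1 / t - p ≤ (p : ℝ) * hh (p * t) := by
      rw [← e1, ← mul_one_sub_aux p (1 / (p * t))]
      exact mul_le_mul_of_nonneg_left b2 (by linarith)
    linarith
where
  mul_one_sub_aux (a b : ℝ) : a * (b - 1) = a * b - a := by ring

end Pool.Agent.H94.Cyc
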