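import Pool.Agent.H94.Cyc.Landau

set_option autoImplicit false

namespace Pool.Agent.H94.Cyc

open MeasureTheory Filter Topology Set

/-- the integrand on the left half line -/
theorem left_int {f : ℝ → ℝ} (hf : Measurable f) (h : LapInt f 1) {e : ℕ → ℝ} (he : Typ0 e)
    {u : ℝ} (hu : 0 < u) : ∃ C : ℝ, 0 ≤ C ∧ ∀ m : ℕ,
      IntegrableOn (fun y => |f y * EE e y| * |y| ^ m * Real.exp (-(u * y))) (Iic 0) ∧
      ∫ y in Iic (0 : ℝ), |f y * EE e y| * |y| ^ m * Real.exp (-(u * y)) ≤ C * m.factorial := by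
  obtain ⟨C, hC0, hC⟩ := he.EE_exp one_pos
  have hI := ((h (u + 2) (by linarith)).abs).integrableOn (s := Iic 0)
  have hbound : ∀ m : ℕ, ∀ y ∈ Iic (0 : ℝ), |f y * EE e y| * |y| ^ m * Real.exp (-(u * y)) ≤
      (C * m.factorial) * |f y * Real.exp (-((u + 2) * y))| := by
    intro m y hy
    rw [mem_Iic] at hy
    have h1 := hC y
    have h2 := Real.pow_div_factorial_le_exp |y| (abs_nonneg y) m
    rw [div_le_iff₀ (by positivity)] at h2
    have h3 : Real.exp (-((u + 2) * y)) = Real.exp (-(u * y)) * Real.exp |y| * Real.exp |y| := by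
      rw [← Real.exp_add, ← Real.exp_add, abs_of_nonpos hy]; ring_nf
    rw [abs_mul, abs_mul, abs_of_pos (Real.exp_pos (-((u + 2) * y))), h3]
    rw [one_mul] at h1
    calc |f y| * |EE e y| * |y| ^ m * Real.exp (-(u * y))
        ≤ |f y| * (C * Real.exp |y|) * (Real.exp |y| * m.factorial) * Real.exp (-(u * y)) := by
          gcongr
      _ = _ := by ring
  refine ⟨C * ∫ y in Iic (0 : ℝ), |f y * Real.exp (-((u + 2) * y))|, by positivity, fun m => ?_⟩
  have hint : IntegrableOn (fun y => |f y * EE e y| * |y| ^ m * Real.exp (-(u * y))) (Iic 0) := by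
    refine Integrable.mono' (hI.const_mul (C * m.factorial)) ?_ ?_
    · have := he.continuous_EE.measurable
      exact (by fun_prop : Measurable (fun y => |f y * EE e y| * |y| ^ m *
        Real.exp (-(u * y)))).aestronglyMeasurable
    · refine (ae_restrict_iff' measurableSet_Iic).mpr (ae_of_all _ fun y hy => ?_)
      rw [Real.norm_eq_abs, abs_of_nonneg (by positivity)]
      exact hbound m y hy
  refine ⟨hint, ?_⟩
  calc _ ≤ ∫ y in Iic (0 : ℝ), (C * m.factorial) * |f y * Real.exp (-((u + 2) * y))| :=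
        setIntegral_mono_on hint (hI.const_mul _) measurableSet_Iic (hbound m)
    _ = _ := by rw [integral_const_mul]; ring

theorem lapInt_EE {f : ℝ → ℝ} (hf : Measurable f) {a : ℝ} (h : LapInt f a) {e : ℕ → ℝ}
    (he : Typ0 e) : LapInt (fun y => f y * EE e y) a := by
  intro u hu
  set δ := (u - a) / 2 with hδ
  have hδ0 : 0 < δ := by rw [hδ]; linarith
  obtain ⟨C, hC0, hC⟩ := he.EE_exp hδ0
  have h1 := (h (u - δ) (by rw [hδ]; linarith)).abs
  have h2 := (h (u + δ) (by rw [hδ]; linarith)).abs
  have hEm := he.continuous_EE.measurable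
  refine Integrable.mono' ((h1.add h2).const_mul C) ?_ ?_
  · exact (by fun_prop : Measurable (fun y => f y * EE e y *
      Real.exp (-(u * y)))).aestronglyMeasurable
  · refine ae_of_all _ fun y => ?_
    have h3 : Real.exp (δ * |y|) ≤ Real.exp (δ * y) + Real.exp (-(δ * y)) := by
      rcases abs_cases y with ⟨h, _⟩ | ⟨h, _⟩
      · rw [h]; linarith [Real.exp_pos (-(δ * y))]
      · rw [h, mul_neg]; linarith [Real.exp_pos (δ * y)]
    have e1 : Real.exp (-((u - δ) * y)) = Real.exp (-(u * y)) * Real.exp (δ * y) := by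
      rw [← Real.exp_add]; ring_nf
    have e2 : Real.exp (-((u + δ) * y)) = Real.exp (-(u * y)) * Real.exp (-(δ * y)) := by
      rw [← Real.exp_add]; ring_nf
    rw [Real.norm_eq_abs, abs_mul, abs_mul, abs_of_pos (Real.exp_pos (-(u * y)))]
    simp only [Pi.add_apply]
    rw [abs_mul, abs_mul, abs_of_pos (Real.exp_pos _), abs_of_pos (Real.exp_pos _), e1, e2]
    calc |f y| * |EE e y| * Real.exp (-(u * y))
        ≤ |f y| * (C * (Real.exp (δ * y) + Real.exp (-(δ * y)))) * Real.exp (-(u * y)) := by
          have := (hC y).trans (mul_le_mul_of_nonneg_left h3 hC0)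
          gcongr
      _ = _ := by ring

theorem landau_step {f : ℝ → ℝ} (hf : Measurable f) (h : LapInt f 1) {e : ℕ → ℝ} (he : Typ0 e)
    (hpos : ∀ y, 0 ≤ f y * EE e y) (G : ℂ → ℂ)
    (hG : DiffContOnCl ℂ G (Metric.ball ((11 / 10 : ℝ) : ℂ) (13 / 20)))
    (hGL : G =ᶠ[𝓝 ((11 / 10 : ℝ) : ℂ)] Lap f 0) :
    LapInt (fun y => f y * EE e y) (99 / 200) := by
  set u₀ : ℝ := 11 / 10 with hu₀
  have hu₀1 : 1 < ((u₀ : ℝ) : ℂ).re := by rw [Complex.ofReal_re, hu₀]; norm_num
  have hEm := he.continuous_EE.measurable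
  -- the derivatives
  obtain ⟨C, hC⟩ : ∃ C, ∀ z ∈ Metric.sphere ((u₀ : ℝ) : ℂ) (13 / 20), ‖G z‖ ≤ C := by
    have hcont : ContinuousOn G (Metric.sphere ((u₀ : ℝ) : ℂ) (13 / 20)) := by
      apply hG.continuousOn.mono
      rw [closure_ball _ (by norm_num)]
      exact Metric.sphere_subset_closedBall
    exact (isCompact_sphere _ _).exists_bound_of_continuousOn hcont
  have hder : ∀ n : ℕ, ‖Lap f n (u₀ : ℂ)‖ ≤ n.factorial * C / (13 / 20) ^ n := by
    intro n
    rw [← lap_iteratedDeriv hf h n hu₀1, ← hGL.iteratedDeriv_eq]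
    exact Complex.norm_iteratedDeriv_le_of_forall_mem_sphere_norm_le n (by norm_num) hG hC
  have hC0 : 0 ≤ C := by
    have := (norm_nonneg _).trans (hder 0)
    simpa using this
  obtain ⟨C', hC'0, hC'⟩ := he.growth (1 / 50) (by norm_num)
  have hmom : ∀ m : ℕ, ‖Lap (fun y => f y * EE e y) m (u₀ : ℂ)‖ ≤
      (2 * C * C') * (m.factorial * (100 / 61) ^ m) := by
    intro m
    have h1 := lap_EE_hasSum hf h he m hu₀1
    have h2 : HasSum (fun j : ℕ => C * ((m.factorial * (100 / 61) ^ m) * (C' * (1 / 2) ^ j)))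
        (C * ((m.factorial * (100 / 61) ^ m) * (C' * 2))) := by
      apply HasSum.mul_left
      apply HasSum.mul_left
      apply HasSum.mul_left
      exact hasSum_geometric_two
    rw [← h1.tsum_eq]
    refine (tsum_of_norm_bounded h2 ?_).trans (le_of_eq (by ring))
    intro j
    rw [norm_mul, Complex.norm_real, Real.norm_eq_abs, abs_of_nonneg (he.nonneg j)]
    have h3 := he.term_bound hC' (l := 4 / 61) (R := 20 / 13) (by norm_num) (by norm_num) j m
    norm_num only at h3
    have h4 := hder (j + m)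
    calc e j * ‖Lap f (j + m) (u₀ : ℂ)‖ ≤ e j * ((j + m).factorial * C / (13 / 20) ^ (j + m)) :=
          mul_le_mul_of_nonneg_left h4 (he.nonneg j)
      _ = C * (e j * ((j + m).factorial * (20 / 13) ^ (j + m))) := by
          rw [show (20 / 13 : ℝ) = (13 / 20)⁻¹ by norm_num, inv_pow]; ring
      _ ≤ _ := by
          apply mul_le_mul_of_nonneg_left _ hC0
          norm_num only
          exact h3
  -- real form
  set g : ℝ → ℝ := fun y => f y * EE e y with hg
  have hgm : Measurable g := by rw [hg]; fun_prop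
  have hg1 : LapInt g 1 := lapInt_EE hf h he
  have hgint : ∀ m : ℕ, Integrable (fun y => |g y| * |y| ^ m * Real.exp (-(u₀ * y))) := fun m =>
    lap_pow_int hgm hg1 m (by rw [hu₀]; norm_num)
  have hRint : ∀ m : ℕ, Integrable (fun y => g y * (-y) ^ m * Real.exp (-(u₀ * y))) := by
    intro m
    refine Integrable.mono' (hgint m) ?_ ?_
    · exact (by fun_prop : Measurable (fun y => g y * (-y) ^ m *
        Real.exp (-(u₀ * y)))).aestronglyMeasurable
    · refine ae_of_all _ fun y => ?_
      rw [Real.norm_eq_abs, abs_mul, abs_mul, abs_pow, abs_neg, abs_of_pos (Real.exp_pos _)]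
  have hR : ∀ m : ℕ, |∫ y, g y * (-y) ^ m * Real.exp (-(u₀ * y))| ≤
      (2 * C * C') * (m.factorial * (100 / 61) ^ m) := by
    intro m
    have h1 : Lap g m (u₀ : ℂ) = ((∫ y, g y * (-y) ^ m * Real.exp (-(u₀ * y)) : ℝ) : ℂ) := by
      unfold Lap
      rw [← integral_complex_ofReal]
      congr 1
      funext y
      push_cast
      ring_nf
    have h2 := hmom m
    rw [h1, Complex.norm_real] at h2
    exact h2
  obtain ⟨C₂, hC₂0, hC₂⟩ := left_int hf h he (u := u₀) (by rw [hu₀]; norm_num)
  have hDint : ∀ m : ℕ, IntegrableOn (fun y => g y * y ^ m * Real.exp (-(u₀ * y))) (Ioi 0) := by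
    intro m
    refine Integrable.mono' ((hgint m).integrableOn) ?_ ?_
    · exact (by fun_prop : Measurable (fun y => g y * y ^ m *
        Real.exp (-(u₀ * y)))).aestronglyMeasurable
    · refine ae_of_all _ fun y => ?_
      rw [Real.norm_eq_abs, abs_mul, abs_mul, abs_pow, abs_of_pos (Real.exp_pos _)]
  have hD : ∀ m : ℕ, ∫ y in Ioi (0 : ℝ), g y * y ^ m * Real.exp (-(u₀ * y)) ≤
      (2 * C * C' + C₂) * (m.factorial * (100 / 61) ^ m) := by
    intro m
    have h1 : ∫ y, g y * (-y) ^ m * Real.exp (-(u₀ * y)) =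
        (∫ y in Iic (0 : ℝ), g y * (-y) ^ m * Real.exp (-(u₀ * y))) +
        (-1) ^ m * ∫ y in Ioi (0 : ℝ), g y * y ^ m * Real.exp (-(u₀ * y)) := by
      rw [← setIntegral_univ, ← Iic_union_Ioi (a := (0 : ℝ)),
        setIntegral_union (Iic_disjoint_Ioi le_rfl) measurableSet_Ioi (hRint m).integrableOn
          (hRint m).integrableOn]
      congr 1
      rw [← integral_const_mul]
      congr 1
      funext y
      rw [neg_pow y]; ring
    have h2 : |∫ y in Iic (0 : ℝ), g y * (-y) ^ m * Real.exp (-(u₀ * y))| ≤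
        C₂ * (m.factorial * (100 / 61) ^ m) := by
      calc _ ≤ ∫ y in Iic (0 : ℝ), |g y * (-y) ^ m * Real.exp (-(u₀ * y))| :=
            abs_integral_le_integral_abs
        _ = ∫ y in Iic (0 : ℝ), |g y| * |y| ^ m * Real.exp (-(u₀ * y)) := by
            congr 1
            funext y
            rw [abs_mul, abs_mul, abs_pow, abs_neg, abs_of_pos (Real.exp_pos _)]
        _ ≤ C₂ * m.factorial := (hC₂ m).2
        _ ≤ _ := by
            apply mul_le_mul_of_nonneg_left _ hC₂0
            have : (1 : ℝ) ≤ (100 / 61) ^ m := one_le_pow₀ (by norm_num)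
            have h3 : (0 : ℝ) ≤ m.factorial := by positivity
            nlinarith
    have h3 := hR m
    rw [h1] at h3
    set D := ∫ y in Ioi (0 : ℝ), g y * y ^ m * Real.exp (-(u₀ * y)) with hDdef
    have h4 : |(-1 : ℝ) ^ m * D| = |D| := by rw [abs_mul, abs_pow]; simp
    have h5 : |(-1 : ℝ) ^ m * D| ≤ |(∫ y in Iic (0 : ℝ), g y * (-y) ^ m *
        Real.exp (-(u₀ * y))) + (-1) ^ m * D| +
        |∫ y in Iic (0 : ℝ), g y * (-y) ^ m * Real.exp (-(u₀ * y))| := by
      have := abs_sub ((∫ y in Iic (0 : ℝ), g y * (-y) ^ m *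
        Real.exp (-(u₀ * y))) + (-1) ^ m * D)
        (∫ y in Iic (0 : ℝ), g y * (-y) ^ m * Real.exp (-(u₀ * y)))
      rw [add_sub_cancel_left] at this
      exact this
    have h6 := le_abs_self D
    linarith
  -- integrability at the new abscissa
  have hright : IntegrableOn (fun y => g y * Real.exp (-((99 / 200) * y))) (Ioi 0) := by
    refine ⟨(by fun_prop : Measurable (fun y => g y *
        Real.exp (-((99 / 200) * y)))).aestronglyMeasurable, ?_⟩
    rw [hasFiniteIntegral_iff_norm]
    have e1 : ∀ y ∈ Ioi (0 : ℝ), ENNReal.ofReal ‖g y * Real.exp (-((99 / 200) * y))‖ =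
        ∑' m : ℕ, ENNReal.ofReal (((121 / 200) ^ m / m.factorial) *
          (g y * y ^ m * Real.exp (-(u₀ * y)))) := by
      intro y hy
      rw [mem_Ioi] at hy
      have hgy : 0 ≤ g y := hpos y
      rw [Real.norm_eq_abs, abs_of_nonneg (mul_nonneg hgy (Real.exp_pos _).le)]
      have h1 : HasSum (fun m : ℕ => ((121 / 200) ^ m / m.factorial) *
          (g y * y ^ m * Real.exp (-(u₀ * y)))) (g y * Real.exp (-((99 / 200) * y))) := by
        have h2 : HasSum (fun m : ℕ => ((121 / 200 * y) ^ m / m.factorial))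
            (Real.exp (121 / 200 * y)) := by
          rw [Real.exp_eq_exp_ℝ]
          exact NormedSpace.expSeries_div_hasSum_exp (121 / 200 * y)
        have h3 := h2.mul_left (g y * Real.exp (-(u₀ * y)))
        have h4 : g y * Real.exp (-(u₀ * y)) * Real.exp (121 / 200 * y) =
            g y * Real.exp (-((99 / 200) * y)) := by
          rw [mul_assoc, ← Real.exp_add, hu₀]; ring_nf
        rw [h4] at h3
        refine h3.congr_fun ?_
        intro m
        rw [mul_pow]; ring
      rw [← h1.tsum_eq, ENNReal.ofReal_tsum_of_nonneg _ h1.summable]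
      intro m
      positivity
    rw [setLIntegral_congr_fun measurableSet_Ioi e1, lintegral_tsum]
    · have e2 : ∀ m : ℕ, ∫⁻ y in Ioi (0 : ℝ), ENNReal.ofReal (((121 / 200) ^ m / m.factorial) *
          (g y * y ^ m * Real.exp (-(u₀ * y)))) ≤
          ENNReal.ofReal ((2 * C * C' + C₂) * (121 / 122) ^ m) := by
        intro m
        rw [← ofReal_integral_eq_lintegral_ofReal ((hDint m).const_mul _)]
        · apply ENNReal.ofReal_le_ofReal
          rw [integral_const_mul]
          calc _ ≤ ((121 / 200) ^ m / m.factorial) *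
                ((2 * C * C' + C₂) * (m.factorial * (100 / 61) ^ m)) :=
                mul_le_mul_of_nonneg_left (hD m) (by positivity)
            _ = _ := by
                rw [show (121 / 122 : ℝ) = (121 / 200) * (100 / 61) by norm_num, mul_pow]
                field_simp
        · refine (ae_restrict_iff' measurableSet_Ioi).mpr (ae_of_all _ fun y hy => ?_)
          rw [mem_Ioi] at hy
          have hgy : 0 ≤ g y := hpos y
          simp only [Pi.zero_apply]
          positivity
      refine lt_of_le_of_lt (ENNReal.tsum_le_tsum e2) ?_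
      rw [← ENNReal.ofReal_tsum_of_nonneg]
      · exact ENNReal.ofReal_lt_top
      · intro m; positivity
      · exact (summable_geometric_of_lt_one (by norm_num) (by norm_num)).mul_left _
    · intro m
      exact (by fun_prop : Measurable (fun y => ENNReal.ofReal (((121 / 200) ^ m / m.factorial) *
          (g y * y ^ m * Real.exp (-(u₀ * y)))))).aemeasurable
  intro u hu
  rw [← integrableOn_univ, ← Iic_union_Ioi (a := (0 : ℝ))]
  refine IntegrableOn.union ?_ ?_
  · obtain ⟨C₃, _, hC₃⟩ := left_int hf h he (u := u) (by linarith)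
    refine Integrable.mono' (hC₃ 0).1 ?_ ?_
    · exact (by fun_prop : Measurable (fun y => g y *
        Real.exp (-(u * y)))).aestronglyMeasurable
    · refine ae_of_all _ fun y => ?_
      rw [Real.norm_eq_abs, abs_mul, abs_of_pos (Real.exp_pos _), pow_zero, mul_one]
  · refine Integrable.mono' hright ?_ ?_
    · exact (by fun_prop : Measurable (fun y => g y *
        Real.exp (-(u * y)))).aestronglyMeasurable
    · refine (ae_restrict_iff' measurableSet_Ioi).mpr (ae_of_all _ fun y hy => ?_)
      rw [mem_Ioi] at hy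
      have hgy : 0 ≤ g y := hpos y
      rw [Real.norm_eq_abs, abs_of_nonneg (mul_nonneg hgy (Real.exp_pos _).le)]
      apply mul_le_mul_of_nonneg_left _ hgy
      apply Real.exp_le_exp.mpr
      nlinarith

end Pool.Agent.H94.Cyc
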