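import Pool.Agent.H94.Cyc.Oper
import Pool.Agent.H94.Cyc.Step

set_option autoImplicit false

namespace Pool.Agent.H94.Cyc

open MeasureTheory Filter Topology Set Metric

theorem eqOn_convex {X F : ℂ → ℂ} {W : Set ℂ} (hW : IsOpen W) (hc : Convex ℝ W)
    (hX : DifferentiableOn ℂ X W) (hF : DifferentiableOn ℂ F W) {z₀ : ℂ} (h₀ : z₀ ∈ W)
    (h : X =ᶠ[𝓝 z₀] F) : EqOn X F W :=
  (hX.analyticOnNhd hW).eqOn_of_preconnected_of_eventuallyEq (hF.analyticOnNhd hW)
    hc.isPreconnected h₀ h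

theorem no_pole {f : ℝ → ℝ} (hf : Measurable f) (h : LapInt f 1) {e : ℕ → ℝ} (he : Typ0 e)
    (hfE : LapInt (fun y => f y * EE e y) (99 / 200)) (K Z : ℂ → ℂ)
    (hK : DifferentiableOn ℂ K {z | 0 < z.re}) (hZ : Differentiable ℂ Z)
    (hL : ∀ z : ℂ, 1 < z.re → Lap f 0 z * Z z = K z)
    (hZ1 : ∀ z : ℂ, 1 ≤ z.re → Z z ≠ 0) (ρ : ℂ) (hρ : Z ρ = 0) (hρre : 1 / 2 ≤ ρ.re)
    (hKρ : ∀ z : ℂ, Z z = 0 → 0 < z.re → K z ≠ 0) : False := by
  -- the rightmost zero on the same horizontal line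
  obtain ⟨σ₀, hσ₀⟩ : ∃ σ₀, IsGreatest {σ : ℝ | σ ∈ Icc (1 / 2 : ℝ) 1 ∧
      Z (σ + ρ.im * Complex.I) = 0} σ₀ := by
    apply IsCompact.exists_isGreatest
    · have h1 : IsClosed {σ : ℝ | Z (σ + ρ.im * Complex.I) = 0} := by
        apply isClosed_eq _ continuous_const
        have := hZ.continuous
        fun_prop
      exact isCompact_Icc.inter_right h1
    · refine ⟨ρ.re, ⟨hρre, ?_⟩, ?_⟩
      · by_contra hc
        exact hZ1 ρ (by linarith) hρ
      · rw [Complex.re_add_im]; exact hρ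
  set c : ℂ := σ₀ + ρ.im * Complex.I with hcdef
  have hcre : c.re = σ₀ := by simp [hcdef]
  have hcim : c.im = ρ.im := by simp [hcdef]
  have hc0 : Z c = 0 := hσ₀.1.2
  have hσ₀' : 1 / 2 ≤ σ₀ := hσ₀.1.1.1
  have hσ₁ : σ₀ < 1 := by
    by_contra hc
    exact hZ1 c (by rw [hcre]; linarith) hc0
  have hright : ∀ σ : ℝ, σ₀ < σ → Z (σ + ρ.im * Complex.I) ≠ 0 := by
    intro σ hσ hz
    rcases le_or_gt σ 1 with h1 | h1
    · have := hσ₀.2 ⟨⟨by linarith, h1⟩, hz⟩
      linarith
    · exact hZ1 _ (by simp; linarith) hz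
  -- local structure
  have hne : ¬ ∀ᶠ z in 𝓝 c, Z z = 0 := by
    intro hz
    have h1 : EqOn Z 0 univ := (hZ.differentiableOn.analyticOnNhd isOpen_univ
      ).eqOn_of_preconnected_of_eventuallyEq
      (differentiableOn_const 0 |>.analyticOnNhd isOpen_univ) isPreconnected_univ (mem_univ c) hz
    exact hZ1 2 (by norm_num) (h1 (mem_univ 2))
  obtain ⟨n, g, hga, hg0, hgZ⟩ :=
    (hZ.analyticAt c).exists_eventuallyEq_pow_smul_nonzero_iff.mpr hne
  have hn : n ≠ 0 := by
    rintro rfl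
    have := hgZ.self_of_nhds
    rw [pow_zero, one_smul, hc0] at this
    exact hg0 this.symm
  obtain ⟨r₁, hr₁, hr₁b⟩ : ∃ r₁ > 0, ∀ z ∈ ball c r₁, Z z = (z - c) ^ n • g z ∧
      DifferentiableAt ℂ g z ∧ g z ≠ 0 := by
    have h1 : ∀ᶠ z in 𝓝 c, AnalyticAt ℂ g z := hga.eventually_analyticAt
    have h2 : ∀ᶠ z in 𝓝 c, g z ≠ 0 := hga.continuousAt.eventually_ne hg0
    obtain ⟨r, hr, hb⟩ := Metric.eventually_nhds_iff_ball.mp (hgZ.and (h1.and h2))
    exact ⟨r, hr, fun z hz => ⟨(hb z hz).1, (hb z hz).2.1.differentiableAt, (hb z hz).2.2⟩⟩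
  -- the corridor
  set t : Set ℂ := ({z | Z z ≠ 0} ∪ ball c r₁) ∩ {z | 99 / 200 < z.re} with ht
  have hto : IsOpen t := by
    apply IsOpen.inter _ (isOpen_re_gt _)
    apply IsOpen.union _ isOpen_ball
    exact isOpen_ne_fun hZ.continuous continuous_const
  set z₁ : ℂ := 2 + ρ.im * Complex.I with hz₁
  have hSt : segment ℝ c z₁ ⊆ t := by
    intro w hw
    rw [segment_eq_image] at hw
    obtain ⟨θ, hθ, rfl⟩ := hw
    have e1 : (1 - θ) • c + θ • z₁ = (((1 - θ) * σ₀ + θ * 2 : ℝ) : ℂ) + ρ.im * Complex.I := by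
      simp only [Complex.real_smul, hcdef, hz₁]
      push_cast
      ring
    rw [mem_Icc] at hθ
    simp only [e1]
    refine ⟨?_, ?_⟩
    · rcases eq_or_lt_of_le hθ.1 with h0 | h0
      · right
        rw [← h0]
        have : (((1 - 0) * σ₀ + 0 * 2 : ℝ) : ℂ) + ρ.im * Complex.I = c := by
          rw [hcdef]; push_cast; ring
        rw [this]
        exact mem_ball_self hr₁
      · left
        apply hright
        nlinarith
    · simp only [mem_ofPred_eq, Complex.add_re, Complex.ofReal_re, Complex.mul_re, Complex.I_re,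
        mul_zero, Complex.ofReal_im, Complex.I_im, mul_one, sub_self, add_zero]
      nlinarith
  have hScompact : IsCompact (segment ℝ c z₁) := by
    rw [segment_eq_image]
    exact isCompact_Icc.image (by fun_prop)
  obtain ⟨δ, hδ, hVt⟩ := hScompact.exists_thickening_subset_open hto hSt
  set V : Set ℂ := thickening δ (segment ℝ c z₁) with hV
  have hVo : IsOpen V := isOpen_thickening
  have hVc : Convex ℝ V := (convex_segment c z₁).thickening δ
  have hballV : ball c δ ⊆ V := ball_subset_thickening (left_mem_segment ℝ c z₁) δ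
  have hVre : ∀ w ∈ V, 99 / 200 < w.re := fun w hw => (hVt hw).2
  have hVZ : ∀ w ∈ V, w ≠ c → Z w ≠ 0 := by
    intro w hw hwc
    rcases (hVt hw).1 with h1 | h1
    · exact h1
    · rw [(hr₁b w h1).1]
      exact smul_ne_zero (pow_ne_zero _ (sub_ne_zero.mpr hwc)) (hr₁b w h1).2.2
  set U : Set ℂ := V \ {c} with hU
  have hUo : IsOpen U := hVo.sdiff isClosed_singleton
  set G : ℂ → ℂ := fun z => K z / Z z with hG
  have hGd : DifferentiableOn ℂ G U := by
    apply DifferentiableOn.fun_div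
    · apply hK.mono
      intro w hw
      have := hVre w hw.1
      simp only [mem_ofPred_eq]
      linarith
    · exact hZ.differentiableOn
    · intro w hw
      exact hVZ w hw.1 hw.2
  set X : ℂ → ℂ := Lap (fun y => f y * EE e y) 0 with hX
  have hEm := he.continuous_EE.measurable
  have hfEm : Measurable (fun y => f y * EE e y) := by fun_prop
  have hXd : DifferentiableOn ℂ X {z | 99 / 200 < z.re} := lap_differentiableOn hfEm hfE 0
  have hFd := op_differentiableOn hUo hGd he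
  have hXU : DifferentiableOn ℂ X U := hXd.mono (fun w hw => hVre w hw.1)
  -- equality to the right of one
  have hGL : ∀ z : ℂ, 1 < z.re → G =ᶠ[𝓝 z] Lap f 0 := by
    intro z hz
    filter_upwards [(isOpen_re_gt 1).mem_nhds hz] with w hw
    rw [hG]
    simp only
    rw [← hL w hw]
    field_simp [hZ1 w (le_of_lt hw)]
  have hXF : ∀ z : ℂ, 1 < z.re → X z = Op e G z := by
    intro z hz
    have h1 := lap_EE_hasSum hf h he 0 hz
    rw [hX, Op, ← h1.tsum_eq]
    apply tsum_congr
    intro j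
    rw [(hGL z hz).iteratedDeriv_eq, lap_iteratedDeriv hf h j hz, add_zero]
  have key : ∀ W : Set ℂ, IsOpen W → Convex ℝ W → W ⊆ U → ∀ z₀ ∈ W, X =ᶠ[𝓝 z₀] Op e G →
      EqOn X (Op e G) W := fun W hW hWc hWU z₀ h₀ hz₀ =>
    eqOn_convex hW hWc (hXU.mono hWU) (hFd.mono hWU) h₀ hz₀
  have hz₁V : z₁ ∈ V := self_subset_thickening hδ _ (right_mem_segment ℝ c z₁)
  set η : ℝ := δ / 4 with hη
  have hη0 : 0 < η := by rw [hη]; linarith
  have hpt : ∀ a b : ℝ, |a| ≤ 1 → |b| ≤ 1 → c + η * (a + b * Complex.I) ∈ V := by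
    intro a b ha hb
    apply hballV
    rw [mem_ball, dist_eq_norm, add_sub_cancel_left, norm_mul, Complex.norm_real,
      Real.norm_eq_abs, abs_of_pos hη0]
    have : ‖(a : ℂ) + b * Complex.I‖ ≤ 2 := by
      refine (norm_add_le _ _).trans ?_
      rw [norm_mul, Complex.norm_I, mul_one, Complex.norm_real, Complex.norm_real,
        Real.norm_eq_abs, Real.norm_eq_abs]
      linarith
    nlinarith
  have hre : ∀ a b : ℝ, (c + η * (a + b * Complex.I)).re = c.re + η * a := by
    intro a b; simp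
  have him : ∀ a b : ℝ, (c + η * (a + b * Complex.I)).im = c.im + η * b := by
    intro a b; simp
  -- the four pieces
  have hW1 : EqOn X (Op e G) (V ∩ {w | c.re < w.re}) := by
    have ho : IsOpen (V ∩ {w : ℂ | c.re < w.re}) := hVo.inter (isOpen_re_gt _)
    apply key _ ho (hVc.inter (convex_halfSpace_re_gt _)) _ z₁
    · refine ⟨hz₁V, ?_⟩
      simp only [mem_ofPred_eq, hcre, hz₁]
      simp; linarith
    · filter_upwards [(isOpen_re_gt 1).mem_nhds (show 1 < z₁.re by simp [hz₁])] with w hw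
      exact hXF w hw
    · rintro w ⟨h1, h2⟩
      refine ⟨h1, ?_⟩
      rintro rfl
      simp at h2
  have hW2 : EqOn X (Op e G) (V ∩ {w | c.im < w.im}) := by
    have ho : IsOpen (V ∩ {w : ℂ | c.im < w.im}) :=
      hVo.inter (isOpen_lt continuous_const Complex.continuous_im)
    have hmem := hpt 1 1 (by simp) (by simp)
    apply key _ ho (hVc.inter (convex_halfSpace_im_gt _)) _ (c + η * ((1 : ℝ) + (1 : ℝ) * Complex.I))
    · exact ⟨hmem, by simp only [mem_ofPred_eq]; rw [him]; linarith⟩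
    · have ho1 : IsOpen (V ∩ {w : ℂ | c.re < w.re}) := hVo.inter (isOpen_re_gt _)
      filter_upwards [ho1.mem_nhds ⟨hmem, by simp only [mem_ofPred_eq]; rw [hre]; linarith⟩] with w hw
      exact hW1 hw
    · rintro w ⟨h1, h2⟩
      refine ⟨h1, ?_⟩
      rintro rfl
      simp at h2
  have hW3 : EqOn X (Op e G) (V ∩ {w | w.im < c.im}) := by
    have ho : IsOpen (V ∩ {w : ℂ | w.im < c.im}) :=
      hVo.inter (isOpen_lt Complex.continuous_im continuous_const)
    have hmem := hpt 1 (-1) (by simp) (by simp)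
    apply key _ ho (hVc.inter (convex_halfSpace_im_lt _)) _
      (c + η * ((1 : ℝ) + (-1 : ℝ) * Complex.I))
    · exact ⟨hmem, by simp only [mem_ofPred_eq]; rw [him]; linarith⟩
    · have ho1 : IsOpen (V ∩ {w : ℂ | c.re < w.re}) := hVo.inter (isOpen_re_gt _)
      filter_upwards [ho1.mem_nhds ⟨hmem, by simp only [mem_ofPred_eq]; rw [hre]; linarith⟩] with w hw
      exact hW1 hw
    · rintro w ⟨h1, h2⟩
      refine ⟨h1, ?_⟩
      rintro rfl
      simp at h2
  have hW4 : EqOn X (Op e G) (V ∩ {w | w.re < c.re}) := by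
    have ho : IsOpen (V ∩ {w : ℂ | w.re < c.re}) :=
      hVo.inter (isOpen_lt Complex.continuous_re continuous_const)
    have hmem := hpt (-1) 1 (by simp) (by simp)
    apply key _ ho (hVc.inter (convex_halfSpace_re_lt _)) _
      (c + η * ((-1 : ℝ) + (1 : ℝ) * Complex.I))
    · exact ⟨hmem, by simp only [mem_ofPred_eq]; rw [hre]; linarith⟩
    · have ho1 : IsOpen (V ∩ {w : ℂ | c.im < w.im}) :=
        hVo.inter (isOpen_lt continuous_const Complex.continuous_im)
      filter_upwards [ho1.mem_nhds ⟨hmem, by simp only [mem_ofPred_eq]; rw [him]; linarith⟩] with w hw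
      exact hW2 hw
    · rintro w ⟨h1, h2⟩
      refine ⟨h1, ?_⟩
      rintro rfl
      simp at h2
  have hXU' : ∀ w ∈ U, X w = Op e G w := by
    rintro w ⟨hw, hwc⟩
    rcases lt_trichotomy w.re c.re with h1 | h1 | h1
    · exact hW4 ⟨hw, h1⟩
    · rcases lt_trichotomy w.im c.im with h2 | h2 | h2
      · exact hW3 ⟨hw, h2⟩
      · exact absurd (Complex.ext h1 h2) hwc
      · exact hW2 ⟨hw, h2⟩
    · exact hW1 ⟨hw, h1⟩
  -- the circle
  set R : ℝ := min δ r₁ / 2 with hR
  have hmin : 0 < min δ r₁ := lt_min hδ hr₁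
  have hR0 : 0 < R := by rw [hR]; linarith
  have hRδ : R < δ := by have := min_le_left δ r₁; rw [hR]; linarith
  have hRr : R < r₁ := by have := min_le_right δ r₁; rw [hR]; linarith
  have hcb : closedBall c R ⊆ V := (closedBall_subset_ball hRδ).trans hballV
  have hcb' : closedBall c R ⊆ ball c r₁ := closedBall_subset_ball hRr
  have hsphU : sphere c R ⊆ U := by
    intro w hw
    refine ⟨hcb (sphere_subset_closedBall hw), ?_⟩
    rintro rfl
    rw [mem_sphere, dist_self] at hw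
    exact hR0.ne hw
  have hmo := moments_vanish hUo hGd he hR0 hsphU (X := X)
    (hXd.mono (fun w hw => hVre w (hcb hw))) (fun w hw => hXU' w (hsphU hw)) (n - 1) 0
  have hcau : (∮ z in C(c, R), (z - c)⁻¹ • (K z / g z)) = (2 * Real.pi * Complex.I : ℂ) •
      (K c / g c) := by
    apply DiffContOnCl.circleIntegral_sub_inv_smul _ (mem_ball_self hR0)
    have h1 : DifferentiableOn ℂ (fun z => K z / g z) (closedBall c R) := by
      intro w hw
      have h2 : DifferentiableAt ℂ K w := hK.differentiableAt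
        ((isOpen_re_gt 0).mem_nhds (by have := hVre w (hcb hw); simp only [mem_ofPred_eq]; linarith))
      exact (h2.fun_div (hr₁b w (hcb' hw)).2.1 (hr₁b w (hcb' hw)).2.2).differentiableWithinAt
    refine ⟨h1.mono ball_subset_closedBall, ?_⟩
    rw [closure_ball c hR0.ne']
    exact h1.continuousOn
  have heq : (∮ z in C(c, R), (z - c) ^ (n - 1) * iteratedDeriv 0 G z) =
      ∮ z in C(c, R), (z - c)⁻¹ • (K z / g z) := by
    apply circleIntegral.integral_congr hR0.le
    intro w hw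
    have hwc : w - c ≠ 0 := by
      intro h0
      rw [mem_sphere, dist_eq_norm, h0, norm_zero] at hw
      exact hR0.ne hw
    have hw' := hr₁b w (hcb' (sphere_subset_closedBall hw))
    simp only [iteratedDeriv_zero, hG, smul_eq_mul]
    rw [hw'.1, smul_eq_mul]
    obtain ⟨k, rfl⟩ := Nat.exists_eq_succ_of_ne_zero hn
    rw [Nat.succ_sub_one, pow_succ]
    field_simp [hw'.2.2]
  rw [heq, hcau] at hmo
  have hpi : (2 * Real.pi * Complex.I : ℂ) ≠ 0 := Complex.two_pi_I_ne_zero
  rw [smul_eq_zero] at hmo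
  rcases hmo with h1 | h1
  · exact hpi h1
  · rw [div_eq_zero_iff] at h1
    rcases h1 with h1 | h1
    · exact hKρ c hc0 (by rw [hcre]; linarith) h1
    · exact hg0 h1

end Pool.Agent.H94.Cyc
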