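import Pool.Agent.H94.Cyc.Zeta

set_option autoImplicit false

namespace Pool.Agent.H94.Cyc

open MeasureTheory Filter Topology Set

theorem completed₀_nat_le (N : ℕ) (hN : 1 ≤ N) :
    (completedRiemannZeta₀ ((2 * N : ℝ) : ℂ)).re ≤ 2 * (N - 1).factorial + 2 := by
  have hN' : (1 : ℝ) ≤ N := by exact_mod_cast hN
  have h1 : completedRiemannZeta₀ ((2 * N : ℝ) : ℂ) =
      Complex.Gammaℝ ((2 * N : ℝ) : ℂ) * riemannZeta ((2 * N : ℝ) : ℂ) + 1 / ((2 * N : ℝ) : ℂ) +
        1 / (1 - ((2 * N : ℝ) : ℂ)) := by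
    apply completed₀_eq
    · rw [Complex.ofReal_re]; linarith
    · intro h
      have : (2 * N : ℝ) = 1 := by exact_mod_cast h
      linarith
  refine (Complex.re_le_norm _).trans ?_
  rw [h1]
  have hG : ‖Complex.Gammaℝ ((2 * N : ℝ) : ℂ)‖ ≤ (N - 1).factorial := by
    rw [Complex.Gammaℝ_def, norm_mul]
    have e1 : -((2 * N : ℝ) : ℂ) / 2 = ((-N : ℝ) : ℂ) := by push_cast; ring
    have e2 : ((2 * N : ℝ) : ℂ) / 2 = ((N - 1 : ℕ) : ℂ) + 1 := by
      push_cast [Nat.cast_sub hN]; ring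
    rw [e1, e2, Complex.Gamma_nat_eq_factorial, Complex.norm_cpow_eq_rpow_re_of_pos Real.pi_pos,
      Complex.ofReal_re, Complex.norm_natCast]
    have h2 : Real.pi ^ (-(N : ℝ)) ≤ 1 := by
      apply Real.rpow_le_one_of_one_le_of_nonpos
      · linarith [Real.pi_gt_three]
      · linarith
    have h3 : (0 : ℝ) ≤ ((N - 1).factorial : ℝ) := by positivity
    nlinarith
  have hz : ‖riemannZeta ((2 * N : ℝ) : ℂ)‖ ≤ 2 := by
    have hz1 : riemannZeta ((2 * N : ℝ) : ℂ) = ∑' n : ℕ, 1 / (n : ℂ) ^ (2 * N) := by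
      have := zeta_nat_eq_tsum_of_gt_one (k := 2 * N) (by omega)
      rw [← this]; push_cast; rfl
    have hs2 : HasSum (fun n : ℕ => 1 / (n : ℝ) ^ 2) (Real.pi ^ 2 / 6) := hasSum_zeta_two
    rw [hz1]
    have h2 : ‖∑' n : ℕ, 1 / (n : ℂ) ^ (2 * N)‖ ≤ Real.pi ^ 2 / 6 := by
      apply tsum_of_norm_bounded hs2
      intro n
      rw [norm_div, norm_one, norm_pow, Complex.norm_natCast]
      rcases Nat.eq_zero_or_pos n with rfl | hn
      · rw [Nat.cast_zero, zero_pow (by omega), zero_pow (by norm_num)]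
      · apply one_div_le_one_div_of_le (by positivity)
        apply pow_le_pow_right₀ (by exact_mod_cast hn) (by omega)
    have h3 := Real.pi_lt_d2
    have h4 := Real.pi_pos
    nlinarith
  have h5 : ‖(1 : ℂ) / ((2 * N : ℝ) : ℂ)‖ ≤ 1 := by
    rw [norm_div, norm_one, Complex.norm_real, Real.norm_eq_abs, abs_of_pos (by linarith),
      div_le_one (by linarith)]
    linarith
  have h6 : ‖(1 : ℂ) / (1 - ((2 * N : ℝ) : ℂ))‖ ≤ 1 := by
    have : (1 : ℂ) - ((2 * N : ℝ) : ℂ) = ((1 - 2 * N : ℝ) : ℂ) := by push_cast; ring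
    rw [this, norm_div, norm_one, Complex.norm_real, Real.norm_eq_abs, abs_of_neg (by linarith),
      div_le_one (by linarith)]
    linarith
  calc _ ≤ ‖Complex.Gammaℝ ((2 * N : ℝ) : ℂ) * riemannZeta ((2 * N : ℝ) : ℂ)‖ +
        ‖(1 : ℂ) / ((2 * N : ℝ) : ℂ)‖ + ‖(1 : ℂ) / (1 - ((2 * N : ℝ) : ℂ))‖ := norm_add₃_le
    _ ≤ (N - 1).factorial * 2 + 1 + 1 := by
        gcongr
        rw [norm_mul]
        exact mul_le_mul hG hz (norm_nonneg _) (by positivity)
    _ = _ := by ring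

theorem xi_bound (N : ℕ) (hN : 1 ≤ N) (z : ℂ) (hz : ‖z‖ < N) :
    ‖xi z‖ ≤ 17 * (N : ℝ) ^ (N + 2) := by
  have hN' : (1 : ℝ) ≤ N := by exact_mod_cast hN
  have hre := (Complex.abs_re_le_norm z)
  rw [abs_le] at hre
  have h1 : ‖completedRiemannZeta₀ z‖ ≤ 2 * (completedRiemannZeta₀ ((2 * N : ℝ) : ℂ)).re :=
    norm_completed_le' (by linarith [hre.1]) (by linarith [hre.2])
  have h2 := completed₀_nat_le N hN
  have h3 : ((N - 1).factorial : ℝ) ≤ (N : ℝ) ^ N := by
    have h31 : (N - 1).factorial ≤ N.factorial := Nat.factorial_le (by omega)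
    have h32 : N.factorial ≤ N ^ N := Nat.factorial_le_pow N
    exact_mod_cast h31.trans h32
  have h4 : (1 : ℝ) ≤ (N : ℝ) ^ N := one_le_pow₀ hN'
  have h5 : ‖completedRiemannZeta₀ z‖ ≤ 8 * (N : ℝ) ^ N := by linarith
  unfold xi
  calc ‖1 + z * (z - 1) * completedRiemannZeta₀ z‖
      ≤ ‖(1 : ℂ)‖ + ‖z‖ * ‖z - 1‖ * ‖completedRiemannZeta₀ z‖ := by
        refine (norm_add_le _ _).trans ?_
        rw [norm_mul, norm_mul]
    _ ≤ 1 + N * (2 * N) * (8 * (N : ℝ) ^ N) := by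
        have h6 : ‖z - 1‖ ≤ 2 * N := by
          refine (norm_sub_le _ _).trans ?_
          rw [norm_one]; linarith
        rw [norm_one]
        gcongr
    _ ≤ _ := by
        have h7 : (1 : ℝ) ≤ (N : ℝ) ^ (N + 2) := one_le_pow₀ hN'
        have h8 : (N : ℝ) ^ (N + 2) = N ^ N * N ^ 2 := pow_add _ _ _
        nlinarith

/-- the Riemann zeta function has a zero in the half plane `Re s ≥ 1/2` -/
theorem exists_zero : ∃ ρ : ℂ, riemannZeta₁ ρ = 0 ∧ 1 / 2 ≤ ρ.re := by
  by_contra hcon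
  push Not at hcon
  have hne : ∀ s : ℂ, xi s ≠ 0 := by
    have h1 : ∀ s : ℂ, 1 / 2 ≤ s.re → xi s ≠ 0 := by
      intro s hs
      rw [xi_ne_zero_iff (by linarith)]
      intro h0
      have := hcon s h0
      linarith
    intro s
    rcases le_total (1 / 2) s.re with h | h
    · exact h1 s h
    · rw [← xi_one_sub]
      apply h1
      rw [Complex.sub_re, Complex.one_re]; linarith
  have hgd : Differentiable ℂ (fun z => deriv xi z / xi z) :=
    (xi_differentiable.deriv).fun_div xi_differentiable hne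
  obtain ⟨F, hF0, hF⟩ := hgd.isExactOn_univ.with_val_at 0 0
  have hFd : Differentiable ℂ F := fun z => (hF z (mem_univ z)).differentiableAt
  have hexp : ∀ z, xi z = Complex.exp (F z) := by
    have hd : ∀ z, HasDerivAt (fun z => xi z * Complex.exp (-F z)) 0 z := by
      intro z
      have h1 := (xi_differentiable z).hasDerivAt
      have h2 := ((hF z (mem_univ z)).fun_neg).cexp
      have h3 := h1.fun_mul h2
      refine h3.congr_deriv ?_
      have := hne z
      field_simp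
      ring
    have hconst := is_const_of_deriv_eq_zero (f := fun z => xi z * Complex.exp (-F z))
      (fun z => (hd z).differentiableAt) (fun z => (hd z).deriv)
    intro z
    have h1 := hconst z 0
    have hx0 : xi 0 = 1 := by simp [xi]
    simp only [hF0, neg_zero, Complex.exp_zero, mul_one, hx0] at h1
    rw [Complex.exp_neg] at h1
    have h2 := Complex.exp_ne_zero (F z)
    field_simp at h1
    exact h1
  -- bounds
  have hre : ∀ N : ℕ, 3 ≤ N → ∀ z ∈ Metric.ball (0 : ℂ) N, (F z).re ≤ 8 * (N : ℝ) ^ (3 / 2 : ℝ) := by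
    intro N hN z hz
    rw [mem_ball_zero_iff] at hz
    have hN' : (3 : ℝ) ≤ N := by exact_mod_cast hN
    have h1 := xi_bound N (by omega) z hz
    rw [hexp, Complex.norm_exp] at h1
    have h2 : Real.exp (F z).re ≤ (N : ℝ) ^ (N + 5) := by
      refine h1.trans ?_
      have : (17 : ℝ) ≤ (N : ℝ) ^ 3 := by
        have : (3 : ℝ) ^ 3 ≤ (N : ℝ) ^ 3 := pow_le_pow_left₀ (by norm_num) hN' 3
        linarith
      calc 17 * (N : ℝ) ^ (N + 2) ≤ (N : ℝ) ^ 3 * (N : ℝ) ^ (N + 2) :=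
            mul_le_mul_of_nonneg_right this (by positivity)
        _ = _ := by ring
    have h3 : (F z).re ≤ (N + 5) * Real.log N := by
      rw [← Real.log_exp (F z).re]
      refine (Real.log_le_log (Real.exp_pos _) h2).trans ?_
      rw [Real.log_pow]; push_cast; rfl
    have h4 : Real.log N ≤ 2 * (N : ℝ) ^ (1 / 2 : ℝ) := by
      have := Real.log_le_rpow_div (x := N) (by positivity) (ε := 1 / 2) (by norm_num)
      linarith
    have h5 : (N : ℝ) ^ (3 / 2 : ℝ) = N * (N : ℝ) ^ (1 / 2 : ℝ) := by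
      rw [show (3 / 2 : ℝ) = 1 + 1 / 2 by norm_num, Real.rpow_add (by positivity), Real.rpow_one]
    have h6 : 0 ≤ (N : ℝ) ^ (1 / 2 : ℝ) := by positivity
    rw [h5]
    calc (F z).re ≤ (N + 5) * Real.log N := h3
      _ ≤ (N + 5) * (2 * (N : ℝ) ^ (1 / 2 : ℝ)) := mul_le_mul_of_nonneg_left h4 (by positivity)
      _ ≤ _ := by nlinarith
  have hbc : ∀ N : ℕ, 3 ≤ N → ∀ z ∈ Metric.sphere (0 : ℂ) (N / 2), ‖F z‖ ≤
      16 * (N : ℝ) ^ (3 / 2 : ℝ) := by
    intro N hN z hz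
    have hN' : (3 : ℝ) ≤ N := by exact_mod_cast hN
    rw [mem_sphere_zero_iff_norm] at hz
    have h1 := Complex.borelCaratheodory_zero (M := 8 * (N : ℝ) ^ (3 / 2 : ℝ)) (R := N) (z := z)
      (by positivity) hFd.differentiableOn (fun w hw => hre N hN w hw) (by positivity)
      (by rw [mem_ball_zero_iff, hz]; linarith) hF0
    rw [hz] at h1
    refine h1.trans (le_of_eq ?_)
    field_simp
    ring
  have hder : ∀ n : ℕ, 2 ≤ n → iteratedDeriv n F 0 = 0 := by
    intro n hn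
    have hle : ∀ N : ℕ, 3 ≤ N → ‖iteratedDeriv n F 0‖ ≤
        (n.factorial * 16 * 2 ^ n) * (N : ℝ) ^ (-(1 / 2) : ℝ) := by
      intro N hN
      have hN' : (3 : ℝ) ≤ N := by exact_mod_cast hN
      have h1 := Complex.norm_iteratedDeriv_le_of_forall_mem_sphere_norm_le n
        (show (0 : ℝ) < N / 2 by positivity) hFd.diffContOnCl (hbc N hN)
      refine h1.trans ?_
      have h2 : (N : ℝ) ^ (-(1 / 2) : ℝ) = (N : ℝ) ^ (3 / 2 : ℝ) / (N : ℝ) ^ 2 := by
        rw [show (-(1 / 2) : ℝ) = 3 / 2 - (2 : ℕ) by norm_num, Real.rpow_sub_natCast (by positivity)]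
      have h3 : (N : ℝ) ^ 2 ≤ (N : ℝ) ^ n := pow_le_pow_right₀ (by linarith) hn
      rw [h2, div_pow, div_div_eq_mul_div]
      have h4 : (N : ℝ) ^ (3 / 2 : ℝ) / (N : ℝ) ^ n ≤ (N : ℝ) ^ (3 / 2 : ℝ) / (N : ℝ) ^ 2 :=
        div_le_div_of_nonneg_left (by positivity) (by positivity) h3
      calc n.factorial * (16 * (N : ℝ) ^ (3 / 2 : ℝ)) * 2 ^ n / (N : ℝ) ^ n
          = (n.factorial * 16 * 2 ^ n) * ((N : ℝ) ^ (3 / 2 : ℝ) / (N : ℝ) ^ n) := by ring
        _ ≤ _ := mul_le_mul_of_nonneg_left h4 (by positivity)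
    have hlim : Tendsto (fun N : ℕ => (n.factorial * 16 * 2 ^ n) * (N : ℝ) ^ (-(1 / 2) : ℝ)) atTop
        (𝓝 0) := by
      have h1 := (tendsto_rpow_neg_atTop (y := 1 / 2) (by norm_num)).comp
        (tendsto_natCast_atTop_atTop (R := ℝ))
      have h2 := h1.const_mul ((n.factorial * 16 * 2 ^ n : ℝ))
      simpa using h2
    have h2 : ‖iteratedDeriv n F 0‖ ≤ 0 := by
      apply ge_of_tendsto hlim
      filter_upwards [eventually_ge_atTop 3] with N hN
      exact hle N hN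
    exact norm_le_zero_iff.mp h2
  have hlin : ∀ z, F z = z * iteratedDeriv 1 F 0 := by
    intro z
    have h1 := Complex.hasSum_taylorSeries_of_entire hFd 0 z
    have h2 : HasSum (fun n : ℕ ↦ (n.factorial : ℂ)⁻¹ • (z - 0) ^ n • iteratedDeriv n F 0)
        (((1).factorial : ℂ)⁻¹ • (z - 0) ^ 1 • iteratedDeriv 1 F 0) := by
      apply hasSum_single 1
      intro n hn
      rcases Nat.eq_zero_or_pos n with rfl | hn0
      · simp [hF0]
      · rw [hder n (by omega)]; simp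
    rw [h1.unique h2]; simp
  have hx1 : xi 1 = 1 := by simp [xi]
  have hx2 : xi 2 = ((Real.pi / 3 : ℝ) : ℂ) := by
    unfold xi
    rw [completed₀_two]
    push_cast; ring
  have h1 := hexp 1
  have h2 := hexp 2
  rw [hlin, hx1, one_mul] at h1
  rw [hlin, hx2, two_mul, Complex.exp_add, ← h1, one_mul] at h2
  have h3 : Real.pi / 3 = 1 := by exact_mod_cast h2
  have := Real.pi_gt_d2
  linarith

end Pool.Agent.H94.Cyc
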