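import Pool.Agent.H94.Cyc.Mel
import Pool.Agent.H94.Cyc.Pole
import Pool.Agent.H94.Cyc.ZetaZero

set_option autoImplicit false

namespace Pool.Agent.H94.Cyc

open MeasureTheory Filter Topology Set

/-- shifted Möbius function -/
noncomputable def muc (d : ℕ) : ℝ := ((ArithmeticFunction.moebius (d + 1) : ℤ) : ℝ)

theorem muc_abs (d : ℕ) : |muc d| ≤ 1 := by
  unfold muc
  have := ArithmeticFunction.abs_moebius_le_one (n := d + 1)
  exact_mod_cast this

theorem hA {s : ℂ} (hs1 : 1 < s.re) :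
    HasSum (fun d : ℕ => (muc d : ℂ) / ((d : ℂ) + 1) ^ s)
      (LSeries (fun n => ((ArithmeticFunction.moebius n : ℤ) : ℂ)) s) := by
  have h1 := (ArithmeticFunction.LSeriesSummable_moebius_iff.mpr hs1).LSeriesHasSum
  have h2 := (hasSum_nat_add_iff' 1).mpr h1
  simp only [Finset.sum_range_one, LSeries.term_zero, sub_zero] at h2
  refine h2.congr_fun fun d => ?_
  rw [LSeries.term_of_ne_zero (by omega)]
  unfold muc
  push_cast
  rfl

theorem hB {s : ℂ} (hs0 : 1 < s.re) :
    HasSum (fun j : ℕ => 1 / ((j : ℂ) + 1) ^ s) (riemannZeta s) := by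
  rw [zeta_eq_tsum_one_div_nat_add_one_cpow hs0]
  apply Summable.hasSum
  have := (Complex.summable_one_div_nat_cpow (p := s)).mpr hs0
  have h2 := (summable_nat_add_iff 1).mpr this
  refine h2.congr fun j => ?_
  push_cast
  rfl

theorem hterm (s : ℂ) (x : ℕ × ℕ) : Complex.Gamma s * ((muc x.1 * ((x.1 : ℝ) + 1) : ℝ) : ℂ) /
      (((((x.1 : ℝ) + 1) * ((x.2 : ℝ) + 1) : ℝ)) : ℂ) ^ s =
      Complex.Gamma s * ((muc x.1 : ℂ) / ((x.1 : ℂ) + 1) ^ (s - 1) *
        (1 / ((x.2 : ℂ) + 1) ^ s)) := by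
  have hx1 : (0 : ℝ) < (x.1 : ℝ) + 1 := by positivity
  have hx2 : (0 : ℝ) < (x.2 : ℝ) + 1 := by positivity
  have hx1' : ((x.1 : ℂ) + 1) ≠ 0 := by exact_mod_cast hx1.ne'
  have hx2' : ((x.2 : ℂ) + 1) ≠ 0 := by exact_mod_cast hx2.ne'
  rw [Complex.ofReal_mul, Complex.ofReal_mul, Complex.mul_cpow_ofReal_nonneg hx1.le hx2.le]
  push_cast
  rw [Complex.cpow_sub _ _ hx1', Complex.cpow_one]
  have h3 : ((x.1 : ℂ) + 1) ^ s ≠ 0 := by
    rw [Ne, Complex.cpow_eq_zero_iff]; tauto
  have h4 : ((x.2 : ℂ) + 1) ^ s ≠ 0 := by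
    rw [Ne, Complex.cpow_eq_zero_iff]; tauto
  field_simp

theorem hAB {s : ℂ} (hs : 2 < s.re) :
    HasSum (fun x : ℕ × ℕ => Complex.Gamma s * ((muc x.1 : ℂ) / ((x.1 : ℂ) + 1) ^ (s - 1) *
        (1 / ((x.2 : ℂ) + 1) ^ s))) (Complex.Gamma s *
          (LSeries (fun n => ((ArithmeticFunction.moebius n : ℤ) : ℂ)) (s - 1) *
            riemannZeta s)) := by
  have hs1 : 1 < (s - 1).re := by rw [Complex.sub_re, Complex.one_re]; linarith
  have hs0 : 1 < s.re := by linarith
  apply HasSum.mul_left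
  have h3 : Summable (fun x : ℕ × ℕ => (muc x.1 : ℂ) / ((x.1 : ℂ) + 1) ^ (s - 1) *
        (1 / ((x.2 : ℂ) + 1) ^ s)) :=
    summable_mul_of_summable_norm (f := fun d : ℕ => (muc d : ℂ) / ((d : ℂ) + 1) ^ (s - 1))
      (g := fun j : ℕ => 1 / ((j : ℂ) + 1) ^ s) (hA hs1).summable.norm (hB hs0).summable.norm
  exact HasSum.mul (f := fun d : ℕ => (muc d : ℂ) / ((d : ℂ) + 1) ^ (s - 1))
    (g := fun j : ℕ => 1 / ((j : ℂ) + 1) ^ s) (hA hs1) (hB hs0) h3

theorem mellin_muc {s : ℂ} (hs : 2 < s.re) :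
    mellin (fun t => ((SS muc t : ℝ) : ℂ)) s * riemannZeta (s - 1) =
      Complex.Gamma s * riemannZeta s := by
  have hs1 : 1 < (s - 1).re := by rw [Complex.sub_re, Complex.one_re]; linarith
  have h' : HasSum (fun x : ℕ × ℕ => Complex.Gamma s * ((muc x.1 : ℂ) / ((x.1 : ℂ) + 1) ^ (s - 1) *
        (1 / ((x.2 : ℂ) + 1) ^ s))) (mellin (fun t => ((SS muc t : ℝ) : ℂ)) s) :=
    (SS_mellin_hasSum muc_abs hs).congr_fun fun x => (hterm s x).symm
  rw [h'.unique (hAB hs)]
  have h6 := ArithmeticFunction.LSeries_zeta_mul_Lseries_moebius hs1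
  rw [ArithmeticFunction.LSeries_zeta_eq_riemannZeta hs1] at h6
  calc Complex.Gamma s * (LSeries (fun n => ((ArithmeticFunction.moebius n : ℤ) : ℂ)) (s - 1) *
        riemannZeta s) * riemannZeta (s - 1)
      = Complex.Gamma s * riemannZeta s * (riemannZeta (s - 1) *
        LSeries (fun n => ((ArithmeticFunction.moebius n : ℤ) : ℂ)) (s - 1)) := by ring
    _ = _ := by rw [h6, mul_one]

/-- No nonnegative-coefficient entire function of type zero can correct the signs of the limit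
function. -/
theorem LP {e : ℕ → ℝ} (he : Typ0 e) (hpos : ∀ y, 0 ≤ psi muc y * EE e y) : False := by
  have hm := measurable_psi muc_abs
  have hL := lapInt_psi muc_abs
  set K : ℂ → ℂ := fun u => Complex.exp (-(2 * u)) * (Complex.Gamma (1 + u) *
    riemannZeta (1 + u)) * (u - 1) with hK
  have hKd : DifferentiableOn ℂ K {z | 0 < z.re} := by
    intro z hz
    simp only [Set.mem_ofPred_eq] at hz
    have h1 : DifferentiableAt ℂ (fun u : ℂ => Complex.Gamma (1 + u)) z := by
      apply DifferentiableAt.comp z (f := fun u : ℂ => 1 + u) (g := Complex.Gamma)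
      · apply Complex.differentiableAt_Gamma
        intro m hm
        have := congrArg Complex.re hm
        simp at this
        have h2 : (0 : ℝ) ≤ m := by positivity
        linarith
      · fun_prop
    have h2 : DifferentiableAt ℂ (fun u : ℂ => riemannZeta (1 + u)) z := by
      apply DifferentiableAt.comp z (f := fun u : ℂ => 1 + u) (g := riemannZeta)
      · apply differentiableAt_riemannZeta
        intro h
        have : z = 0 := by linear_combination h
        rw [this] at hz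
        simp at hz
      · fun_prop
    apply DifferentiableAt.differentiableWithinAt
    rw [hK]
    fun_prop
  have hKL : ∀ z : ℂ, 1 < z.re → Lap (psi muc) 0 z * riemannZeta₁ z = K z := by
    intro z hz
    have hz1 : z ≠ 1 := by rintro rfl; simp at hz
    have h1 := mellin_muc (s := 1 + z) (by rw [Complex.add_re, Complex.one_re]; linarith)
    rw [add_sub_cancel_left, riemannZeta_eq_inv_sub_mul hz1] at h1
    rw [lap_psi, hK]
    simp only
    rw [← h1]
    have h2 : z - 1 ≠ 0 := sub_ne_zero.mpr hz1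
    field_simp
  have hZ1 : ∀ z : ℂ, 1 ≤ z.re → riemannZeta₁ z ≠ 0 := fun z hz => zeta₁_ne_zero_of_one_le hz
  -- landau step
  set G : ℂ → ℂ := fun z => K z / riemannZeta₁ z with hG
  have hsub : Metric.closedBall ((11 / 10 : ℝ) : ℂ) (13 / 20) ⊆ {z : ℂ | 0 < z.re} := by
    intro s hs
    rw [Metric.mem_closedBall, Complex.dist_eq] at hs
    have hre := (Complex.abs_re_le_norm _).trans hs
    rw [Complex.sub_re, Complex.ofReal_re, abs_le] at hre
    simp only [Set.mem_ofPred_eq]
    linarith [hre.1]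
  have hGd : DiffContOnCl ℂ G (Metric.ball ((11 / 10 : ℝ) : ℂ) (13 / 20)) := by
    have h1 : DifferentiableOn ℂ G (Metric.closedBall ((11 / 10 : ℝ) : ℂ) (13 / 20)) := by
      apply DifferentiableOn.fun_div (hKd.mono hsub)
        differentiable_riemannZeta₁.differentiableOn
      intro s hs
      exact zeta₁_ne_zero_disc hs
    refine ⟨h1.mono Metric.ball_subset_closedBall, ?_⟩
    rw [closure_ball _ (by norm_num)]
    exact h1.continuousOn
  have hGL : G =ᶠ[𝓝 ((11 / 10 : ℝ) : ℂ)] Lap (psi muc) 0 := by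
    filter_upwards [(isOpen_re_gt 1).mem_nhds
      (show 1 < (((11 / 10 : ℝ) : ℂ)).re by rw [Complex.ofReal_re]; norm_num)] with w hw
    simp only [hG]
    rw [← hKL w hw]
    field_simp [hZ1 w (le_of_lt hw)]
  have hstep := landau_step hm hL he hpos G hGd hGL
  obtain ⟨ρ, hρ, hρre⟩ := exists_zero
  refine no_pole hm hL he hstep K riemannZeta₁ hKd differentiable_riemannZeta₁ hKL hZ1 ρ hρ hρre ?_
  intro z hz hzre
  have hz1 : z ≠ 1 := by
    rintro rfl
    simp at hz
  rw [hK]
  simp only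
  apply mul_ne_zero _ (sub_ne_zero.mpr hz1)
  apply mul_ne_zero (Complex.exp_ne_zero _)
  apply mul_ne_zero
  · apply Complex.Gamma_ne_zero_of_re_pos
    rw [Complex.add_re, Complex.one_re]; linarith
  · apply riemannZeta_ne_zero_of_one_le_re
    rw [Complex.add_re, Complex.one_re]; linarith

end Pool.Agent.H94.Cyc
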