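import Pool.Agent.H94.Cyc.Laplace

set_option autoImplicit false

namespace Pool.Agent.H94.Cyc

open MeasureTheory Filter Topology Set

/-- Nonnegative coefficient sequences of entire functions of exponential type zero. -/
structure Typ0 (e : ℕ → ℝ) : Prop where
  nonneg : ∀ j, 0 ≤ e j
  zero : e 0 = 1
  growth : ∀ ε : ℝ, 0 < ε → ∃ C : ℝ, 0 ≤ C ∧ ∀ j : ℕ, (j.factorial : ℝ) * e j ≤ C * ε ^ j

/-- the function with these coefficients, at `-y` -/
noncomputable def EE (e : ℕ → ℝ) (y : ℝ) : ℝ := ∑' j, e j * (-y) ^ j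

theorem fact_bound (j m : ℕ) {l : ℝ} (hl : 0 < l) :
    ((j + m).factorial : ℝ) ≤ j.factorial * m.factorial * ((1 + l) ^ (j + m) / l ^ j) := by
  have h1 : ((j + m).factorial : ℝ) = (j + m).choose j * j.factorial * m.factorial := by
    rw [← Nat.add_choose_mul_factorial_mul_factorial j m, Nat.choose_symm_add]
    push_cast
    ring
  have h2 : ((j + m).choose j : ℝ) * l ^ j ≤ (1 + l) ^ (j + m) := by
    rw [add_comm 1 l, add_pow]
    have : ((j + m).choose j : ℝ) * l ^ j = l ^ j * 1 ^ (j + m - j) * ((j + m).choose j : ℝ) := by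
      rw [one_pow]; ring
    rw [this]
    apply Finset.single_le_sum (f := fun k => l ^ k * 1 ^ (j + m - k) * ((j + m).choose k : ℝ))
    · intro i _; positivity
    · rw [Finset.mem_range]; omega
  have h3 : ((j + m).choose j : ℝ) ≤ (1 + l) ^ (j + m) / l ^ j := by
    rw [le_div_iff₀ (by positivity)]; exact h2
  rw [h1]
  calc ((j + m).choose j : ℝ) * j.factorial * m.factorial
      = (j.factorial * m.factorial) * ((j + m).choose j : ℝ) := by ring
    _ ≤ _ := mul_le_mul_of_nonneg_left h3 (by positivity)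

namespace Typ0

variable {e : ℕ → ℝ}

/-- explicit bound with general parameters -/
theorem term_bound (he : Typ0 e) {C ε : ℝ} (hC : ∀ j : ℕ, (j.factorial : ℝ) * e j ≤ C * ε ^ j)
    {l R : ℝ} (hl : 0 < l) (hR : 0 < R) (j m : ℕ) :
    e j * ((j + m).factorial * R ^ (j + m)) ≤
      (m.factorial * ((1 + l) * R) ^ m) * (C * (ε * ((1 + l) * R / l)) ^ j) := by
  have h1 := fact_bound j m hl
  have h2 := he.nonneg j
  calc e j * ((j + m).factorial * R ^ (j + m))
      ≤ e j * ((j.factorial * m.factorial * ((1 + l) ^ (j + m) / l ^ j)) * R ^ (j + m)) := by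
        apply mul_le_mul_of_nonneg_left _ h2
        exact mul_le_mul_of_nonneg_right h1 (by positivity)
    _ = (j.factorial * e j) * (m.factorial * ((1 + l) * R) ^ m * ((1 + l) * R / l) ^ j) := by
        rw [mul_pow, div_pow, mul_pow, pow_add, pow_add]; field_simp
    _ ≤ (C * ε ^ j) * (m.factorial * ((1 + l) * R) ^ m * ((1 + l) * R / l) ^ j) :=
        mul_le_mul_of_nonneg_right (hC j) (by positivity)
    _ = _ := by rw [mul_pow ε]; ring

theorem summable_fact (he : Typ0 e) (m : ℕ) {R : ℝ} (hR : 0 < R) :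
    Summable (fun j => e j * ((j + m).factorial * R ^ (j + m))) := by
  obtain ⟨C, hC0, hC⟩ := he.growth (1 / (4 * R)) (by positivity)
  refine Summable.of_nonneg_of_le (fun j => mul_nonneg (he.nonneg j) (by positivity))
    (fun j => he.term_bound hC one_pos hR j m) ?_
  apply Summable.mul_left
  apply Summable.mul_left
  have : 1 / (4 * R) * ((1 + 1) * R / 1) = 1 / 2 := by field_simp; norm_num
  rw [this]
  exact summable_geometric_of_lt_one (by norm_num) (by norm_num)

theorem summable_pow (he : Typ0 e) {R : ℝ} (hR : 0 ≤ R) : Summable (fun j => e j * R ^ j) := by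
  have h1 := he.summable_fact 0 (show 0 < R + 1 by linarith)
  refine Summable.of_nonneg_of_le (fun j => mul_nonneg (he.nonneg j) (by positivity)) ?_ h1
  intro j
  apply mul_le_mul_of_nonneg_left _ (he.nonneg j)
  have h2 : (1 : ℝ) ≤ (j.factorial : ℝ) := by exact_mod_cast j.factorial_pos
  have h3 : R ^ j ≤ (R + 1) ^ j := pow_le_pow_left₀ hR (by linarith) j
  rw [add_zero]
  nlinarith [pow_nonneg (by linarith : (0 : ℝ) ≤ R + 1) j]

theorem summable_EE (he : Typ0 e) (y : ℝ) : Summable (fun j => e j * (-y) ^ j) := by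
  apply Summable.of_norm_bounded (he.summable_pow (abs_nonneg y))
  intro j
  rw [norm_mul, norm_pow, norm_neg, Real.norm_eq_abs, Real.norm_eq_abs, abs_of_nonneg (he.nonneg j)]

theorem abs_EE_le (he : Typ0 e) (y : ℝ) : |EE e y| ≤ ∑' j, e j * |y| ^ j := by
  unfold EE
  rw [← Real.norm_eq_abs]
  apply tsum_of_norm_bounded (he.summable_pow (abs_nonneg y)).hasSum
  intro j
  rw [norm_mul, norm_pow, norm_neg, Real.norm_eq_abs, Real.norm_eq_abs, abs_of_nonneg (he.nonneg j)]

theorem EE_exp (he : Typ0 e) {ε : ℝ} (hε : 0 < ε) :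
    ∃ C : ℝ, 0 ≤ C ∧ ∀ y, |EE e y| ≤ C * Real.exp (ε * |y|) := by
  obtain ⟨C, hC0, hC⟩ := he.growth ε hε
  refine ⟨C, hC0, fun y => (he.abs_EE_le y).trans ?_⟩
  have h1 : HasSum (fun j : ℕ => C * ((ε * |y|) ^ j / j.factorial)) (C * Real.exp (ε * |y|)) := by
    apply HasSum.mul_left
    rw [Real.exp_eq_exp_ℝ]
    exact NormedSpace.expSeries_div_hasSum_exp (ε * |y|)
  rw [← h1.tsum_eq]
  apply Summable.tsum_le_tsum _ (he.summable_pow (abs_nonneg y)) h1.summable
  intro j
  have h2 : e j ≤ C * ε ^ j / j.factorial := by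
    rw [le_div_iff₀ (by positivity), mul_comm]; exact hC j
  calc e j * |y| ^ j ≤ (C * ε ^ j / j.factorial) * |y| ^ j :=
        mul_le_mul_of_nonneg_right h2 (by positivity)
    _ = _ := by rw [mul_pow]; ring

theorem continuous_EE (he : Typ0 e) : Continuous (EE e) := by
  rw [continuous_iff_continuousAt]
  intro x
  have h1 : ContinuousOn (EE e) (Metric.ball x 1) := by
    unfold EE
    apply continuousOn_tsum (u := fun j => e j * (|x| + 1) ^ j)
    · intro j; fun_prop
    · exact he.summable_pow (by positivity)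
    · intro j y hy
      rw [norm_mul, norm_pow, norm_neg, Real.norm_eq_abs, Real.norm_eq_abs,
        abs_of_nonneg (he.nonneg j)]
      apply mul_le_mul_of_nonneg_left _ (he.nonneg j)
      apply pow_le_pow_left₀ (abs_nonneg y)
      rw [Metric.mem_ball, Real.dist_eq] at hy
      have := abs_sub_abs_le_abs_sub y x
      linarith
  exact h1.continuousAt (Metric.ball_mem_nhds x one_pos)

end Typ0

/-- the expansion of the Laplace transform of `f * EE e` -/
theorem lap_EE_hasSum {f : ℝ → ℝ} (hf : Measurable f) {a : ℝ} (h : LapInt f a) {e : ℕ → ℝ}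
    (he : Typ0 e) (m : ℕ) {z : ℂ} (hz : a < z.re) :
    HasSum (fun j => (e j : ℂ) * Lap f (j + m) z) (Lap (fun y => f y * EE e y) m z) := by
  set δ := (z.re - a) / 2 with hδ
  have hδ0 : 0 < δ := by rw [hδ]; linarith
  set W : ℝ := ∫ y, (|f y * Real.exp (-((z.re - δ) * y))| + |f y * Real.exp (-((z.re + δ) * y))|)
    with hW
  have hWi : Integrable (fun y => |f y * Real.exp (-((z.re - δ) * y))| +
      |f y * Real.exp (-((z.re + δ) * y))|) :=
    (h (z.re - δ) (by rw [hδ]; linarith)).abs.add (h (z.re + δ) (by rw [hδ]; linarith)).abs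
  have hint : ∀ n, ∫ y, |f y| * |y| ^ n * Real.exp (-(z.re * y)) ≤ n.factorial / δ ^ n * W := by
    intro n
    rw [hW, ← integral_const_mul]
    apply integral_mono (lap_pow_int hf h n hz) (hWi.const_mul _)
    intro y
    exact lap_pow_bound n hδ0 y
  have hF : ∀ j, Integrable (fun y : ℝ => (e j : ℂ) * ((f y : ℂ) * (-(y : ℂ)) ^ (j + m) *
      Complex.exp (-(z * y)))) := fun j => (lap_integrable hf h (j + m) hz).const_mul _
  have hsum : Summable fun j => ∫ y : ℝ, ‖(e j : ℂ) * ((f y : ℂ) * (-(y : ℂ)) ^ (j + m) *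
      Complex.exp (-(z * y)))‖ := by
    have h1 : Summable fun j => (e j * ((j + m).factorial * (1 / δ) ^ (j + m))) * W :=
      (he.summable_fact m (show 0 < 1 / δ by positivity)).mul_right W
    refine Summable.of_nonneg_of_le (fun j => integral_nonneg fun y => norm_nonneg _) ?_ h1
    intro j
    have h2 : ∀ y : ℝ, ‖(e j : ℂ) * ((f y : ℂ) * (-(y : ℂ)) ^ (j + m) *
      Complex.exp (-(z * y)))‖ = e j * (|f y| * |y| ^ (j + m) * Real.exp (-(z.re * y))) := by
      intro y
      rw [norm_mul, norm_lap_integrand, Complex.norm_real, Real.norm_eq_abs,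
        abs_of_nonneg (he.nonneg j)]
    simp_rw [h2]
    rw [integral_const_mul, mul_assoc]
    apply mul_le_mul_of_nonneg_left _ (he.nonneg j)
    refine (hint (j + m)).trans (le_of_eq ?_)
    rw [one_div, inv_pow]; ring
  have hmain := hasSum_integral_of_summable_integral_norm hF hsum
  have e1 : ∀ j, ∫ y : ℝ, (e j : ℂ) * ((f y : ℂ) * (-(y : ℂ)) ^ (j + m) *
      Complex.exp (-(z * y))) = (e j : ℂ) * Lap f (j + m) z := by
    intro j
    rw [integral_const_mul]; rfl
  simp_rw [e1] at hmain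
  have e2 : ∀ y : ℝ, ∑' j, (e j : ℂ) * ((f y : ℂ) * (-(y : ℂ)) ^ (j + m) *
      Complex.exp (-(z * y))) = ((f y * EE e y : ℝ) : ℂ) * (-(y : ℂ)) ^ m *
        Complex.exp (-(z * y)) := by
    intro y
    have h3 : HasSum (fun j => ((e j * (-y) ^ j : ℝ) : ℂ)) ((EE e y : ℝ) : ℂ) :=
      Complex.hasSum_ofReal.mpr (he.summable_EE y).hasSum
    have h4 := h3.mul_right ((f y : ℂ) * (-(y : ℂ)) ^ m * Complex.exp (-(z * y)))
    have h5 : (fun j => ((e j * (-y) ^ j : ℝ) : ℂ) * ((f y : ℂ) * (-(y : ℂ)) ^ m *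
        Complex.exp (-(z * y)))) = fun j => (e j : ℂ) * ((f y : ℂ) * (-(y : ℂ)) ^ (j + m) *
      Complex.exp (-(z * y))) := by
      funext j
      push_cast
      rw [pow_add]; ring
    rw [h5] at h4
    rw [h4.tsum_eq]
    push_cast
    ring
  simp_rw [e2] at hmain
  exact hmain

end Pool.Agent.H94.Cyc
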