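import Mathlib

set_option autoImplicit false

namespace Pool.Agent.H94.Cyc

open MeasureTheory Filter Topology Set

/-- The function `f` has an absolutely convergent (bilateral) Laplace transform to the right
of `a`. -/
def LapInt (f : ℝ → ℝ) (a : ℝ) : Prop :=
  ∀ u : ℝ, a < u → Integrable (fun y => f y * Real.exp (-(u * y)))

/-- the `n`-th derivative of the Laplace transform -/
noncomputable def Lap (f : ℝ → ℝ) (n : ℕ) (z : ℂ) : ℂ :=
  ∫ y : ℝ, (f y : ℂ) * (-(y : ℂ)) ^ n * Complex.exp (-(z * y))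

theorem pow_abs_le (n : ℕ) {δ : ℝ} (hδ : 0 < δ) (y : ℝ) :
    |y| ^ n ≤ (n.factorial / δ ^ n) * (Real.exp (δ * y) + Real.exp (-(δ * y))) := by
  have h1 := Real.pow_div_factorial_le_exp (δ * |y|) (by positivity) n
  have h2 : Real.exp (δ * |y|) ≤ Real.exp (δ * y) + Real.exp (-(δ * y)) := by
    rcases abs_cases y with ⟨h, _⟩ | ⟨h, _⟩
    · rw [h]; linarith [Real.exp_pos (-(δ * y))]
    · rw [h, mul_neg]; linarith [Real.exp_pos (δ * y)]
  have h3 : (δ * |y|) ^ n / n.factorial = |y| ^ n * (δ ^ n / n.factorial) := by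
    rw [mul_pow]; ring
  rw [h3] at h1
  have h4 : 0 < δ ^ n / (n.factorial : ℝ) := by positivity
  calc |y| ^ n = (|y| ^ n * (δ ^ n / n.factorial)) * (n.factorial / δ ^ n) := by
        field_simp
    _ ≤ (Real.exp (δ * y) + Real.exp (-(δ * y))) * (n.factorial / δ ^ n) :=
        mul_le_mul_of_nonneg_right (h1.trans h2) (by positivity)
    _ = _ := by ring

theorem lap_pow_bound {f : ℝ → ℝ} (n : ℕ) {u δ : ℝ} (hδ : 0 < δ) (y : ℝ) :
    |f y| * |y| ^ n * Real.exp (-(u * y)) ≤ (n.factorial / δ ^ n) *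
      (|f y * Real.exp (-((u - δ) * y))| + |f y * Real.exp (-((u + δ) * y))|) := by
  have h := pow_abs_le n hδ y
  rw [abs_mul, abs_mul, abs_of_pos (Real.exp_pos _), abs_of_pos (Real.exp_pos _)]
  have e1 : Real.exp (-((u - δ) * y)) = Real.exp (-(u * y)) * Real.exp (δ * y) := by
    rw [← Real.exp_add]; ring_nf
  have e2 : Real.exp (-((u + δ) * y)) = Real.exp (-(u * y)) * Real.exp (-(δ * y)) := by
    rw [← Real.exp_add]; ring_nf
  rw [e1, e2]
  calc |f y| * |y| ^ n * Real.exp (-(u * y)) = (|f y| * Real.exp (-(u * y))) * |y| ^ n := by ring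
    _ ≤ (|f y| * Real.exp (-(u * y))) *
        ((n.factorial / δ ^ n) * (Real.exp (δ * y) + Real.exp (-(δ * y)))) :=
        mul_le_mul_of_nonneg_left h (by positivity)
    _ = _ := by ring

theorem lap_pow_int {f : ℝ → ℝ} (hf : Measurable f) {a : ℝ} (h : LapInt f a) (n : ℕ) {u : ℝ}
    (hu : a < u) : Integrable (fun y => |f y| * |y| ^ n * Real.exp (-(u * y))) := by
  set δ := (u - a) / 2 with hδ
  have hδ0 : 0 < δ := by rw [hδ]; linarith
  have h1 := (h (u - δ) (by rw [hδ]; linarith)).abs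
  have h2 := (h (u + δ) (by rw [hδ]; linarith)).abs
  refine Integrable.mono' ((h1.add h2).const_mul (n.factorial / δ ^ n)) ?_ ?_
  · exact (by fun_prop : Measurable (fun y => |f y| * |y| ^ n *
      Real.exp (-(u * y)))).aestronglyMeasurable
  · refine ae_of_all _ fun y => ?_
    rw [Real.norm_eq_abs, abs_of_nonneg (by positivity)]
    exact lap_pow_bound n hδ0 y

theorem norm_lap_integrand (f : ℝ → ℝ) (n : ℕ) (z : ℂ) (y : ℝ) :
    ‖(f y : ℂ) * (-(y : ℂ)) ^ n * Complex.exp (-(z * y))‖ =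
      |f y| * |y| ^ n * Real.exp (-(z.re * y)) := by
  rw [norm_mul, norm_mul, norm_pow, norm_neg, Complex.norm_real, Complex.norm_real,
    Complex.norm_exp]
  simp

theorem lap_integrable {f : ℝ → ℝ} (hf : Measurable f) {a : ℝ} (h : LapInt f a) (n : ℕ) {z : ℂ}
    (hz : a < z.re) : Integrable (fun y : ℝ => (f y : ℂ) * (-(y : ℂ)) ^ n *
      Complex.exp (-(z * y))) := by
  refine Integrable.mono' (lap_pow_int hf h n hz) ?_ ?_
  · exact (by fun_prop : Measurable (fun y : ℝ => (f y : ℂ) * (-(y : ℂ)) ^ n *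
      Complex.exp (-(z * y)))).aestronglyMeasurable
  · exact ae_of_all _ fun y => (norm_lap_integrand f n z y).le

theorem lap_hasDerivAt {f : ℝ → ℝ} (hf : Measurable f) {a : ℝ} (h : LapInt f a) (n : ℕ) {z : ℂ}
    (hz : a < z.re) : HasDerivAt (Lap f n) (Lap f (n + 1) z) z := by
  set δ := (z.re - a) / 2 with hδ
  have hδ0 : 0 < δ := by rw [hδ]; linarith
  refine (hasDerivAt_integral_of_dominated_loc_of_deriv_le
    (bound := fun y => |f y| * |y| ^ (n + 1) * Real.exp (-((z.re - δ) * y)) +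
      |f y| * |y| ^ (n + 1) * Real.exp (-((z.re + δ) * y)))
    (F := fun (z : ℂ) (y : ℝ) => (f y : ℂ) * (-(y : ℂ)) ^ n * Complex.exp (-(z * y)))
    (F' := fun (z : ℂ) (y : ℝ) => (f y : ℂ) * (-(y : ℂ)) ^ (n + 1) * Complex.exp (-(z * y)))
    (Metric.ball_mem_nhds z hδ0) ?_ ?_ ?_ ?_ ?_ ?_).2
  · exact Eventually.of_forall fun w => (by fun_prop : Measurable (fun y : ℝ => (f y : ℂ) *
      (-(y : ℂ)) ^ n * Complex.exp (-(w * y)))).aestronglyMeasurable
  · exact lap_integrable hf h n hz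
  · exact (by fun_prop : Measurable (fun y : ℝ => (f y : ℂ) *
      (-(y : ℂ)) ^ (n + 1) * Complex.exp (-(z * y)))).aestronglyMeasurable
  · refine ae_of_all _ fun y w hw => ?_
    rw [norm_lap_integrand f (n + 1) w y]
    have hw' : |w.re - z.re| < δ := by
      rw [Metric.mem_ball, Complex.dist_eq] at hw
      have := Complex.abs_re_le_norm (w - z)
      rw [Complex.sub_re] at this
      linarith
    rw [abs_lt] at hw'
    have hexp : Real.exp (-(w.re * y)) ≤ Real.exp (-((z.re - δ) * y)) +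
        Real.exp (-((z.re + δ) * y)) := by
      rcases le_total 0 y with hy | hy
      · have : Real.exp (-(w.re * y)) ≤ Real.exp (-((z.re - δ) * y)) := by
          apply Real.exp_le_exp.mpr; nlinarith
        linarith [Real.exp_pos (-((z.re + δ) * y))]
      · have : Real.exp (-(w.re * y)) ≤ Real.exp (-((z.re + δ) * y)) := by
          apply Real.exp_le_exp.mpr; nlinarith
        linarith [Real.exp_pos (-((z.re - δ) * y))]
    rw [← mul_add]
    exact mul_le_mul_of_nonneg_left hexp (by positivity)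
  · exact (lap_pow_int hf h (n + 1) (by rw [hδ]; linarith)).add
      (lap_pow_int hf h (n + 1) (by linarith))
  · refine ae_of_all _ fun y w _ => ?_
    have h1 : HasDerivAt (fun w : ℂ => -(w * (y : ℂ))) (-(y : ℂ)) w := by
      have h0 := ((hasDerivAt_id w).mul_const (y : ℂ)).fun_neg
      simpa using h0
    have h2 := (h1.cexp).const_mul ((f y : ℂ) * (-(y : ℂ)) ^ n)
    exact h2.congr_deriv (by ring)

theorem lap_differentiableOn {f : ℝ → ℝ} (hf : Measurable f) {a : ℝ} (h : LapInt f a) (n : ℕ) :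
    DifferentiableOn ℂ (Lap f n) {z | a < z.re} := fun _ hz =>
  (lap_hasDerivAt hf h n hz).differentiableAt.differentiableWithinAt

theorem isOpen_re_gt (a : ℝ) : IsOpen {z : ℂ | a < z.re} :=
  isOpen_lt continuous_const Complex.continuous_re

theorem lap_iteratedDeriv {f : ℝ → ℝ} (hf : Measurable f) {a : ℝ} (h : LapInt f a) (n : ℕ) {z : ℂ}
    (hz : a < z.re) : iteratedDeriv n (Lap f 0) z = Lap f n z := by
  induction n generalizing z with
  | zero => simp
  | succ n ih =>
    rw [iteratedDeriv_succ]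
    have h1 : iteratedDeriv n (Lap f 0) =ᶠ[𝓝 z] Lap f n := by
      filter_upwards [(isOpen_re_gt a).mem_nhds hz] with w hw
      exact ih hw
    rw [h1.deriv_eq]
    exact (lap_hasDerivAt hf h n hz).deriv

end Pool.Agent.H94.Cyc
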