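import Pool.Agent.H94.Cyc.Landau

set_option autoImplicit false

namespace Pool.Agent.H94.Cyc

open Filter Topology Set Polynomial

/-- partial products `∏_{i<I} (1 + a_i X)` -/
noncomputable def PI (a : ℕ → ℝ) (I : ℕ) : ℝ[X] := ∏ i ∈ Finset.range I, (1 + C (a i) * X)

theorem PI_succ (a : ℕ → ℝ) (I : ℕ) : PI a (I + 1) = PI a I * (1 + C (a I) * X) := by
  unfold PI; rw [Finset.prod_range_succ]

theorem PI_coeff_zero (a : ℕ → ℝ) (I : ℕ) : (PI a I).coeff 0 = 1 := by
  induction I with
  | zero => simp [PI]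
  | succ I ih => rw [PI_succ, mul_coeff_zero, ih]; simp

theorem PI_coeff_succ (a : ℕ → ℝ) (I j : ℕ) : (PI a (I + 1)).coeff (j + 1) =
    (PI a I).coeff (j + 1) + a I * (PI a I).coeff j := by
  rw [PI_succ, mul_add, mul_one, coeff_add, ← mul_assoc, coeff_mul_X, coeff_mul_C]
  ring

variable {a : ℕ → ℝ}

theorem PI_coeff_nonneg (ha : ∀ i, 0 ≤ a i) (I j : ℕ) : 0 ≤ (PI a I).coeff j := by
  induction I generalizing j with
  | zero =>
    simp only [PI, Finset.range_zero, Finset.prod_empty, coeff_one]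
    split_ifs <;> norm_num
  | succ I ih =>
    rcases j with _ | j
    · rw [PI_coeff_zero]; norm_num
    · rw [PI_coeff_succ]
      have h1 := ih (j + 1)
      have h2 := ih j
      have h3 := ha I
      positivity

theorem PI_mono (ha : ∀ i, 0 ≤ a i) (j : ℕ) : Monotone (fun I => (PI a I).coeff j) := by
  apply monotone_nat_of_le_succ
  intro I
  rcases j with _ | j
  · rw [PI_coeff_zero, PI_coeff_zero]
  · rw [PI_coeff_succ]
    have := mul_nonneg (ha I) (PI_coeff_nonneg ha I j)
    linarith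

theorem PI_eval (a : ℕ → ℝ) (I : ℕ) (x : ℝ) :
    (PI a I).eval x = ∏ i ∈ Finset.range I, (1 + a i * x) := by
  unfold PI
  rw [eval_prod]
  simp

theorem PI_coeff_le (ha : ∀ i, 0 ≤ a i) (I j : ℕ) {x : ℝ} (hx : 0 ≤ x) :
    (PI a I).coeff j * x ^ j ≤ ∏ i ∈ Finset.range I, (1 + a i * x) := by
  rw [← PI_eval, eval_eq_sum_range]
  rcases le_or_gt j (PI a I).natDegree with h | h
  · apply Finset.single_le_sum (f := fun j => (PI a I).coeff j * x ^ j)
    · intro i _
      exact mul_nonneg (PI_coeff_nonneg ha I i) (by positivity)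
    · rw [Finset.mem_range]; omega
  · rw [coeff_eq_zero_of_natDegree_lt h, zero_mul]
    apply Finset.sum_nonneg
    intro i _
    exact mul_nonneg (PI_coeff_nonneg ha I i) (by positivity)

theorem one_le_prod_aux (f : ℕ → ℝ) (hf : ∀ i, 1 ≤ f i) (I : ℕ) :
    1 ≤ ∏ i ∈ Finset.range I, f i :=
  Finset.prod_induction _ (fun x => 1 ≤ x) (fun _ _ ha hb => one_le_mul_of_one_le_of_one_le ha hb)
    le_rfl (fun i _ => hf i)

/-- growth of the product -/
theorem prod_growth (ha : ∀ i, 0 ≤ a i) (hs : Summable a) {ε : ℝ} (hε : 0 < ε) :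
    ∃ K : ℝ, 1 ≤ K ∧ ∀ I : ℕ, ∀ x : ℝ, 0 ≤ x →
      ∏ i ∈ Finset.range I, (1 + a i * x) ≤ K * Real.exp (ε * x) := by
  obtain ⟨I₀, hI₀⟩ : ∃ I₀ : ℕ, ∀ I, ∑ i ∈ Finset.range I, a (i + I₀) ≤ ε / 2 := by
    have h1 := tendsto_sum_nat_add a
    have h2 : ∀ᶠ I in atTop, ∑' k, a (k + I) < ε / 2 := h1.eventually_lt_const (by linarith)
    obtain ⟨I₀, h3⟩ := h2.exists
    refine ⟨I₀, fun I => ?_⟩
    refine le_trans ?_ h3.le
    exact ((summable_nat_add_iff I₀).mpr hs).sum_le_tsum _ (fun i _ => ha _)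
  set δ := ε / (2 * (I₀ + 1)) with hδ
  have hδ0 : 0 < δ := by positivity
  have hstep : ∀ b x : ℝ, 0 ≤ b → 0 ≤ x → 1 + b * x ≤ (1 + b / δ) * Real.exp (δ * x) := by
    intro b x hb hx
    have h1 := Real.add_one_le_exp (δ * x)
    have h2 : 1 + b * x ≤ (1 + b / δ) * (δ * x + 1) := by
      have : (1 + b / δ) * (δ * x + 1) = 1 + b * x + δ * x + b / δ := by
        field_simp; ring
      rw [this]
      have : 0 ≤ b / δ := by positivity
      have : 0 ≤ δ * x := by positivity
      linarith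
    exact h2.trans (mul_le_mul_of_nonneg_left h1 (by positivity))
  have hbase : ∀ I : ℕ, I ≤ I₀ → ∀ x : ℝ, 0 ≤ x → ∏ i ∈ Finset.range I, (1 + a i * x) ≤
      (∏ i ∈ Finset.range I, (1 + a i / δ)) * Real.exp (I * δ * x) := by
    intro I _ x hx
    induction I with
    | zero => simp
    | succ I ih =>
      rw [Finset.prod_range_succ, Finset.prod_range_succ]
      have h1 := ih (by omega)
      have h2 := hstep (a I) x (ha I) hx
      have h3 : 0 ≤ 1 + a I * x := by have := mul_nonneg (ha I) hx; linarith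
      calc _ ≤ ((∏ i ∈ Finset.range I, (1 + a i / δ)) * Real.exp (I * δ * x)) *
            ((1 + a I / δ) * Real.exp (δ * x)) := by
            apply mul_le_mul h1 h2 h3
            apply mul_nonneg _ (Real.exp_pos _).le
            apply Finset.prod_nonneg
            intro i _
            have := ha i
            positivity
        _ = _ := by
            have : Real.exp (((I + 1 : ℕ) : ℝ) * δ * x) = Real.exp (I * δ * x) * Real.exp (δ * x) := by
              rw [← Real.exp_add]; push_cast; ring_nf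
            rw [this]; ring
  set K := ∏ i ∈ Finset.range I₀, (1 + a i / δ) with hK
  have hK1 : 1 ≤ K := by
    rw [hK]
    apply one_le_prod_aux
    intro i
    have : 0 ≤ a i / δ := div_nonneg (ha i) hδ0.le
    linarith
  have hmono : ∀ I : ℕ, ∀ x : ℝ, 0 ≤ x → ∏ i ∈ Finset.range I, (1 + a i * x) ≤
      ∏ i ∈ Finset.range (I₀ + I), (1 + a i * x) := by
    intro I x hx
    have hone : ∀ i, 1 ≤ 1 + a i * x := by
      intro i
      have := mul_nonneg (ha i) hx
      linarith
    rw [add_comm I₀ I, Finset.prod_range_add]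
    apply le_mul_of_one_le_right
    · have := one_le_prod_aux (fun i => 1 + a i * x) hone I
      linarith
    · exact one_le_prod_aux (fun i => 1 + a (I + i) * x) (fun i => hone _) I₀
  refine ⟨K, hK1, fun I x hx => ?_⟩
  refine (hmono I x hx).trans ?_
  rw [Finset.prod_range_add]
  have h1 := hbase I₀ le_rfl x hx
  have h2 : ∏ i ∈ Finset.range I, (1 + a (I₀ + i) * x) ≤ Real.exp (ε / 2 * x) := by
    calc ∏ i ∈ Finset.range I, (1 + a (I₀ + i) * x)
        ≤ ∏ i ∈ Finset.range I, Real.exp (a (I₀ + i) * x) := by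
          apply Finset.prod_le_prod
          · intro i _
            have := mul_nonneg (ha (I₀ + i)) hx
            linarith
          · intro i _
            have := Real.add_one_le_exp (a (I₀ + i) * x)
            linarith
      _ = Real.exp (∑ i ∈ Finset.range I, a (I₀ + i) * x) := (Real.exp_sum _ _).symm
      _ ≤ _ := by
          apply Real.exp_le_exp.mpr
          rw [← Finset.sum_mul]
          apply mul_le_mul_of_nonneg_right _ hx
          have := hI₀ I
          simp_rw [add_comm I₀]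
          exact this
  have h3 : Real.exp (I₀ * δ * x) ≤ Real.exp (ε / 2 * x) := by
    apply Real.exp_le_exp.mpr
    apply mul_le_mul_of_nonneg_right _ hx
    rw [hδ]
    have : (I₀ : ℝ) * (ε / (2 * (I₀ + 1))) = ε / 2 * (I₀ / (I₀ + 1)) := by field_simp
    rw [this]
    have h4 : (I₀ : ℝ) / (I₀ + 1) ≤ 1 := by
      rw [div_le_one (by positivity)]; linarith
    nlinarith
  have h5 : 0 ≤ ∏ i ∈ Finset.range I, (1 + a (I₀ + i) * x) := by
    apply Finset.prod_nonneg
    intro i _
    have := mul_nonneg (ha (I₀ + i)) hx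
    linarith
  calc (∏ i ∈ Finset.range I₀, (1 + a i * x)) * ∏ i ∈ Finset.range I, (1 + a (I₀ + i) * x)
      ≤ (K * Real.exp (ε / 2 * x)) * Real.exp (ε / 2 * x) := by
        apply mul_le_mul _ h2 h5 (by positivity)
        exact h1.trans (mul_le_mul_of_nonneg_left h3 (by positivity))
    _ = _ := by
        rw [mul_assoc, ← Real.exp_add]; ring_nf

theorem PI_coeff_bdd (ha : ∀ i, 0 ≤ a i) (hs : Summable a) (j : ℕ) :
    BddAbove (Set.range fun I => (PI a I).coeff j) := by
  obtain ⟨K, _, hK⟩ := prod_growth ha hs one_pos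
  refine ⟨K * Real.exp 1, ?_⟩
  rintro _ ⟨I, rfl⟩
  have h1 := PI_coeff_le ha I j (x := 1) (by norm_num)
  have h2 := hK I 1 (by norm_num)
  simp only [one_pow, mul_one] at h1 h2 ⊢
  exact h1.trans h2

/-- limit coefficients -/
noncomputable def ecoef (a : ℕ → ℝ) (j : ℕ) : ℝ := ⨆ I, (PI a I).coeff j

theorem ecoef_tendsto (ha : ∀ i, 0 ≤ a i) (hs : Summable a) (j : ℕ) :
    Tendsto (fun I => (PI a I).coeff j) atTop (𝓝 (ecoef a j)) :=
  tendsto_atTop_ciSup (PI_mono ha j) (PI_coeff_bdd ha hs j)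

theorem coeff_le_ecoef (ha : ∀ i, 0 ≤ a i) (hs : Summable a) (I j : ℕ) :
    (PI a I).coeff j ≤ ecoef a j := le_ciSup (PI_coeff_bdd ha hs j) I

theorem typ0_ecoef (ha : ∀ i, 0 ≤ a i) (hs : Summable a) : Typ0 (ecoef a) := by
  refine ⟨fun j => ?_, ?_, fun ε hε => ?_⟩
  · exact (PI_coeff_nonneg ha 0 j).trans (coeff_le_ecoef ha hs 0 j)
  · unfold ecoef
    simp_rw [PI_coeff_zero]
    exact ciSup_const
  · set ε' := ε / 3 with hε'
    have hε'0 : 0 < ε' := by positivity
    obtain ⟨K, hK1, hK⟩ := prod_growth ha hs hε'0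
    refine ⟨K, by linarith, fun j => ?_⟩
    have h1 : ∀ x : ℝ, 0 ≤ x → ecoef a j * x ^ j ≤ K * Real.exp (ε' * x) := by
      intro x hx
      have h2 := (ecoef_tendsto ha hs j).mul_const (x ^ j)
      apply le_of_tendsto' h2
      intro I
      exact (PI_coeff_le ha I j hx).trans (hK I x hx)
    rcases Nat.eq_zero_or_pos j with rfl | hj
    · have := h1 0 le_rfl
      simp only [pow_zero, mul_one, mul_zero, Real.exp_zero] at this
      simpa using this
    · have hj' : (0 : ℝ) < j := by exact_mod_cast hj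
      have h2 := h1 (j / ε') (by positivity)
      have h3 : ε' * (j / ε') = j := by field_simp
      rw [h3] at h2
      have h4 : Real.exp (j : ℝ) ≤ 3 ^ j := by
        have : Real.exp (j : ℝ) = Real.exp 1 ^ j := by rw [← Real.exp_nat_mul]; ring_nf
        rw [this]
        apply pow_le_pow_left₀ (Real.exp_pos 1).le
        have := Real.exp_one_lt_d9
        linarith
      have h5 : (j.factorial : ℝ) ≤ (j : ℝ) ^ j := by exact_mod_cast Nat.factorial_le_pow j
      have h6 : 0 ≤ ecoef a j := (PI_coeff_nonneg ha 0 j).trans (coeff_le_ecoef ha hs 0 j)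
      have h7 : ecoef a j * (j : ℝ) ^ j ≤ K * ε ^ j := by
        have : ecoef a j * (j / ε') ^ j = ecoef a j * (j : ℝ) ^ j / ε' ^ j := by
          rw [div_pow]; ring
        rw [this, div_le_iff₀ (by positivity)] at h2
        calc _ ≤ K * Real.exp j * ε' ^ j := h2
          _ ≤ K * 3 ^ j * ε' ^ j := by
              gcongr
          _ = _ := by rw [mul_assoc, ← mul_pow, hε']; congr 2; ring
      calc (j.factorial : ℝ) * ecoef a j ≤ (j : ℝ) ^ j * ecoef a j :=
            mul_le_mul_of_nonneg_right h5 h6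
        _ = ecoef a j * (j : ℝ) ^ j := mul_comm _ _
        _ ≤ _ := h7

theorem prod_tendsto (ha : ∀ i, 0 ≤ a i) (hs : Summable a) (y : ℝ) :
    Tendsto (fun I => ∏ i ∈ Finset.range I, (1 - a i * y)) atTop (𝓝 (EE (ecoef a) y)) := by
  have h1 : ∀ I, ∏ i ∈ Finset.range I, (1 - a i * y) = ∑' j, (PI a I).coeff j * (-y) ^ j := by
    intro I
    have h2 : ∏ i ∈ Finset.range I, (1 - a i * y) = (PI a I).eval (-y) := by
      rw [PI_eval]
      apply Finset.prod_congr rfl
      intro i _
      ring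
    rw [h2, eval_eq_sum_range, tsum_eq_sum]
    intro j hj
    rw [Finset.mem_range] at hj
    rw [coeff_eq_zero_of_natDegree_lt (by omega), zero_mul]
  simp_rw [h1]
  unfold EE
  have hT := typ0_ecoef ha hs
  apply tendsto_tsum_of_dominated_convergence (bound := fun j => ecoef a j * |y| ^ j)
  · exact hT.summable_pow (abs_nonneg y)
  · intro j
    exact (ecoef_tendsto ha hs j).mul_const _
  · refine Eventually.of_forall fun I j => ?_
    rw [norm_mul, norm_pow, norm_neg, Real.norm_eq_abs, Real.norm_eq_abs,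
      abs_of_nonneg (PI_coeff_nonneg ha I j)]
    exact mul_le_mul_of_nonneg_right (coeff_le_ecoef ha hs I j) (by positivity)

end Pool.Agent.H94.Cyc
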