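import Pool.Agent.H94.Cyc.Count
import Pool.Agent.H94.Cyc.LP
import Pool.Agent.H94.Cyc.Prod

set_option autoImplicit false

namespace Pool.Agent.H94.Cyc

open MeasureTheory Filter Topology Set Polynomial

theorem squarefree_dvd_NN {n k : ℕ} (hn : Squarefree n) (hk : n < k) : n ∣ NN q' k := by
  rw [← Nat.prod_primeFactors_of_squarefree hn]
  have h1 : NN q' k = ∏ p ∈ (Finset.range k).image q', p := by
    rw [Finset.prod_image fun a _ b _ h => q'_inj h]
    rfl
  rw [h1]
  apply Finset.prod_dvd_prod_of_subset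
  intro p hp
  rw [Finset.mem_image]
  have hpp : p.Prime := Nat.prime_of_mem_primeFactors hp
  have hn0 : n ≠ 0 := hn.ne_zero
  have hle : p ≤ n := Nat.le_of_dvd (Nat.pos_of_ne_zero hn0) (Nat.dvd_of_mem_primeFactors hp)
  refine ⟨Nat.count Nat.Prime p, ?_, Nat.nth_count hpp⟩
  rw [Finset.mem_range]
  have h2 : Nat.count Nat.Prime p ≤ p := Nat.count_le _
  omega

theorem alf_eventually (d : ℕ) : ∀ᶠ k in atTop, alf (2 * NN q k) d = muc d := by
  filter_upwards [eventually_ge_atTop (d + 1)] with k hk
  rw [two_mul_NN]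
  unfold alf muc
  by_cases hs : Squarefree (d + 1)
  · rw [if_pos (squarefree_dvd_NN hs (by omega))]
  · rw [ArithmeticFunction.moebius_eq_zero_of_not_squarefree hs]
    simp

theorem psi_tendsto (y : ℝ) :
    Tendsto (fun k => psi (alf (2 * NN q k)) y) atTop (𝓝 (psi muc y)) := by
  unfold psi
  apply Tendsto.mul_const
  unfold SS
  have ht := Real.exp_pos (2 - y)
  apply tendsto_tsum_of_dominated_convergence (summable_hh ht)
  · intro d
    apply Tendsto.mul_const
    apply tendsto_const_nhds.congr'
    filter_upwards [alf_eventually d] with k hk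
    exact hk.symm
  · refine Eventually.of_forall fun k d => ?_
    have h1 := hh_pos (x := ((d : ℝ) + 1) * Real.exp (2 - y)) (by positivity)
    have h2 : 0 < ((d : ℝ) + 1) * hh (((d : ℝ) + 1) * Real.exp (2 - y)) := by positivity
    rw [Real.norm_eq_abs, abs_mul, abs_of_pos h2]
    exact mul_le_of_le_one_left h2.le (alf_abs _ _)

/-- the number of real zeros of the derivative exceeds `2k - 1 + B` for all large `k` -/
theorem main (B : ℕ) : ∀ᶠ k in atTop, 2 * k - 1 + B ≤ Multiset.card (pol k).roots := by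
  by_contra hcon
  rw [not_eventually] at hcon
  set S : Set ℕ := {k | ¬ (2 * k - 1 + B ≤ Multiset.card (pol k).roots)} with hS
  have : (atTop ⊓ 𝓟 S).NeBot := frequently_iff_neBot.mp hcon
  set U : Ultrafilter ℕ := Ultrafilter.of (atTop ⊓ 𝓟 S) with hU
  have hUle : (U : Filter ℕ) ≤ atTop ⊓ 𝓟 S := Ultrafilter.of_le _
  have hUtop : (U : Filter ℕ) ≤ atTop := hUle.trans inf_le_left
  have hUS : ∀ᶠ k in (U : Filter ℕ), k ∈ S := by
    have : (U : Filter ℕ) ≤ 𝓟 S := hUle.trans inf_le_right
    exact le_principal_iff.mp this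
  have hUge : ∀ n : ℕ, ∀ᶠ k in (U : Filter ℕ), n ≤ k := fun n =>
    hUtop (eventually_ge_atTop n)
  set V : ℕ → ℕ := fun k => Multiset.card ((pol k).roots.filter (· ∈ Ioo (-1 : ℝ) 0)) with hV
  have hVge : ∀ᶠ k in (U : Filter ℕ), k ≤ V k := by
    filter_upwards [hUge 1] with k hk
    exact neg_count hk
  have hVlt : ∀ᶠ k in (U : Filter ℕ), V k < k + B := by
    filter_upwards [hUge 1, hUS] with k hk hkS
    have h1 := pos_count (k := k) hk
    have h2 := card_add_le k
    rw [hS, Set.mem_ofPred_eq, not_le] at hkS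
    show Multiset.card ((pol k).roots.filter (· ∈ Ioo (-1 : ℝ) 0)) < k + B
    omega
  -- the data
  have hdata : ∀ k : ℕ, ∃ a : ℕ → ℝ, (∀ i, 0 ≤ a i) ∧ (∀ i, a i ≤ 1) ∧ Antitone a ∧
      (0 < k → (∀ i, V k ≤ i → a i = 0) ∧ ∀ y, 0 ≤ psi (alf (2 * NN q k)) y *
        ∏ i ∈ Finset.range (V k), (1 - a i * y)) := by
    intro k
    rcases Nat.eq_zero_or_pos k with rfl | hk
    · exact ⟨fun _ => 0, by simp, by simp, antitone_const, fun h => absurd h (lt_irrefl 0)⟩
    · obtain ⟨a, h1, h2, h3, h4, h5⟩ := neg_data hk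
      exact ⟨a, h1, h2, h3, fun _ => ⟨h4, h5⟩⟩
  choose A hA0 hA1 hAanti hArest using hdata
  -- limits
  have hlim : ∀ i : ℕ, ∃ x : ℝ, x ∈ Icc (0 : ℝ) 1 ∧
      Tendsto (fun k => A k i) (U : Filter ℕ) (𝓝 x) := by
    intro i
    obtain ⟨x, hx, hx2⟩ := (isCompact_Icc (a := (0 : ℝ)) (b := 1)).ultrafilter_le_nhds
      (U.map fun k => A k i) (by
        rw [le_principal_iff]
        exact Filter.univ_mem' (f := (U : Filter ℕ)) fun k => ⟨hA0 k i, hA1 k i⟩)
    exact ⟨x, hx, hx2⟩
  choose a haI hat using hlim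
  have ha0 : ∀ i, 0 ≤ a i := fun i => (haI i).1
  have hanti : Antitone a := by
    intro i j hij
    exact le_of_tendsto_of_tendsto' (hat j) (hat i) fun k => hAanti k hij
  set J := 2 * (B + 1) with hJ
  have hJeven : Even J := ⟨B + 1, by omega⟩
  -- summability
  have hsum : Summable a := by
    rcases (ha0 (J - 1)).eq_or_lt with h0 | hpos
    · apply summable_of_ne_finset_zero (s := Finset.range J)
      intro i hi
      rw [Finset.mem_range, not_lt] at hi
      have := hanti (show J - 1 ≤ i by omega)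
      have := ha0 i
      linarith
    · set β := a (J - 1) / 2 with hβ
      have hβ0 : 0 < β := by positivity
      have hβA : ∀ᶠ k in (U : Filter ℕ), β ≤ A k (J - 1) := by
        have : ∀ᶠ x in 𝓝 (a (J - 1)), β < x := lt_mem_nhds (by rw [hβ]; linarith)
        filter_upwards [(hat (J - 1)).eventually this] with k hk
        exact hk.le
      set C0 := ∫ y in Ioc (0 : ℝ) (1 / β), psi (fun _ => 1) y with hC0
      have hbound : ∀ I, ∑ i ∈ Finset.range I, a i ≤ J + C0 / A0 := by
        intro I
        have h1 : ∀ᶠ k in (U : Filter ℕ), ∑ i ∈ Finset.range I, A k i ≤ J + C0 / A0 := by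
          filter_upwards [hUge 1, hUge J, hVge, hVlt, hβA] with k hk1 hkJ hVk hVk2 hβk
          obtain ⟨h2, h3⟩ := hArest k hk1
          have hest := estimate (f := psi (alf (2 * NN q k))) (k := k) (J := J) (V := V k)
            (a := A k) (β := β) (measurable_psi (alf_abs _))
            (by rw [two_mul_NN]; exact lapInt_NN q'_prime q'_inj k)
            (abs_psi_le (alf_abs _)) (low_le (alf_abs _) alf_two_zero)
            (by rw [two_mul_NN]; exact orth q'_prime q'_inj k) (hA0 k) (hAanti k) hJeven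
            (hkJ.trans hVk) (by omega) h3 hβ0 hβk
          have h4 : ∑ i ∈ Finset.Ico J (V k), A k i ≤ C0 / A0 := by
            rw [le_div_iff₀ A0_pos]; exact hest
          have h5 : ∑ i ∈ Finset.range I, A k i ≤ ∑ i ∈ Finset.range (V k), A k i := by
            rcases le_total I (V k) with h | h
            · exact Finset.sum_le_sum_of_subset_of_nonneg (Finset.range_mono h)
                fun i _ _ => hA0 k i
            · have h6 : ∑ i ∈ Finset.range I, A k i = ∑ i ∈ Finset.range (V k), A k i := by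
                symm
                apply Finset.sum_subset (Finset.range_mono h)
                intro i _ hi
                rw [Finset.mem_range, not_lt] at hi
                exact h2 i hi
              exact h6.le
          have h7 : ∑ i ∈ Finset.range (V k), A k i =
              ∑ i ∈ Finset.range J, A k i + ∑ i ∈ Finset.Ico J (V k), A k i :=
            (Finset.sum_range_add_sum_Ico _ (hkJ.trans hVk)).symm
          have h8 : ∑ i ∈ Finset.range J, A k i ≤ J := by
            calc ∑ i ∈ Finset.range J, A k i ≤ ∑ i ∈ Finset.range J, (1 : ℝ) :=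
                  Finset.sum_le_sum fun i _ => hA1 k i
              _ = J := by simp
          linarith
        exact le_of_tendsto (tendsto_finsetSum _ fun i _ => hat i) h1
      exact summable_of_sum_range_le ha0 hbound
  -- the sign
  refine LP (typ0_ecoef ha0 hsum) fun y => ?_
  have hpt := prod_tendsto ha0 hsum y
  have hlimprod := hpt.const_mul (psi muc y)
  refine ge_of_tendsto hlimprod ?_
  have hsmall : ∀ᶠ I in atTop, a I * |y| < 1 := by
    have h1 : Tendsto (fun I => a I * |y|) atTop (𝓝 (0 * |y|)) :=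
      (hsum.tendsto_atTop_zero).mul_const _
    rw [zero_mul] at h1
    exact h1.eventually (gt_mem_nhds one_pos)
  filter_upwards [hsmall] with I hI
  have hconv : Tendsto (fun k => psi (alf (2 * NN q k)) y *
      ∏ i ∈ Finset.range I, (1 - A k i * y)) (U : Filter ℕ)
      (𝓝 (psi muc y * ∏ i ∈ Finset.range I, (1 - a i * y))) := by
    apply Tendsto.mul ((psi_tendsto y).mono_left hUtop)
    apply tendsto_finsetProd
    intro i _
    exact ((hat i).mul_const y).const_sub 1
  refine ge_of_tendsto hconv ?_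
  have hAI : ∀ᶠ k in (U : Filter ℕ), A k I * |y| < 1 :=
    ((hat I).mul_const |y|).eventually (gt_mem_nhds hI)
  filter_upwards [hUge 1, hUge I, hVge, hAI] with k hk1 hkI hVk hAk
  obtain ⟨-, h3⟩ := hArest k hk1
  have h4 := h3 y
  rw [← Finset.prod_range_mul_prod_Ico _ (hkI.trans hVk), ← mul_assoc] at h4
  refine nonneg_of_mul_nonneg_left h4 ?_
  apply Finset.prod_pos
  intro i hi
  rw [Finset.mem_Ico] at hi
  have h5 : A k i ≤ A k I := hAanti k hi.1
  have h6 : A k i * y ≤ A k i * |y| := mul_le_mul_of_nonneg_left (le_abs_self y) (hA0 k i)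
  have h7 : A k i * |y| ≤ A k I * |y| := mul_le_mul_of_nonneg_right h5 (abs_nonneg y)
  linarith

end Pool.Agent.H94.Cyc
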