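import Pool.Agent.H94.Cyc.Orth

set_option autoImplicit false

namespace Pool.Agent.H94.Cyc

open MeasureTheory Filter Topology Set

/-- lower bound function -/
noncomputable def low (y : ℝ) : ℝ :=
  2 * psi (fun d => if d = 0 then 1 else 0) y - psi (fun _ => 1) y

theorem SS_delta (t : ℝ) : SS (fun d => if d = 0 then 1 else 0) t = hh t := by
  unfold SS
  rw [tsum_eq_single 0]
  · simp
  · intro d hd
    simp [hd]

theorem hh_ratio {t : ℝ} (ht : 0 < t) (d : ℕ) :
    hh (((d : ℝ) + 1) * t) ≤ Real.exp (-t) ^ d * hh t := by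
  unfold hh
  have h1 : 1 < Real.exp t := Real.one_lt_exp_iff.mpr ht
  have h2 : 1 < Real.exp (((d : ℝ) + 1) * t) := Real.one_lt_exp_iff.mpr (by positivity)
  have h3 : Real.exp (((d : ℝ) + 1) * t) = Real.exp t ^ d * Real.exp t := by
    rw [← Real.exp_nat_mul, ← Real.exp_add]; ring_nf
  have h4 : Real.exp (-t) ^ d * Real.exp t ^ d = 1 := by
    rw [← mul_pow, ← Real.exp_add]; simp
  have h5 : Real.exp (-t) ^ d ≤ 1 := by
    apply pow_le_one₀ (Real.exp_pos _).le
    rw [Real.exp_le_one_iff]; linarith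
  have hpos1 : 0 < Real.exp t - 1 := by linarith
  have hpos2 : 0 < Real.exp (((d : ℝ) + 1) * t) - 1 := by linarith
  rw [mul_one_div, div_le_div_iff₀ hpos2 hpos1, one_mul, h3]
  have h6 : Real.exp (-t) ^ d * (Real.exp t ^ d * Real.exp t - 1) =
      Real.exp t - Real.exp (-t) ^ d := by
    rw [mul_sub, ← mul_assoc, h4, one_mul, mul_one]
  rw [h6]
  linarith

theorem SS_one_le {t : ℝ} (ht : 2 ≤ t) : SS (fun _ => 1) t ≤ 3 / 2 * hh t := by
  have ht0 : 0 < t := by linarith
  set x := Real.exp (-t) with hx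
  have hx0 : 0 < x := Real.exp_pos _
  have hx1 : x ≤ 1 / 7 := by
    have h1 : x ≤ Real.exp (-2) := Real.exp_le_exp.mpr (by linarith)
    have h2 : Real.exp (-2) * Real.exp 2 = 1 := by rw [← Real.exp_add]; simp
    have h3 : (7 : ℝ) ≤ Real.exp 2 := by
      have h4 : Real.exp 2 = Real.exp 1 ^ 2 := by rw [← Real.exp_nat_mul]; norm_num
      have := Real.exp_one_gt_d9
      rw [h4]; nlinarith
    have h5 := Real.exp_pos (-2)
    nlinarith
  have h1 : HasSum (fun d : ℕ => ((d : ℝ) + 1) * x ^ d * hh t) (1 / (1 - x) ^ 2 * hh t) := by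
    apply HasSum.mul_right
    have h2 := hasSum_coe_mul_geometric_of_norm_lt_one (𝕜 := ℝ) (r := x)
      (by rw [Real.norm_eq_abs, abs_of_pos hx0]; linarith)
    have h3 := hasSum_geometric_of_lt_one hx0.le (by linarith : x < 1)
    have h4 := h2.add h3
    have h5 : x / (1 - x) ^ 2 + (1 - x)⁻¹ = 1 / (1 - x) ^ 2 := by
      have : 1 - x ≠ 0 := by linarith
      field_simp; ring
    rw [h5] at h4
    refine h4.congr_fun fun d => ?_
    ring
  have h6 : SS (fun _ => 1) t ≤ 1 / (1 - x) ^ 2 * hh t := by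
    unfold SS
    rw [← h1.tsum_eq]
    apply Summable.tsum_le_tsum _ (SS_summable (α := fun _ => 1) (by simp) ht0) h1.summable
    intro d
    rw [one_mul, mul_assoc]
    exact mul_le_mul_of_nonneg_left (hh_ratio ht0 d) (by positivity)
  refine h6.trans ?_
  apply mul_le_mul_of_nonneg_right _ (hh_pos ht0).le
  rw [div_le_iff₀ (by have : 0 < 1 - x := by linarith
                      positivity)]
  nlinarith

theorem exp_two_sub_ge {y : ℝ} (hy : y ≤ 1) : 2 ≤ Real.exp (2 - y) := by
  have h1 : Real.exp 1 ≤ Real.exp (2 - y) := Real.exp_le_exp.mpr (by linarith)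
  have := Real.exp_one_gt_d9
  linarith

theorem low_pos {y : ℝ} (hy : y ≤ 1) : 0 < low y := by
  unfold low psi
  rw [SS_delta]
  have h1 := exp_two_sub_ge hy
  have h2 := SS_one_le h1
  have h3 := hh_pos (show 0 < Real.exp (2 - y) from Real.exp_pos _)
  have h4 := Real.exp_pos (2 - y)
  nlinarith

theorem low_le {α : ℕ → ℝ} (hα : ∀ d, |α d| ≤ 1) (h0 : α 0 = 1) (y : ℝ) : low y ≤ psi α y := by
  have ht := Real.exp_pos (2 - y)
  unfold low psi
  have h1 : 2 * SS (fun d => if d = 0 then 1 else 0) (Real.exp (2 - y)) -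
      SS (fun _ => 1) (Real.exp (2 - y)) ≤ SS α (Real.exp (2 - y)) := by
    have s1 := SS_summable (α := fun d => if d = 0 then (1 : ℝ) else 0)
      (by intro d; split_ifs <;> simp) ht
    have s2 := SS_summable (α := fun _ => (1 : ℝ)) (by simp) ht
    have s3 := SS_summable hα ht
    unfold SS
    rw [← tsum_mul_left, ← (s1.mul_left 2).tsum_sub s2]
    apply Summable.tsum_le_tsum _ ((s1.mul_left 2).sub s2) s3
    intro d
    have hpos : 0 < ((d : ℝ) + 1) * hh (((d : ℝ) + 1) * Real.exp (2 - y)) := by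
      have := hh_pos (show 0 < ((d : ℝ) + 1) * Real.exp (2 - y) by positivity)
      positivity
    rcases Nat.eq_zero_or_pos d with rfl | hd
    · rw [h0, if_pos rfl]; linarith
    · rw [if_neg hd.ne']
      have := (abs_le.mp (hα d)).1
      nlinarith
  have := mul_le_mul_of_nonneg_right h1 ht.le
  linarith

theorem measurable_low : Measurable low := by
  have h1 := measurable_psi (α := fun d => if d = 0 then (1 : ℝ) else 0)
    (by intro d; split_ifs <;> simp)
  have h2 := measurable_psi (α := fun _ => (1 : ℝ)) (by simp)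
  unfold low
  fun_prop

theorem low_abs_le (y : ℝ) : |low y| ≤ 3 * psi (fun _ => 1) y := by
  unfold low
  have h1 := abs_psi_le (α := fun d => if d = 0 then (1 : ℝ) else 0)
    (by intro d; split_ifs <;> simp) y
  have h2 : 0 ≤ psi (fun _ => 1) y := (abs_nonneg _).trans h1
  rw [abs_le] at h1 ⊢
  constructor <;> linarith [h1.1, h1.2]

theorem low_integrable : IntegrableOn (fun y => |y| * low y) (Iic 0) := by
  have h1 := (lap_pow_int (measurable_psi (α := fun _ => (1 : ℝ)) (by simp)) lapInt_psi_one 1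
    (u := 2) (by norm_num)).const_mul 3
  have hm := measurable_low
  refine Integrable.mono' h1.integrableOn ?_ ?_
  · exact (by fun_prop : Measurable (fun y => |y| * low y)).aestronglyMeasurable
  · refine (ae_restrict_iff' measurableSet_Iic).mpr (ae_of_all _ fun y hy => ?_)
    rw [mem_Iic] at hy
    rw [Real.norm_eq_abs, abs_mul, abs_abs, pow_one]
    have h2 := low_abs_le y
    have h3 : 1 ≤ Real.exp (-(2 * y)) := by
      rw [← Real.exp_zero]; exact Real.exp_le_exp.mpr (by linarith)
    have h4 : psi (fun _ => 1) y ≤ |psi (fun _ => 1) y| := le_abs_self _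
    have h5 : 0 ≤ |y| := abs_nonneg y
    have h6 : 0 ≤ |psi (fun _ => 1) y| := abs_nonneg _
    calc |y| * |low y| ≤ |y| * (3 * |psi (fun _ => 1) y|) := by
          apply mul_le_mul_of_nonneg_left _ h5; linarith
      _ = 3 * (|psi (fun _ => 1) y| * |y|) := by ring
      _ ≤ 3 * (|psi (fun _ => 1) y| * |y| * Real.exp (-(2 * y))) := by
          apply mul_le_mul_of_nonneg_left _ (by norm_num)
          exact le_mul_of_one_le_right (by positivity) h3

/-- the constant `A₀` -/
noncomputable def A0 : ℝ := ∫ y in Iic (0 : ℝ), |y| * low y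

theorem A0_pos : 0 < A0 := by
  unfold A0
  have h1 : ∀ᵐ y ∂(volume.restrict (Iic (0 : ℝ))), 0 ≤ |y| * low y := by
    refine (ae_restrict_iff' measurableSet_Iic).mpr (ae_of_all _ fun y hy => ?_)
    rw [mem_Iic] at hy
    exact mul_nonneg (abs_nonneg y) (low_pos (by linarith)).le
  rw [integral_pos_iff_support_of_nonneg_ae h1 low_integrable]
  have h2 : Iio (0 : ℝ) ⊆ Function.support (fun y => |y| * low y) := by
    intro y hy
    rw [mem_Iio] at hy
    rw [Function.mem_support]
    exact (mul_pos (abs_pos.mpr hy.ne) (low_pos (by linarith))).ne'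
  refine lt_of_lt_of_le ?_ (measure_mono h2)
  rw [Measure.restrict_apply measurableSet_Iio]
  have : Iio (0 : ℝ) ∩ Iic 0 = Iio 0 := inter_eq_left.mpr Iio_subset_Iic_self
  rw [this, Real.volume_Iio]
  exact ENNReal.zero_lt_top

end Pool.Agent.H94.Cyc
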