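import Pool.Agent.H94.Cyc.Sinf

set_option autoImplicit false

namespace Pool.Agent.H94.Cyc

open MeasureTheory Filter Topology Set

/-- general Mellin formula -/
theorem SS_mellin_hasSum {α : ℕ → ℝ} (hα : ∀ d, |α d| ≤ 1) {s : ℂ} (hs : 2 < s.re) :
    HasSum (fun x : ℕ × ℕ => Complex.Gamma s * ((α x.1 * ((x.1 : ℝ) + 1) : ℝ) : ℂ) /
      (((((x.1 : ℝ) + 1) * ((x.2 : ℝ) + 1) : ℝ)) : ℂ) ^ s)
      (mellin (fun t => ((SS α t : ℝ) : ℂ)) s) := by
  apply hasSum_mellin
  · intro x
    right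
    positivity
  · linarith
  · intro t ht
    rw [mem_Ioi] at ht
    have h := Complex.hasSum_ofReal.mpr (pair_hasSum hα ht)
    refine h.congr_fun fun x => ?_
    push_cast
    ring_nf
  · apply Summable.of_nonneg_of_le _ _ (pair_rpow_summable hs)
    · intro x; positivity
    · intro x
      apply div_le_div_of_nonneg_right _ (by positivity)
      rw [Complex.norm_real, Real.norm_eq_abs, abs_mul,
        abs_of_pos (show 0 < (x.1 : ℝ) + 1 by positivity)]
      have : 0 < (x.1 : ℝ) + 1 := by positivity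
      nlinarith [hα x.1]

theorem SS_one_integrableOn {σ : ℝ} (hσ : 2 < σ) :
    IntegrableOn (fun t : ℝ => t ^ (σ - 1) * SS (fun _ => 1) t) (Ioi 0) := by
  have h := SS_mellin_hasSum (α := fun _ => 1) (by simp) (s := (σ : ℂ)) (by simpa using hσ)
  have h1 : ∀ x : ℕ × ℕ, Complex.Gamma (σ : ℂ) * ((1 * ((x.1 : ℝ) + 1) : ℝ) : ℂ) /
      (((((x.1 : ℝ) + 1) * ((x.2 : ℝ) + 1) : ℝ)) : ℂ) ^ (σ : ℂ) =
      ((Real.Gamma σ * (1 * ((x.1 : ℝ) + 1)) /
        (((x.1 : ℝ) + 1) * ((x.2 : ℝ) + 1)) ^ σ : ℝ) : ℂ) := by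
    intro x
    rw [Complex.Gamma_ofReal, ← Complex.ofReal_cpow (by positivity)]
    push_cast
    ring
  simp_rw [h1] at h
  have h2 := Complex.hasSum_re h
  simp only [Complex.ofReal_re] at h2
  have hG : 0 < Real.Gamma σ := Real.Gamma_pos_of_pos (by linarith)
  have h3 : 0 < (mellin (fun t => ((SS (fun _ => 1) t : ℝ) : ℂ)) σ).re := by
    rw [← h2.tsum_eq]
    refine h2.summable.tsum_pos (fun x => ?_) (0, 0) ?_
    · positivity
    · positivity
  by_contra hcon
  have h4 : mellin (fun t => ((SS (fun _ => 1) t : ℝ) : ℂ)) σ = 0 := by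
    unfold mellin
    apply integral_undef
    intro hint
    apply hcon
    have h5 := hint.re
    refine h5.congr ?_
    refine (ae_restrict_iff' measurableSet_Ioi).mpr (ae_of_all _ fun t ht => ?_)
    rw [mem_Ioi] at ht
    simp only [smul_eq_mul]
    have h6 : ((t : ℂ) ^ ((σ : ℂ) - 1)) = ((t ^ (σ - 1) : ℝ) : ℂ) := by
      rw [Complex.ofReal_cpow ht.le]; push_cast; rfl
    rw [h6, ← Complex.ofReal_mul]
    exact Complex.ofReal_re _
  rw [h4] at h3
  simp at h3

/-- the logarithmic change of variables -/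
noncomputable def psi (α : ℕ → ℝ) (y : ℝ) : ℝ := SS α (Real.exp (2 - y)) * Real.exp (2 - y)

theorem measurable_SS_exp {α : ℕ → ℝ} (hα : ∀ d, |α d| ≤ 1) :
    Measurable (fun y : ℝ => SS α (Real.exp (2 - y))) := by
  apply measurable_of_tendsto_metrizable (f := fun (n : ℕ) (y : ℝ) =>
    ∑ d ∈ Finset.range n, α d * (((d : ℝ) + 1) * hh (((d : ℝ) + 1) * Real.exp (2 - y))))
  · intro n
    apply Finset.measurable_fun_sum
    intro d _
    unfold hh
    fun_prop
  · rw [tendsto_pi_nhds]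
    intro y
    exact (SS_summable hα (Real.exp_pos (2 - y))).hasSum.tendsto_sum_nat

theorem measurable_psi {α : ℕ → ℝ} (hα : ∀ d, |α d| ≤ 1) : Measurable (psi α) := by
  have := measurable_SS_exp hα
  unfold psi
  fun_prop

theorem image_exp : (fun y : ℝ => Real.exp (2 - y)) '' univ = Ioi 0 := by
  ext t
  rw [mem_image, mem_Ioi]
  constructor
  · rintro ⟨y, _, rfl⟩; exact Real.exp_pos _
  · intro ht
    exact ⟨2 - Real.log t, mem_univ _, by
      change Real.exp (2 - (2 - Real.log t)) = t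
      rw [sub_sub_cancel, Real.exp_log ht]⟩

theorem injOn_exp : InjOn (fun y : ℝ => Real.exp (2 - y)) univ := by
  intro a _ b _ h
  have := Real.exp_injective h
  linarith

theorem hasDeriv_exp (y : ℝ) : HasDerivWithinAt (fun y : ℝ => Real.exp (2 - y))
    (-Real.exp (2 - y)) univ y := by
  have h1 : HasDerivAt (fun y : ℝ => 2 - y) (-1) y := by
    simpa using (hasDerivAt_id y).const_sub 2
  have h2 := h1.exp
  rw [mul_neg_one] at h2
  exact h2.hasDerivWithinAt

theorem lapInt_psi_one : LapInt (psi (fun _ => 1)) 1 := by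
  intro u hu
  have h1 := SS_one_integrableOn (σ := 1 + u) (by linarith)
  rw [← image_exp, integrableOn_image_iff_integrableOn_abs_deriv_smul MeasurableSet.univ
    (fun y _ => hasDeriv_exp y) injOn_exp, integrableOn_univ] at h1
  refine (h1.const_mul (Real.exp (-(2 * u)))).congr (ae_of_all _ fun y => ?_)
  simp only [smul_eq_mul]
  unfold psi
  rw [abs_neg, abs_of_pos (Real.exp_pos _), add_sub_cancel_left, ← Real.exp_mul]
  have : Real.exp (-(u * y)) = Real.exp (-(2 * u)) * Real.exp ((2 - y) * u) := by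
    rw [← Real.exp_add]; ring_nf
  rw [this]; ring

theorem abs_psi_le {α : ℕ → ℝ} (hα : ∀ d, |α d| ≤ 1) (y : ℝ) :
    |psi α y| ≤ psi (fun _ => 1) y := by
  unfold psi
  rw [abs_mul, abs_of_pos (Real.exp_pos _)]
  exact mul_le_mul_of_nonneg_right (abs_SS_le hα (Real.exp_pos _)) (Real.exp_pos _).le

theorem lapInt_psi {α : ℕ → ℝ} (hα : ∀ d, |α d| ≤ 1) : LapInt (psi α) 1 := by
  intro u hu
  refine Integrable.mono' (lapInt_psi_one u hu) ?_ ?_
  · have := measurable_psi hα
    exact (by fun_prop : Measurable (fun y => psi α y * Real.exp (-(u * y)))).aestronglyMeasurable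
  · refine ae_of_all _ fun y => ?_
    rw [Real.norm_eq_abs, abs_mul, abs_of_pos (Real.exp_pos _)]
    exact mul_le_mul_of_nonneg_right (abs_psi_le hα y) (Real.exp_pos _).le

theorem lap_psi (α : ℕ → ℝ) (u : ℂ) :
    Lap (psi α) 0 u = Complex.exp (-(2 * u)) * mellin (fun t => ((SS α t : ℝ) : ℂ)) (1 + u) := by
  unfold mellin
  rw [← image_exp, integral_image_eq_integral_abs_deriv_smul MeasurableSet.univ
    (fun y _ => hasDeriv_exp y) injOn_exp, setIntegral_univ, ← integral_const_mul]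
  unfold Lap
  congr 1
  funext y
  unfold psi
  rw [abs_neg, abs_of_pos (Real.exp_pos _), add_sub_cancel_left, pow_zero, mul_one,
    Complex.ofReal_exp, Complex.real_smul, smul_eq_mul]
  have h1 : Complex.exp ((2 - y : ℝ) : ℂ) ^ u = Complex.exp (((2 - y : ℝ) : ℂ) * u) := by
    rw [Complex.cpow_def_of_ne_zero (Complex.exp_ne_zero _), ← Complex.ofReal_exp,
      ← Complex.ofReal_log (Real.exp_pos _).le, Real.log_exp]
  rw [h1]
  have h2 : Complex.exp (-(u * y)) = Complex.exp (-(2 * u)) * Complex.exp (((2 - y : ℝ) : ℂ) * u) := by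
    rw [← Complex.exp_add]; push_cast; ring_nf
  rw [h2]
  push_cast
  ring

end Pool.Agent.H94.Cyc
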