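import Pool.Agent.H94.Cyc.Landau

set_option autoImplicit false

namespace Pool.Agent.H94.Cyc

open MeasureTheory Filter Topology Set Metric

/-- uniform Cauchy estimates on a compact set -/
theorem cauchy_compact {U : Set ℂ} (hU : IsOpen U) {G : ℂ → ℂ} (hG : DifferentiableOn ℂ G U)
    {K : Set ℂ} (hK : IsCompact K) (hKU : K ⊆ U) :
    ∃ B s : ℝ, 0 < s ∧ 0 ≤ B ∧ ∀ w ∈ K, ∀ j : ℕ, ‖iteratedDeriv j G w‖ ≤
      j.factorial * B * (1 / s) ^ j := by
  obtain ⟨δ, hδ, hsub⟩ := hK.exists_cthickening_subset_open hU hKU
  have hc : IsCompact (cthickening δ K) := hK.cthickening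
  obtain ⟨B, hB⟩ := hc.exists_bound_of_continuousOn (hG.continuousOn.mono hsub)
  refine ⟨|B|, δ, hδ, abs_nonneg B, fun w hw j => ?_⟩
  have h1 : closedBall w δ ⊆ cthickening δ K := closedBall_subset_cthickening hw δ
  have h2 : DiffContOnCl ℂ G (ball w δ) := hG.diffContOnCl_ball (h1.trans hsub)
  have h3 := Complex.norm_iteratedDeriv_le_of_forall_mem_sphere_norm_le j hδ h2
    (C := |B|) (fun z hz => (hB z (h1 (sphere_subset_closedBall hz))).trans (le_abs_self B))
  refine h3.trans (le_of_eq ?_)
  rw [one_div, inv_pow]; ring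

theorem iteratedDeriv_differentiableOn {U : Set ℂ} (hU : IsOpen U) {G : ℂ → ℂ}
    (hG : DifferentiableOn ℂ G U) (n : ℕ) : DifferentiableOn ℂ (iteratedDeriv n G) U := by
  intro w hw
  have h1 : AnalyticAt ℂ G w := hG.analyticAt (hU.mem_nhds hw)
  have h2 := h1.iterated_deriv n
  rw [← iteratedDeriv_eq_iterate] at h2
  exact h2.differentiableAt.differentiableWithinAt

theorem iteratedDeriv_hasDerivAt {U : Set ℂ} (hU : IsOpen U) {G : ℂ → ℂ}
    (hG : DifferentiableOn ℂ G U) (n : ℕ) {w : ℂ} (hw : w ∈ U) :
    HasDerivAt (iteratedDeriv n G) (iteratedDeriv (n + 1) G w) w := by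
  rw [iteratedDeriv_succ]
  exact ((iteratedDeriv_differentiableOn hU hG n).differentiableAt (hU.mem_nhds hw)).hasDerivAt

/-- the operator `∑ e_j D^j` -/
noncomputable def Op (e : ℕ → ℝ) (G : ℂ → ℂ) (w : ℂ) : ℂ := ∑' j, (e j : ℂ) * iteratedDeriv j G w

theorem op_bound_summable {e : ℕ → ℝ} (he : Typ0 e) {B s : ℝ} (hs : 0 < s) :
    Summable (fun j : ℕ => e j * (j.factorial * B * (1 / s) ^ j)) := by
  have := (he.summable_fact 0 (show 0 < 1 / s by positivity)).mul_right B
  refine this.congr (fun j => ?_)
  simp only [add_zero]; ring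

theorem op_hasSum {U : Set ℂ} (hU : IsOpen U) {G : ℂ → ℂ} (hG : DifferentiableOn ℂ G U)
    {e : ℕ → ℝ} (he : Typ0 e) {w : ℂ} (hw : w ∈ U) :
    HasSum (fun j => (e j : ℂ) * iteratedDeriv j G w) (Op e G w) := by
  obtain ⟨B, s, hs, hB, h⟩ := cauchy_compact hU hG (isCompact_singleton (x := w)) (by simpa using hw)
  apply Summable.hasSum
  apply Summable.of_norm_bounded (op_bound_summable he hs (B := B))
  intro j
  rw [norm_mul, Complex.norm_real, Real.norm_eq_abs, abs_of_nonneg (he.nonneg j)]
  exact mul_le_mul_of_nonneg_left (h w rfl j) (he.nonneg j)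

theorem op_differentiableOn {U : Set ℂ} (hU : IsOpen U) {G : ℂ → ℂ} (hG : DifferentiableOn ℂ G U)
    {e : ℕ → ℝ} (he : Typ0 e) : DifferentiableOn ℂ (Op e G) U := by
  intro w hw
  obtain ⟨r, hr, hball⟩ := Metric.isOpen_iff.mp hU w hw
  have hsub : closedBall w (r / 2) ⊆ U := (closedBall_subset_ball (by linarith)).trans hball
  obtain ⟨B, s, hs, hB, h⟩ := cauchy_compact hU hG (isCompact_closedBall w (r / 2)) hsub
  have h1 : DifferentiableOn ℂ (fun w => ∑' j, (e j : ℂ) * iteratedDeriv j G w)
      (ball w (r / 2)) := by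
    apply Complex.differentiableOn_tsum_of_summable_norm (op_bound_summable he hs (B := B))
    · intro j
      exact ((iteratedDeriv_differentiableOn hU hG j).mono
        (ball_subset_closedBall.trans hsub)).const_mul _
    · exact isOpen_ball
    · intro j z hz
      rw [norm_mul, Complex.norm_real, Real.norm_eq_abs, abs_of_nonneg (he.nonneg j)]
      exact mul_le_mul_of_nonneg_left (h z (ball_subset_closedBall hz) j) (he.nonneg j)
  exact (h1.differentiableAt (ball_mem_nhds w (by linarith))).differentiableWithinAt

/-- contour integrals around a circle inside the domain -/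
theorem op_circle {U : Set ℂ} (hU : IsOpen U) {G : ℂ → ℂ} (hG : DifferentiableOn ℂ G U)
    {e : ℕ → ℝ} (he : Typ0 e) {c : ℂ} {R : ℝ} (hR : 0 < R) (hsub : sphere c R ⊆ U) (n : ℕ) :
    HasSum (fun j => (e j : ℂ) * ∮ w in C(c, R), (w - c) ^ n * iteratedDeriv j G w)
      (∮ w in C(c, R), (w - c) ^ n * Op e G w) := by
  obtain ⟨B, s, hs, hB, h⟩ := cauchy_compact hU hG (isCompact_sphere c R) hsub
  have hmem : ∀ θ : ℝ, circleMap c R θ ∈ sphere c R := fun θ => circleMap_mem_sphere c hR.le θ
  have h1 : ∀ j, (e j : ℂ) * (∮ w in C(c, R), (w - c) ^ n * iteratedDeriv j G w) =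
      ∫ θ in (0 : ℝ)..2 * Real.pi, deriv (circleMap c R) θ • ((e j : ℂ) *
        ((circleMap c R θ - c) ^ n * iteratedDeriv j G (circleMap c R θ))) := by
    intro j
    unfold circleIntegral
    rw [← intervalIntegral.integral_const_mul]
    congr 1
    funext θ
    simp only [smul_eq_mul]; ring
  have h2 : (∮ w in C(c, R), (w - c) ^ n * Op e G w) =
      ∫ θ in (0 : ℝ)..2 * Real.pi, deriv (circleMap c R) θ • (
        ((circleMap c R θ - c) ^ n * Op e G (circleMap c R θ))) := rfl
  simp_rw [h1]
  rw [h2]
  apply intervalIntegral.hasSum_integral_of_dominated_convergence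
    (bound := fun j _ => R * R ^ n * (e j * (j.factorial * B * (1 / s) ^ j)))
  · intro j
    have hc : Continuous (fun θ : ℝ => iteratedDeriv j G (circleMap c R θ)) :=
      ((iteratedDeriv_differentiableOn hU hG j).continuousOn.mono hsub).comp_continuous
        (continuous_circleMap c R) hmem
    have hd : Continuous (deriv (circleMap c R)) := by
      have : deriv (circleMap c R) = fun θ => circleMap 0 R θ * Complex.I := by
        funext θ; exact deriv_circleMap c R θ
      rw [this]; fun_prop
    exact (by fun_prop : Continuous (fun θ : ℝ => deriv (circleMap c R) θ • ((e j : ℂ) *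
        ((circleMap c R θ - c) ^ n * iteratedDeriv j G (circleMap c R θ))))).aestronglyMeasurable
  · intro j
    refine ae_of_all _ fun θ _ => ?_
    rw [norm_smul, norm_mul, norm_mul, norm_pow, deriv_circleMap, Complex.norm_real,
      Real.norm_eq_abs, abs_of_nonneg (he.nonneg j)]
    have e1 : ‖circleMap 0 R θ * Complex.I‖ = R := by
      rw [norm_mul, Complex.norm_I, mul_one, norm_circleMap_zero, abs_of_pos hR]
    have e2 : ‖circleMap c R θ - c‖ = R := by
      have := hmem θ
      rw [mem_sphere, dist_eq_norm] at this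
      exact this
    rw [e1, e2]
    have e3 := h _ (hmem θ) j
    calc R * (e j * (R ^ n * ‖iteratedDeriv j G (circleMap c R θ)‖))
        = R * R ^ n * (e j * ‖iteratedDeriv j G (circleMap c R θ)‖) := by ring
      _ ≤ _ := by
        apply mul_le_mul_of_nonneg_left _ (by positivity)
        exact mul_le_mul_of_nonneg_left e3 (he.nonneg j)
  · exact ae_of_all _ fun θ _ => (op_bound_summable he hs).mul_left _
  · exact intervalIntegrable_const
  · refine ae_of_all _ fun θ _ => ?_
    have h3 := op_hasSum hU hG he (hsub (hmem θ))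
    have h4 := h3.mul_left (deriv (circleMap c R) θ * (circleMap c R θ - c) ^ n)
    have e1 : deriv (circleMap c R) θ • ((circleMap c R θ - c) ^ n * Op e G (circleMap c R θ)) =
        deriv (circleMap c R) θ * (circleMap c R θ - c) ^ n * Op e G (circleMap c R θ) := by
      rw [smul_eq_mul]; ring
    rw [e1]
    refine h4.congr_fun ?_
    intro j
    rw [smul_eq_mul]; ring

/-- If `Op e G` extends analytically over the disc, all the moments of `G` vanish. -/
theorem moments_vanish {U : Set ℂ} (hU : IsOpen U) {G : ℂ → ℂ} (hG : DifferentiableOn ℂ G U)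
    {e : ℕ → ℝ} (he : Typ0 e) {c : ℂ} {R : ℝ} (hR : 0 < R) (hsub : sphere c R ⊆ U)
    {X : ℂ → ℂ} (hX : DifferentiableOn ℂ X (closedBall c R))
    (hXG : ∀ w ∈ sphere c R, X w = Op e G w) (n : ℕ) :
    ∀ j, (∮ w in C(c, R), (w - c) ^ n * iteratedDeriv j G w) = 0 := by
  induction n using Nat.strong_induction_on with
  | _ n ih =>
    -- derivative relation
    have hrel : ∀ j, (∮ w in C(c, R), (w - c) ^ n * iteratedDeriv (j + 1) G w) = 0 := by
      intro j
      rcases n with _ | n
      · apply circleIntegral.integral_eq_zero_of_hasDerivWithinAt (f := iteratedDeriv j G) hR.le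
        intro z hz
        have := (iteratedDeriv_hasDerivAt hU hG j (hsub hz)).hasDerivWithinAt (s := sphere c R)
        simpa using this
      · have h1 : (∮ w in C(c, R), (((n + 1 : ℕ) : ℂ) * (w - c) ^ n * iteratedDeriv j G w +
            (w - c) ^ (n + 1) * iteratedDeriv (j + 1) G w)) = 0 := by
          apply circleIntegral.integral_eq_zero_of_hasDerivWithinAt
            (f := fun w => (w - c) ^ (n + 1) * iteratedDeriv j G w) hR.le
          intro z hz
          have h2 := iteratedDeriv_hasDerivAt hU hG j (hsub hz)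
          have h3 : HasDerivAt (fun w : ℂ => (w - c) ^ (n + 1))
              (((n + 1 : ℕ) : ℂ) * (z - c) ^ n) z := by
            have := ((hasDerivAt_id z).sub_const c).fun_pow (n + 1)
            simpa using this
          exact (h3.mul h2).hasDerivWithinAt
        have hci : ∀ (i l : ℕ), CircleIntegrable (fun w => (w - c) ^ i * iteratedDeriv l G w) c R := by
          intro i l
          apply ContinuousOn.circleIntegrable hR.le
          have := (iteratedDeriv_differentiableOn hU hG l).continuousOn.mono hsub
          fun_prop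
        have h4 : (∮ w in C(c, R), (((n + 1 : ℕ) : ℂ) * (w - c) ^ n * iteratedDeriv j G w +
            (w - c) ^ (n + 1) * iteratedDeriv (j + 1) G w)) =
            ((n + 1 : ℕ) : ℂ) * (∮ w in C(c, R), (w - c) ^ n * iteratedDeriv j G w) +
            ∮ w in C(c, R), (w - c) ^ (n + 1) * iteratedDeriv (j + 1) G w := by
          rw [← circleIntegral.integral_const_mul, ← circleIntegral.integral_add]
          · congr 1
            funext w
            ring
          · exact (hci n j).const_mul _
          · exact hci (n + 1) (j + 1)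
        rw [h4, ih n (by omega) j, mul_zero, zero_add] at h1
        exact h1
    intro j
    rcases j with _ | j
    · have h1 := op_circle hU hG he hR hsub n
      have h2 : (∮ w in C(c, R), (w - c) ^ n * Op e G w) = 0 := by
        have h3 : (∮ w in C(c, R), (w - c) ^ n * Op e G w) =
            ∮ w in C(c, R), (w - c) ^ n * X w := by
          apply circleIntegral.integral_congr hR.le
          intro w hw
          simp only
          rw [hXG w hw]
        rw [h3]
        apply Complex.circleIntegral_eq_zero_of_differentiable_on_off_countable hR.le countable_empty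
        · have := hX.continuousOn
          fun_prop
        · intro z hz
          have h4 : DifferentiableAt ℂ X z := (hX.mono ball_subset_closedBall).differentiableAt
            (isOpen_ball.mem_nhds hz.1)
          fun_prop
      rw [h2] at h1
      have h5 : HasSum (fun j => (e j : ℂ) * ∮ w in C(c, R), (w - c) ^ n * iteratedDeriv j G w)
          ((e 0 : ℂ) * ∮ w in C(c, R), (w - c) ^ n * iteratedDeriv 0 G w) := by
        apply hasSum_single 0
        intro j hj
        obtain ⟨i, rfl⟩ := Nat.exists_eq_succ_of_ne_zero hj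
        rw [Nat.succ_eq_add_one, hrel i, mul_zero]
      have h6 := h1.unique h5
      rw [he.zero] at h6
      simpa using h6.symm
    · exact hrel j

end Pool.Agent.H94.Cyc
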