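import Pool.Agent.H94.Cyc.Fin

set_option autoImplicit false

namespace Pool.Agent.H94.Cyc

open MeasureTheory Filter Topology Set Polynomial

/-- products of the first `k` terms of a sequence -/
def NN (p : ℕ → ℕ) (k : ℕ) : ℕ := ∏ i ∈ Finset.range k, p i

theorem NN_succ (p : ℕ → ℕ) (k : ℕ) : NN p (k + 1) = NN p k * p k := by
  unfold NN; rw [Finset.prod_range_succ]

theorem NN_ne_zero {p : ℕ → ℕ} (hp : ∀ i, (p i).Prime) (k : ℕ) : NN p k ≠ 0 :=
  Finset.prod_ne_zero_iff.mpr fun i _ => (hp i).ne_zero

theorem NN_not_dvd {p : ℕ → ℕ} (hp : ∀ i, (p i).Prime) (hinj : Function.Injective p) {k l : ℕ}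
    (h : k ≤ l) : ¬ p l ∣ NN p k := by
  unfold NN
  intro hd
  rw [(hp l).prime.dvd_finsetProd_iff] at hd
  obtain ⟨i, hi, hdi⟩ := hd
  rw [Finset.mem_range] at hi
  have := (Nat.prime_dvd_prime_iff_eq (hp l) (hp i)).mp hdi
  have := hinj this
  omega

theorem LapInt.shift {f : ℝ → ℝ} {a : ℝ} (h : LapInt f a) (L : ℝ) :
    LapInt (fun y => f (y - L)) a := by
  intro u hu
  have h1 := (h u hu).comp_sub_right L
  refine (h1.const_mul (Real.exp (-(u * L)))).congr (ae_of_all _ fun y => ?_)
  simp only
  have : Real.exp (-(u * y)) = Real.exp (-(u * L)) * Real.exp (-(u * (y - L))) := by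
    rw [← Real.exp_add]; ring_nf
  rw [this]; ring

theorem LapInt.sub' {f g : ℝ → ℝ} {a : ℝ} (hf : LapInt f a) (hg : LapInt g a) :
    LapInt (fun y => f y - g y) a := by
  intro u hu
  refine ((hf u hu).sub (hg u hu)).congr (ae_of_all _ fun y => ?_)
  simp only [Pi.sub_apply]
  ring

theorem lapInt_prime {p : ℕ} (hp : p.Prime) : LapInt (psi (alf p)) (-1) := by
  have hL := lapInt_psi (alf_abs p)
  have hm := measurable_psi (alf_abs p)
  intro u hu
  rcases lt_or_ge 1 u with h1 | h1
  · exact hL u h1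
  rw [← integrableOn_univ, ← Iic_union_Ioi (a := (0 : ℝ))]
  have hmeas : Measurable (fun y => psi (alf p) y * Real.exp (-(u * y))) := by fun_prop
  refine IntegrableOn.union ?_ ?_
  · refine Integrable.mono' ((hL 2 (by norm_num)).abs.integrableOn) hmeas.aestronglyMeasurable ?_
    refine (ae_restrict_iff' measurableSet_Iic).mpr (ae_of_all _ fun y hy => ?_)
    rw [mem_Iic] at hy
    rw [Real.norm_eq_abs, abs_mul, abs_mul, abs_of_pos (Real.exp_pos _), abs_of_pos (Real.exp_pos _)]
    apply mul_le_mul_of_nonneg_left _ (abs_nonneg _)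
    apply Real.exp_le_exp.mpr
    nlinarith
  · have hint : IntegrableOn (fun y : ℝ => (p * Real.exp 2) * Real.exp (-(1 + u) * y)) (Ioi 0) :=
      (exp_neg_integrableOn_Ioi 0 (by linarith)).const_mul _
    refine Integrable.mono' hint hmeas.aestronglyMeasurable ?_
    refine (ae_restrict_iff' measurableSet_Ioi).mpr (ae_of_all _ fun y _ => ?_)
    rw [Real.norm_eq_abs, abs_mul, abs_of_pos (Real.exp_pos _), psi_alf hp.ne_zero, abs_mul,
      abs_of_pos (Real.exp_pos _)]
    have h2 := FF_prime_abs hp (Real.exp_pos (2 - y))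
    have h3 : Real.exp (-(1 + u) * y) = Real.exp (-y) * Real.exp (-(u * y)) := by
      rw [← Real.exp_add]; ring_nf
    have h4 : Real.exp (2 - y) = Real.exp 2 * Real.exp (-y) := by
      rw [← Real.exp_add]; ring_nf
    rw [h3, h4]
    rw [h4] at h2
    calc |FF p (Real.exp 2 * Real.exp (-y))| * (Real.exp 2 * Real.exp (-y)) * Real.exp (-(u * y))
        ≤ p * (Real.exp 2 * Real.exp (-y)) * Real.exp (-(u * y)) := by gcongr
      _ = _ := by ring

theorem NN_one (p : ℕ → ℕ) : NN p 1 = p 0 := by simp [NN]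

theorem lapInt_NN {p : ℕ → ℕ} (hp : ∀ i, (p i).Prime) (hinj : Function.Injective p) (k : ℕ) :
    LapInt (psi (alf (NN p (k + 1)))) (-1) := by
  induction k with
  | zero => rw [zero_add, NN_one]; exact lapInt_prime (hp 0)
  | succ k ih =>
    have h1 := ih.sub' (ih.shift (Real.log (p (k + 1))))
    intro u hu
    refine (h1 u hu).congr (ae_of_all _ fun y => ?_)
    simp only
    rw [NN_succ p (k + 1), psi_mul (NN_ne_zero hp _) (hp _) (NN_not_dvd hp hinj le_rfl)]

theorem int_poly {f : ℝ → ℝ} (hf : Measurable f) (h : LapInt f (-1)) (R : ℝ[X]) :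
    Integrable (fun y => f y * R.eval y) := by
  have h1 : ∀ n : ℕ, Integrable (fun y => f y * y ^ n) := by
    intro n
    refine Integrable.mono' (lap_pow_int hf h n (u := 0) (by norm_num)) ?_ ?_
    · exact (by fun_prop : Measurable (fun y => f y * y ^ n)).aestronglyMeasurable
    · refine ae_of_all _ fun y => ?_
      rw [Real.norm_eq_abs, abs_mul, abs_pow, zero_mul, neg_zero, Real.exp_zero, mul_one]
  have h2 : (fun y => f y * R.eval y) =
      fun y => ∑ i ∈ Finset.range (R.natDegree + 1), R.coeff i * (f y * y ^ i) := by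
    funext y
    rw [eval_eq_sum_range, Finset.mul_sum]
    apply Finset.sum_congr rfl
    intro i _
    ring
  rw [h2]
  exact integrable_finsetSum _ fun i _ => (h1 i).const_mul _

theorem degree_diff_lt {R : ℝ[X]} (hR : R ≠ 0) (L : ℝ) : (R - taylor L R).degree < R.degree := by
  apply degree_sub_lt_left
  · rw [degree_taylor]
  · exact hR
  · rw [leadingCoeff_taylor]

theorem orth {p : ℕ → ℕ} (hp : ∀ i, (p i).Prime) (hinj : Function.Injective p) (k : ℕ) :
    ∀ R : ℝ[X], R.degree < k → ∫ y, psi (alf (NN p (k + 1))) y * R.eval y = 0 := by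
  induction k with
  | zero =>
    intro R hR
    have : R = 0 := by
      rw [← degree_eq_bot]
      rw [Nat.cast_zero] at hR
      exact Nat.WithBot.lt_zero_iff.mp hR
    rw [this]; simp
  | succ k ih =>
    intro R hR
    by_cases hR0 : R = 0
    · rw [hR0]; simp
    set f := psi (alf (NN p (k + 1))) with hf
    have hm : Measurable f := measurable_psi (alf_abs _)
    have hL : LapInt f (-1) := lapInt_NN hp hinj k
    set L := Real.log (p (k + 1)) with hLdef
    have h1 : ∀ y, psi (alf (NN p (k + 1 + 1))) y = f y - f (y - L) := by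
      intro y
      rw [NN_succ p (k + 1), psi_mul (NN_ne_zero hp _) (hp _) (NN_not_dvd hp hinj le_rfl)]
    simp_rw [h1]
    have h2 : ∀ y, (f y - f (y - L)) * R.eval y =
        f y * R.eval y - (fun z => f z * (taylor L R).eval z) (y - L) := by
      intro y
      simp only
      rw [taylor_eval]
      ring_nf
    simp_rw [h2]
    have i1 := int_poly hm hL R
    have i2 := int_poly hm hL (taylor L R)
    rw [integral_sub i1 (i2.comp_sub_right L), integral_sub_right_eq_self
      (fun z => f z * (taylor L R).eval z) L, ← integral_sub i1 i2]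
    have h3 : ∀ y, f y * R.eval y - f y * (taylor L R).eval y = f y * (R - taylor L R).eval y := by
      intro y; rw [eval_sub]; ring
    simp_rw [h3]
    apply ih
    have h4 := degree_diff_lt hR0 L
    have h5 : R.degree ≤ (k : ℕ) :=
      degree_le_of_natDegree_le (Nat.lt_succ_iff.mp ((natDegree_lt_iff_degree_lt hR0).mpr hR))
    exact lt_of_lt_of_le h4 h5

end Pool.Agent.H94.Cyc
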