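import Mathlib

set_option autoImplicit false

namespace Pool.Agent.H94.Cyc

open Polynomial Set

theorem mprod_nonneg (m : Multiset ℝ) (h : ∀ a ∈ m, 0 ≤ a) : 0 ≤ m.prod := by
  induction m using Multiset.induction_on with
  | empty => simp
  | cons a s ih =>
    rw [Multiset.prod_cons]
    exact mul_nonneg (h a (Multiset.mem_cons_self a s))
      (ih fun b hb => h b (Multiset.mem_cons_of_mem hb))

/-- splitting off the roots in an interval -/
theorem sign_fac {pol : ℝ[X]} (hp : pol ≠ 0) {I : Set ℝ} [DecidablePred (· ∈ I)]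
    (hI : OrdConnected I) :
    ∃ W : ℝ[X], pol = ((pol.roots.filter (· ∈ I)).map (fun z => X - C z)).prod * W ∧
      ∃ s : ℝ, s ≠ 0 ∧ ∀ x ∈ I, 0 < s * W.eval x := by
  set Z := pol.roots.filter (· ∈ I) with hZ
  have hle : Z ≤ pol.roots := Multiset.filter_le _ _
  obtain ⟨W, hW⟩ := (Multiset.prod_X_sub_C_dvd_iff_le_roots hp Z).mpr hle
  refine ⟨W, hW, ?_⟩
  have hW0 : W ≠ 0 := by rintro rfl; rw [mul_zero] at hW; exact hp hW
  have hroots : pol.roots = Z + W.roots := by
    conv_lhs => rw [hW]
    rw [roots_mul (by rw [← hW]; exact hp), roots_multiset_prod_X_sub_C]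
  have hne : ∀ x ∈ I, W.eval x ≠ 0 := by
    intro x hx h0
    have h1 : 0 < W.roots.count x := by
      rw [Multiset.count_pos, mem_roots hW0]; exact h0
    have h2 := congrArg (Multiset.count x) hroots
    rw [Multiset.count_add, hZ, Multiset.count_filter_of_pos hx] at h2
    omega
  have hpre : IsPreconnected I := hI.isPreconnected
  have hcont : ContinuousOn (fun x => W.eval x) I := W.continuous.continuousOn
  by_cases hex : ∃ x ∈ I, 0 < W.eval x
  · obtain ⟨x, hx, hpos⟩ := hex
    refine ⟨1, one_ne_zero, fun y hy => ?_⟩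
    rw [one_mul]
    by_contra hc
    have hlt : W.eval y < 0 := lt_of_le_of_ne (not_lt.mp hc) (hne y hy)
    obtain ⟨z, hz, hz0⟩ := hpre.intermediate_value hy hx hcont ⟨hlt.le, hpos.le⟩
    exact hne z hz hz0
  · push Not at hex
    refine ⟨-1, by norm_num, fun y hy => ?_⟩
    have := lt_of_le_of_ne (hex y hy) (hne y hy)
    linarith

/-- the sign of a function related to a polynomial by a monotone change of variables -/
theorem sign_rel {pol : ℝ[X]} (hp : pol ≠ 0) {I : Set ℝ} [DecidablePred (· ∈ I)]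
    (hI : OrdConnected I) (x g : ℝ → ℝ)
    (hx : ∀ y, x y ∈ I) (hg : ∀ z ∈ I, x (g z) = z) (s : ℝ) (hs : s ≠ 0)
    (hmono : ∀ y y' : ℝ, 0 ≤ s * ((x y - x y') * (y - y'))) (hinj : Function.Injective x)
    (f c : ℝ → ℝ) (τ : ℝ) (hτ : τ ≠ 0) (hc : ∀ y, 0 < c y)
    (hf : ∀ y, τ * f y = c y * pol.eval (x y)) :
    (∃ σ : ℝ, σ ≠ 0 ∧ ∀ y, 0 ≤ σ * (f y *
      (((pol.roots.filter (· ∈ I)).map g).map (fun z => y - z)).prod)) ∧
    (∀ y, f y = 0 → y ∈ (pol.roots.filter (· ∈ I)).map g) ∧
    (∀ y, y ∈ (pol.roots.filter (· ∈ I)).map g → f y = 0) := by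
  set Z := pol.roots.filter (· ∈ I) with hZ
  obtain ⟨W, hW, sW, hsW, hWI⟩ := sign_fac hp hI
  refine ⟨⟨sW * s ^ Z.card * τ, by positivity, fun y => ?_⟩, ?_, ?_⟩
  · have h1 : pol.eval (x y) = (Z.map (fun z => x y - z)).prod * W.eval (x y) := by
      conv_lhs => rw [hW]
      rw [eval_mul, eval_multiset_prod, Multiset.map_map]
      congr 2
      apply Multiset.map_congr rfl
      intro z _
      simp
    have h2 : 0 ≤ s ^ Z.card * ((Z.map (fun z => x y - z)).prod *
        ((Z.map g).map (fun z => y - z)).prod) := by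
      have h3 : s ^ Z.card * ((Z.map (fun z => x y - z)).prod *
        ((Z.map g).map (fun z => y - z)).prod) =
          (Z.map (fun z => s * ((x y - z) * (y - g z)))).prod := by
        rw [Multiset.map_map, Multiset.prod_map_mul, Multiset.prod_map_mul, Multiset.map_const',
          Multiset.prod_replicate]
        rfl
      rw [h3]
      apply mprod_nonneg
      intro a ha
      rw [Multiset.mem_map] at ha
      obtain ⟨z, hz, rfl⟩ := ha
      have hzI : z ∈ I := (Multiset.mem_filter.mp hz).2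
      have := hmono y (g z)
      rw [hg z hzI] at this
      exact this
    have h4 := hWI (x y) (hx y)
    have h5 : sW * s ^ Z.card * τ * (f y * ((Z.map g).map (fun z => y - z)).prod) =
        c y * (sW * W.eval (x y)) * (s ^ Z.card * ((Z.map (fun z => x y - z)).prod *
        ((Z.map g).map (fun z => y - z)).prod)) := by
      have : sW * s ^ Z.card * τ * (f y * ((Z.map g).map (fun z => y - z)).prod) =
        sW * s ^ Z.card * (τ * f y) * ((Z.map g).map (fun z => y - z)).prod := by ring
      rw [this, hf, h1]; ring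
    rw [h5]
    exact mul_nonneg (mul_nonneg (hc y).le h4.le) h2
  · intro y hy
    have h1 := hf y
    rw [hy, mul_zero] at h1
    have h2 : pol.eval (x y) = 0 := by
      rcases mul_eq_zero.mp h1.symm with h | h
      · exact absurd h (hc y).ne'
      · exact h
    rw [Multiset.mem_map]
    refine ⟨x y, ?_, ?_⟩
    · rw [hZ, Multiset.mem_filter, mem_roots hp]
      exact ⟨h2, hx y⟩
    · exact hinj (hg (x y) (hx y))
  · intro y hy
    rw [Multiset.mem_map] at hy
    obtain ⟨z, hz, rfl⟩ := hy
    rw [hZ, Multiset.mem_filter, mem_roots hp] at hz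
    have h1 := hf (g z)
    rw [hg z hz.2] at h1
    have h2 : pol.eval z = 0 := hz.1
    rw [h2, mul_zero] at h1
    rcases mul_eq_zero.mp h1 with h | h
    · exact absurd h hτ
    · exact h

/-- logarithmic coordinates on `(0,1)` -/
noncomputable def xpos (y : ℝ) : ℝ := Real.exp (-Real.exp (2 - y))
noncomputable def gpos (z : ℝ) : ℝ := 2 - Real.log (-Real.log z)

theorem xpos_mem (y : ℝ) : xpos y ∈ Ioo (0 : ℝ) 1 := by
  refine ⟨Real.exp_pos _, ?_⟩
  unfold xpos
  rw [Real.exp_lt_one_iff]
  have := Real.exp_pos (2 - y)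
  linarith

theorem xpos_gpos {z : ℝ} (hz : z ∈ Ioo (0 : ℝ) 1) : xpos (gpos z) = z := by
  unfold xpos gpos
  have h1 : Real.log z < 0 := Real.log_neg hz.1 hz.2
  rw [sub_sub_cancel, Real.exp_log (by linarith), neg_neg, Real.exp_log hz.1]

theorem xpos_strictMono : StrictMono xpos := by
  intro a b hab
  unfold xpos
  apply Real.exp_lt_exp.mpr
  have : Real.exp (2 - b) < Real.exp (2 - a) := Real.exp_lt_exp.mpr (by linarith)
  linarith

theorem strictMono_mul_nonneg {x : ℝ → ℝ} (hx : StrictMono x) (y y' : ℝ) :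
    0 ≤ (x y - x y') * (y - y') := by
  rcases lt_trichotomy y y' with h | h | h
  · exact mul_nonneg_of_nonpos_of_nonpos (by have := hx h; linarith) (by linarith)
  · rw [h]; simp
  · exact mul_nonneg (by have := hx h; linarith) (by linarith)

end Pool.Agent.H94.Cyc
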