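import Pool.Agent.H94.Cyc.CycRel
import Pool.Agent.H94.Cyc.Roots

set_option autoImplicit false

namespace Pool.Agent.H94.Cyc

open MeasureTheory Filter Topology Set Polynomial

theorem seq_of_multiset (Y : Multiset ℝ) (hY : ∀ z ∈ Y, 1 < z) : ∃ a : ℕ → ℝ,
    (∀ i, 0 ≤ a i) ∧ (∀ i, a i ≤ 1) ∧ Antitone a ∧ (∀ i, Multiset.card Y ≤ i → a i = 0) ∧
    ∀ y, (Y.map (fun z => 1 - y / z)).prod =
      ∏ i ∈ Finset.range (Multiset.card Y), (1 - a i * y) := by
  set l := Y.sort (· ≤ ·) with hl
  have hlY : (l : Multiset ℝ) = Y := Multiset.sort_eq _ _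
  have hlen : l.length = Multiset.card Y := by rw [← hlY, Multiset.coe_card]
  have hmem : ∀ (i : ℕ) (h : i < l.length), 1 < l[i] := by
    intro i h
    apply hY
    rw [← hlY, Multiset.mem_coe]
    exact List.getElem_mem h
  have hsorted : l.Pairwise (· ≤ ·) := Multiset.pairwise_sort _ _
  refine ⟨fun i => if h : i < l.length then 1 / l[i] else 0, ?_, ?_, ?_, ?_, ?_⟩
  · intro i
    simp only
    split_ifs with h
    · have := hmem i h
      positivity
    · exact le_rfl
  · intro i
    simp only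
    split_ifs with h
    · have := hmem i h
      rw [div_le_one (by linarith)]
      exact this.le
    · norm_num
  · intro i j hij
    simp only
    by_cases hj : j < l.length
    · have hi : i < l.length := lt_of_le_of_lt hij hj
      rw [dif_pos hj, dif_pos hi]
      apply one_div_le_one_div_of_le
      · linarith [hmem i hi]
      · rcases eq_or_lt_of_le hij with rfl | hlt
        · exact le_rfl
        · exact List.pairwise_iff_getElem.mp hsorted i j hi hj hlt
    · rw [dif_neg hj]
      split_ifs with h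
      · have := hmem i h
        positivity
      · exact le_rfl
  · intro i hi
    simp only
    rw [dif_neg (by omega)]
  · intro y
    conv_lhs => rw [← hlY]
    rw [Multiset.map_coe, Multiset.prod_coe, ← hlen, Finset.prod_range]
    have h1 : l.map (fun z => 1 - y / z) = List.ofFn (fun i : Fin l.length => 1 - y / l[i]) := by
      conv_lhs => rw [← List.ofFn_getElem (xs := l)]
      rw [List.map_ofFn]
      rfl
    rw [h1, List.prod_ofFn]
    apply Finset.prod_congr rfl
    intro i _
    simp only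
    rw [dif_pos i.2]
    simp only [Fin.getElem_fin]
    ring

/-- the odd primes -/
noncomputable def q (i : ℕ) : ℕ := Nat.nth Nat.Prime (i + 1)
/-- all primes -/
noncomputable def q' (i : ℕ) : ℕ := Nat.nth Nat.Prime i

theorem q'_prime (i : ℕ) : (q' i).Prime := Nat.prime_nth_prime i
theorem q_prime (i : ℕ) : (q i).Prime := Nat.prime_nth_prime (i + 1)
theorem q'_inj : Function.Injective q' := Nat.nth_injective Nat.infinite_setOfPred_prime
theorem q_inj : Function.Injective q := fun a b h => by
  have := Nat.nth_injective Nat.infinite_setOfPred_prime h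
  omega
theorem q'_zero : q' 0 = 2 := Nat.nth_prime_zero_eq_two
theorem q_ne_two (i : ℕ) : q i ≠ 2 := by
  intro h
  have h1 : q' (i + 1) = q' 0 := by rw [q'_zero]; exact h
  have := q'_inj h1
  omega

theorem two_mul_NN (k : ℕ) : 2 * NN q k = NN q' (k + 1) := by
  unfold NN
  rw [Finset.prod_range_succ', q'_zero, mul_comm]
  rfl

theorem two_lt_NN {k : ℕ} (hk : 0 < k) : 2 < NN q k := by
  obtain ⟨l, rfl⟩ : ∃ l, k = l + 1 := ⟨k - 1, by omega⟩
  rw [NN_succ]
  have h1 := NN_ne_zero q_prime l
  have h2 := (q_prime l).two_le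
  have h3 := q_ne_two l
  have h4 : 3 ≤ q l := by omega
  have h5 : 1 ≤ NN q l := Nat.one_le_iff_ne_zero.mpr h1
  nlinarith

/-- the derivative of the cyclotomic polynomial -/
noncomputable def pol (k : ℕ) : ℝ[X] := derivative (cyclotomic (NN q k) ℝ)

theorem pol_ne_zero {k : ℕ} (hk : 0 < k) : pol k ≠ 0 := by
  unfold pol
  intro h
  have h1 := Polynomial.derivative_eq_zero.mp h
  rw [natDegree_cyclotomic] at h1
  have h2 : 0 < Nat.totient (NN q k) := Nat.totient_pos.mpr (by have := two_lt_NN hk; omega)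
  omega

/-- the positive side: sign relation -/
theorem pos_side {k : ℕ} (hk : 0 < k) :
    (∃ σ : ℝ, σ ≠ 0 ∧ ∀ y, 0 ≤ σ * (psi (alf (NN q k)) y *
      ((((pol k).roots.filter (· ∈ Ioo (0 : ℝ) 1)).map gpos).map (fun z => y - z)).prod)) ∧
    (∀ y, psi (alf (NN q k)) y = 0 → y ∈ ((pol k).roots.filter (· ∈ Ioo (0 : ℝ) 1)).map gpos) ∧
    (∀ y, y ∈ ((pol k).roots.filter (· ∈ Ioo (0 : ℝ) 1)).map gpos →
      psi (alf (NN q k)) y = 0) := by
  apply sign_rel (pol_ne_zero hk) ordConnected_Ioo xpos gpos xpos_mem (fun z hz => xpos_gpos hz) 1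
    one_ne_zero (fun y y' => by rw [one_mul]; exact strictMono_mul_nonneg xpos_strictMono y y')
    xpos_strictMono.injective _
    (fun y => xpos y * Real.exp (2 - y) / (cyclotomic (NN q k) ℝ).eval (xpos y)) (-(-1) ^ k)
    (by simp)
  · intro y
    have h1 := cyclotomic_pos (two_lt_NN hk) (xpos y)
    have h2 := (xpos_mem y).1
    have := Real.exp_pos (2 - y)
    positivity
  · intro y
    have h1 := cyclotomic_pos (two_lt_NN hk) (xpos y)
    have h2 := cyc_pos_rel q_prime q_inj k (Real.exp (2 - y)) (Real.exp_pos _)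
    rw [psi_alf (NN_ne_zero q_prime k)]
    have h3 : xpos y = Real.exp (-Real.exp (2 - y)) := rfl
    rw [← h3] at h2
    unfold pol
    rw [div_mul_eq_mul_div, eq_div_iff h1.ne']
    linear_combination (-Real.exp (2 - y)) * h2

/-- logarithmic coordinates on `(-1,0)` -/
theorem neg_mem (y : ℝ) : -xpos y ∈ Ioo (-1 : ℝ) 0 := by
  have := xpos_mem y
  constructor <;> linarith [this.1, this.2]

/-- the negative side: sign relation -/
theorem neg_side {k : ℕ} (hk : 0 < k) :
    (∃ σ : ℝ, σ ≠ 0 ∧ ∀ y, 0 ≤ σ * (psi (alf (2 * NN q k)) y *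
      ((((pol k).roots.filter (· ∈ Ioo (-1 : ℝ) 0)).map (fun z => gpos (-z))).map
        (fun z => y - z)).prod)) ∧
    (∀ y, psi (alf (2 * NN q k)) y = 0 →
      y ∈ ((pol k).roots.filter (· ∈ Ioo (-1 : ℝ) 0)).map (fun z => gpos (-z))) ∧
    (∀ y, y ∈ ((pol k).roots.filter (· ∈ Ioo (-1 : ℝ) 0)).map (fun z => gpos (-z)) →
      psi (alf (2 * NN q k)) y = 0) := by
  apply sign_rel (pol_ne_zero hk) ordConnected_Ioo (fun y => -xpos y) (fun z => gpos (-z)) neg_mem
    (fun z hz => by
      rw [xpos_gpos ⟨by linarith [hz.2], by linarith [hz.1]⟩, neg_neg]) (-1) (by norm_num)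
    (fun y y' => by
      have := strictMono_mul_nonneg xpos_strictMono y y'
      have e : (-1 : ℝ) * ((-xpos y - -xpos y') * (y - y')) = (xpos y - xpos y') * (y - y') := by
        ring
      rw [e]; exact this)
    (fun a b h => xpos_strictMono.injective (neg_injective h)) _
    (fun y => xpos y * Real.exp (2 - y) / (cyclotomic (NN q k) ℝ).eval (-xpos y)) (-(-1) ^ k)
    (by simp)
  · intro y
    have h1 := cyclotomic_pos (two_lt_NN hk) (-xpos y)
    have h2 := (xpos_mem y).1
    have := Real.exp_pos (2 - y)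
    positivity
  · intro y
    have h1 := cyclotomic_pos (two_lt_NN hk) (-xpos y)
    have h2 := cyc_neg_rel q_prime q_inj q_ne_two k (Real.exp (2 - y)) (Real.exp_pos _)
    rw [psi_alf (mul_ne_zero two_ne_zero (NN_ne_zero q_prime k))]
    have h3 : xpos y = Real.exp (-Real.exp (2 - y)) := rfl
    rw [← h3] at h2
    unfold pol
    rw [div_mul_eq_mul_div, eq_div_iff h1.ne']
    linear_combination (Real.exp (2 - y)) * h2

end Pool.Agent.H94.Cyc
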