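import Pool.Agent.H94.Cyc.Laplace

set_option autoImplicit false

namespace Pool.Agent.H94.Cyc

open MeasureTheory Filter Topology Set

noncomputable def hh (x : ℝ) : ℝ := 1 / (Real.exp x - 1)

theorem hh_pos {x : ℝ} (hx : 0 < x) : 0 < hh x := by
  unfold hh
  have := Real.one_lt_exp_iff.mpr hx
  apply one_div_pos.mpr
  linarith

theorem hh_hasSum {x : ℝ} (hx : 0 < x) : HasSum (fun j : ℕ => Real.exp (-((j + 1) * x))) (hh x) := by
  have h1 : Real.exp (-x) < 1 := by rw [Real.exp_lt_one_iff]; linarith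
  have h2 := (hasSum_geometric_of_lt_one (Real.exp_pos (-x)).le h1).mul_left (Real.exp (-x))
  have h3 : Real.exp (-x) * (1 - Real.exp (-x))⁻¹ = hh x := by
    unfold hh
    have h4 : Real.exp (-x) * Real.exp x = 1 := by rw [← Real.exp_add]; simp
    have h5 : Real.exp x - 1 ≠ 0 := by
      have := Real.one_lt_exp_iff.mpr hx
      linarith
    have h6 : 1 - Real.exp (-x) ≠ 0 := by linarith
    rw [← div_eq_mul_inv, div_eq_div_iff h6 h5]
    linarith [mul_sub (Real.exp (-x)) (Real.exp x) 1]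
  rw [h3] at h2
  refine h2.congr_fun fun j => ?_
  rw [← Real.exp_nat_mul, ← Real.exp_add]
  congr 1
  ring

theorem hh_le {x t : ℝ} (ht : 0 < t) (hx : t ≤ x) : hh x ≤ Real.exp (-x) / (1 - Real.exp (-t)) := by
  have h1 : Real.exp (-t) < 1 := by rw [Real.exp_lt_one_iff]; linarith
  have h2 : Real.exp (-x) ≤ Real.exp (-t) := Real.exp_le_exp.mpr (by linarith)
  have h3 : hh x = Real.exp (-x) / (1 - Real.exp (-x)) := by
    have h4 : Real.exp (-x) * Real.exp x = 1 := by rw [← Real.exp_add]; simp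
    have h5 : Real.exp x - 1 ≠ 0 := by
      have := Real.one_lt_exp_iff.mpr (lt_of_lt_of_le ht hx)
      linarith
    have h6 : 1 - Real.exp (-x) ≠ 0 := by linarith
    unfold hh
    rw [div_eq_div_iff h5 h6]
    linarith [mul_sub (Real.exp (-x)) (Real.exp x) 1]
  rw [h3]
  apply div_le_div_of_nonneg_left (Real.exp_pos _).le (by linarith) (by linarith)

theorem summable_hh {t : ℝ} (ht : 0 < t) :
    Summable (fun d : ℕ => ((d : ℝ) + 1) * hh (((d : ℝ) + 1) * t)) := by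
  have h1 : Real.exp (-t) < 1 := by rw [Real.exp_lt_one_iff]; linarith
  have h2 : Summable (fun n : ℕ => (n : ℝ) ^ 1 * Real.exp (-t) ^ n) :=
    summable_pow_mul_geometric_of_norm_lt_one 1 (by
      rw [Real.norm_eq_abs, abs_of_pos (Real.exp_pos _)]; exact h1)
  have h3 := ((summable_nat_add_iff 1).mpr h2).mul_left (1 / (1 - Real.exp (-t)))
  refine Summable.of_nonneg_of_le ?_ ?_ h3
  · intro d
    have := hh_pos (x := ((d : ℝ) + 1) * t) (by positivity)
    positivity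
  · intro d
    have h4 := hh_le (x := ((d : ℝ) + 1) * t) ht (by nlinarith [(by positivity : (0 : ℝ) ≤ (d : ℝ))])
    calc ((d : ℝ) + 1) * hh (((d : ℝ) + 1) * t)
        ≤ ((d : ℝ) + 1) * (Real.exp (-(((d : ℝ) + 1) * t)) / (1 - Real.exp (-t))) :=
          mul_le_mul_of_nonneg_left h4 (by positivity)
      _ = _ := by
          rw [← Real.exp_nat_mul]
          push_cast
          ring_nf

/-- the sums `∑ α(d) (d+1) / (e^{(d+1)t} - 1)` -/
noncomputable def SS (α : ℕ → ℝ) (t : ℝ) : ℝ :=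
  ∑' d : ℕ, α d * (((d : ℝ) + 1) * hh (((d : ℝ) + 1) * t))

theorem SS_summable {α : ℕ → ℝ} (hα : ∀ d, |α d| ≤ 1) {t : ℝ} (ht : 0 < t) :
    Summable (fun d : ℕ => α d * (((d : ℝ) + 1) * hh (((d : ℝ) + 1) * t))) := by
  apply Summable.of_norm_bounded (summable_hh ht)
  intro d
  have h1 := hh_pos (x := ((d : ℝ) + 1) * t) (by positivity)
  rw [Real.norm_eq_abs, abs_mul, abs_of_pos (show 0 < ((d : ℝ) + 1) * hh (((d : ℝ) + 1) * t) by
    positivity)]
  have h2 : 0 ≤ ((d : ℝ) + 1) * hh (((d : ℝ) + 1) * t) := by positivity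
  nlinarith [hα d]

theorem abs_SS_le {α : ℕ → ℝ} (hα : ∀ d, |α d| ≤ 1) {t : ℝ} (ht : 0 < t) :
    |SS α t| ≤ SS (fun _ => 1) t := by
  unfold SS
  rw [← Real.norm_eq_abs]
  apply tsum_of_norm_bounded
  · simpa using (summable_hh ht).hasSum
  intro d
  have h1 := hh_pos (x := ((d : ℝ) + 1) * t) (by positivity)
  rw [Real.norm_eq_abs, abs_mul, abs_of_pos (show 0 < ((d : ℝ) + 1) * hh (((d : ℝ) + 1) * t) by
    positivity)]
  have h2 : 0 ≤ ((d : ℝ) + 1) * hh (((d : ℝ) + 1) * t) := by positivity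
  nlinarith [hα d]

theorem pair_summable {α : ℕ → ℝ} (hα : ∀ d, |α d| ≤ 1) {t : ℝ} (ht : 0 < t) :
    Summable (fun x : ℕ × ℕ => α x.1 * ((x.1 : ℝ) + 1) *
      Real.exp (-((((x.1 : ℝ) + 1) * ((x.2 : ℝ) + 1)) * t))) := by
  have h0 : Summable (fun x : ℕ × ℕ => ((x.1 : ℝ) + 1) *
      Real.exp (-((((x.1 : ℝ) + 1) * ((x.2 : ℝ) + 1)) * t))) := by
    rw [summable_prod_of_nonneg (fun x => by positivity)]
    have h1 : ∀ d : ℕ, HasSum (fun j : ℕ => ((d : ℝ) + 1) *
        Real.exp (-((((d : ℝ) + 1) * ((j : ℝ) + 1)) * t))) (((d : ℝ) + 1) *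
          hh (((d : ℝ) + 1) * t)) := by
      intro d
      apply HasSum.mul_left
      refine (hh_hasSum (x := ((d : ℝ) + 1) * t) (by positivity)).congr_fun fun j => ?_
      congr 1; ring
    refine ⟨fun d => (h1 d).summable, ?_⟩
    refine (summable_hh ht).congr fun d => ?_
    exact (h1 d).tsum_eq.symm
  apply Summable.of_norm_bounded h0
  intro x
  rw [Real.norm_eq_abs, abs_mul, abs_mul, abs_of_pos (Real.exp_pos _),
    abs_of_pos (show 0 < (x.1 : ℝ) + 1 by positivity)]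
  apply mul_le_mul_of_nonneg_right _ (Real.exp_pos _).le
  have : 0 < (x.1 : ℝ) + 1 := by positivity
  nlinarith [hα x.1]

theorem pair_hasSum {α : ℕ → ℝ} (hα : ∀ d, |α d| ≤ 1) {t : ℝ} (ht : 0 < t) :
    HasSum (fun x : ℕ × ℕ => α x.1 * ((x.1 : ℝ) + 1) *
      Real.exp (-((((x.1 : ℝ) + 1) * ((x.2 : ℝ) + 1)) * t))) (SS α t) := by
  have h1 := (pair_summable hα ht).hasSum
  have h2 : ∀ d : ℕ, HasSum (fun j : ℕ => α d * ((d : ℝ) + 1) *
        Real.exp (-((((d : ℝ) + 1) * ((j : ℝ) + 1)) * t))) (α d * (((d : ℝ) + 1) *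
          hh (((d : ℝ) + 1) * t))) := by
    intro d
    rw [← mul_assoc]
    apply HasSum.mul_left
    refine (hh_hasSum (x := ((d : ℝ) + 1) * t) (by positivity)).congr_fun fun j => ?_
    congr 1; ring
  have h3 := HasSum.prod_fiberwise h1 h2
  have h4 : (∑' x : ℕ × ℕ, α x.1 * ((x.1 : ℝ) + 1) *
      Real.exp (-((((x.1 : ℝ) + 1) * ((x.2 : ℝ) + 1)) * t))) = SS α t := by
    unfold SS
    exact h3.tsum_eq.symm
  rw [h4] at h1
  exact h1

theorem pair_rpow_summable {σ : ℝ} (hσ : 2 < σ) :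
    Summable (fun x : ℕ × ℕ => ((x.1 : ℝ) + 1) / (((x.1 : ℝ) + 1) * ((x.2 : ℝ) + 1)) ^ σ) := by
  have h1 : Summable (fun d : ℕ => ((d : ℝ) + 1) ^ (1 - σ)) := by
    have := (summable_nat_add_iff (f := fun n : ℕ => (n : ℝ) ^ (1 - σ)) 1).mpr
      (Real.summable_nat_rpow.mpr (by linarith))
    simpa using this
  have h2 : Summable (fun d : ℕ => ((d : ℝ) + 1) ^ (-σ)) := by
    have := (summable_nat_add_iff (f := fun n : ℕ => (n : ℝ) ^ (-σ)) 1).mpr
      (Real.summable_nat_rpow.mpr (by linarith))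
    simpa using this
  have h3 := h1.mul_of_nonneg h2 (fun d => by positivity) (fun d => by positivity)
  refine h3.congr fun x => ?_
  have hx1 : (0 : ℝ) < (x.1 : ℝ) + 1 := by positivity
  have hx2 : (0 : ℝ) < (x.2 : ℝ) + 1 := by positivity
  rw [Real.mul_rpow hx1.le hx2.le, Real.rpow_neg hx2.le, Real.rpow_sub hx1, Real.rpow_one]
  field_simp

end Pool.Agent.H94.Cyc
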