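import Mathlib

set_option autoImplicit false

namespace Pool.Agent.H94.Cyc

open MeasureTheory Filter Topology Set HurwitzZeta

theorem one_le_cosKernel {t : ℝ} (ht : 0 < t) : 1 ≤ cosKernel 0 t := by
  have h := hasSum_nat_cosKernel₀ 0 ht
  have h1 : 0 ≤ cosKernel ((0 : ℝ) : UnitAddCircle) t - 1 := by
    apply h.nonneg
    intro n
    rw [mul_zero, zero_mul, Real.cos_zero]
    positivity
  have h2 : ((0 : ℝ) : UnitAddCircle) = 0 := by simp
  rw [h2] at h1
  linarith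

theorem f_modif_real {x : ℝ} (hx : 0 < x) : ∃ r : ℝ, 0 ≤ r ∧
    (hurwitzEvenFEPair 0).f_modif x = (r : ℂ) := by
  rcases lt_trichotomy x 1 with h1 | rfl | h1
  · refine ⟨evenKernel 0 x - x ^ (-(1 / 2) : ℝ), ?_, ?_⟩
    · rw [evenKernel_functional_equation, Real.rpow_neg hx.le, one_div (x ^ _ : ℝ)]
      have h2 := one_le_cosKernel (t := 1 / x) (by positivity)
      have h3 : 0 < (x ^ (1 / 2 : ℝ))⁻¹ := by positivity
      nlinarith
    · rw [WeakFEPair.f_modif, Pi.add_apply, indicator_of_notMem (notMem_Ioi.mpr h1.le), zero_add,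
        indicator_of_mem (mem_Ioo.mpr ⟨hx, h1⟩)]
      simp [hurwitzEvenFEPair]
  · exact ⟨0, le_rfl, by simp [WeakFEPair.f_modif]⟩
  · refine ⟨evenKernel 0 x - 1, ?_, ?_⟩
    · rw [evenKernel_eq_cosKernel_of_zero]
      have := one_le_cosKernel hx
      linarith
    · rw [WeakFEPair.f_modif, Pi.add_apply, indicator_of_mem (mem_Ioi.mpr h1),
        indicator_of_notMem (notMem_Ioo_of_ge h1.le), add_zero]
      simp [hurwitzEvenFEPair]

noncomputable def phi (x : ℝ) : ℝ := ‖(hurwitzEvenFEPair 0).f_modif x‖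

theorem f_modif_eq {x : ℝ} (hx : 0 < x) : (hurwitzEvenFEPair 0).f_modif x = (phi x : ℂ) := by
  obtain ⟨r, hr, h⟩ := f_modif_real hx
  rw [phi, h, Complex.norm_real, Real.norm_eq_abs, abs_of_nonneg hr]

theorem mellin_conv (s : ℂ) : IntegrableOn (fun t : ℝ => (t : ℂ) ^ (s - 1) •
    (hurwitzEvenFEPair 0).f_modif t) (Ioi 0) :=
  ((hurwitzEvenFEPair 0).isStrongFEPair_toStrongFEPair.hasMellin s).1

theorem norm_integrand (s : ℂ) {t : ℝ} (ht : 0 < t) : ‖(t : ℂ) ^ (s - 1) •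
    (hurwitzEvenFEPair 0).f_modif t‖ = t ^ (s.re - 1) * phi t := by
  rw [norm_smul, Complex.norm_cpow_eq_rpow_re_of_pos ht]
  simp [phi]

theorem conv_real (a : ℝ) : IntegrableOn (fun t : ℝ => t ^ (a - 1) * phi t) (Ioi 0) := by
  have h := (mellin_conv a).norm
  refine h.congr ?_
  refine (ae_restrict_iff' measurableSet_Ioi).mpr (ae_of_all _ fun t ht => ?_)
  simp only
  rw [norm_integrand _ ht]
  simp

theorem mellin_real (a : ℝ) : mellin (hurwitzEvenFEPair 0).f_modif a =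
    ((∫ t in Ioi (0 : ℝ), t ^ (a - 1) * phi t : ℝ) : ℂ) := by
  unfold mellin
  rw [← integral_complex_ofReal]
  apply setIntegral_congr_fun measurableSet_Ioi
  intro t ht
  simp only
  rw [f_modif_eq ht, smul_eq_mul]
  push_cast
  rw [Complex.ofReal_cpow (le_of_lt ht)]
  push_cast
  rfl

theorem norm_completed_le {a b : ℝ} {s : ℂ} (ha : a ≤ s.re) (hb : s.re ≤ b) :
    ‖completedRiemannZeta₀ s‖ ≤ (completedRiemannZeta₀ a).re + (completedRiemannZeta₀ b).re := by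
  have hval : ∀ c : ℝ, (completedRiemannZeta₀ c).re =
      (∫ t in Ioi (0 : ℝ), t ^ (c / 2 - 1) * phi t) / 2 := by
    intro c
    have h1 : completedRiemannZeta₀ (c : ℂ) =
        (mellin (hurwitzEvenFEPair 0).f_modif ((c / 2 : ℝ) : ℂ)) / 2 := by
      push_cast; rfl
    rw [h1, mellin_real]
    have : ((∫ t in Ioi (0 : ℝ), t ^ (c / 2 - 1) * phi t : ℝ) : ℂ) / 2 =
      (((∫ t in Ioi (0 : ℝ), t ^ (c / 2 - 1) * phi t) / 2 : ℝ) : ℂ) := by push_cast; rfl
    rw [this, Complex.ofReal_re]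
  rw [hval, hval]
  have h2 : completedRiemannZeta₀ s = (mellin (hurwitzEvenFEPair 0).f_modif (s / 2)) / 2 := rfl
  rw [h2, norm_div, Complex.norm_ofNat, ← add_div]
  apply div_le_div_of_nonneg_right _ (by norm_num)
  unfold mellin
  refine (norm_integral_le_integral_norm _).trans ?_
  rw [← integral_add (conv_real _) (conv_real _)]
  apply setIntegral_mono_on (mellin_conv _).norm ((conv_real _).add (conv_real _))
    measurableSet_Ioi
  intro t ht
  rw [mem_Ioi] at ht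
  simp only [Pi.add_apply]
  rw [norm_integrand _ ht, ← add_mul]
  apply mul_le_mul_of_nonneg_right _ (norm_nonneg _)
  have e1 : (s / 2).re = s.re / 2 := by simp
  rw [e1]
  rcases le_total 1 t with h1 | h1
  · have : t ^ (s.re / 2 - 1) ≤ t ^ (b / 2 - 1) := Real.rpow_le_rpow_of_exponent_le h1 (by linarith)
    have h3 : 0 ≤ t ^ (a / 2 - 1) := Real.rpow_nonneg ht.le _
    linarith
  · have : t ^ (s.re / 2 - 1) ≤ t ^ (a / 2 - 1) :=
      Real.rpow_le_rpow_of_exponent_ge ht h1 (by linarith)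
    have h3 : 0 ≤ t ^ (b / 2 - 1) := Real.rpow_nonneg ht.le _
    linarith

theorem norm_completed_le' {b : ℝ} {s : ℂ} (ha : 1 - b ≤ s.re) (hb : s.re ≤ b) :
    ‖completedRiemannZeta₀ s‖ ≤ 2 * (completedRiemannZeta₀ b).re := by
  have h := norm_completed_le ha hb
  have h1 : completedRiemannZeta₀ ((1 - b : ℝ) : ℂ) = completedRiemannZeta₀ b := by
    push_cast
    exact completedRiemannZeta₀_one_sub _
  rw [h1] at h
  linarith

theorem completed₀_eq {s : ℂ} (hs : 1 ≤ s.re) (hs1 : s ≠ 1) : completedRiemannZeta₀ s =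
    Complex.Gammaℝ s * riemannZeta s + 1 / s + 1 / (1 - s) := by
  have h0 : s ≠ 0 := by rintro rfl; simp at hs; linarith
  have h1 := completedRiemannZeta_eq s
  have h2 := riemannZeta_def_of_ne_zero h0
  have h3 : Complex.Gammaℝ s ≠ 0 := Complex.Gammaℝ_ne_zero_of_re_pos (by linarith)
  rw [eq_div_iff h3] at h2
  rw [mul_comm, h2, h1]; ring

theorem completed₀_two : completedRiemannZeta₀ 2 = ((Real.pi / 6 - 1 / 2 : ℝ) : ℂ) := by
  rw [completed₀_eq (by norm_num) (by norm_num), riemannZeta_two, Complex.Gammaℝ_def]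
  have h1 : (-2 / 2 : ℂ) = -1 := by norm_num
  have h2 : (2 / 2 : ℂ) = 1 := by norm_num
  rw [h1, h2, Complex.Gamma_one, Complex.cpow_neg_one]
  have : (Real.pi : ℂ) ≠ 0 := by exact_mod_cast Real.pi_ne_zero
  push_cast
  field_simp
  ring

/-- the entire function `ξ` (normalised by `ξ(0) = ξ(1) = 1`) -/
noncomputable def xi (s : ℂ) : ℂ := 1 + s * (s - 1) * completedRiemannZeta₀ s

theorem xi_differentiable : Differentiable ℂ xi := by
  have := differentiable_completedZeta₀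
  unfold xi
  fun_prop

theorem xi_one_sub (s : ℂ) : xi (1 - s) = xi s := by
  unfold xi
  rw [completedRiemannZeta₀_one_sub]; ring

theorem xi_eq {s : ℂ} (h0 : s ≠ 0) (h1 : s ≠ 1) : xi s = s * (s - 1) * completedRiemannZeta s := by
  unfold xi
  rw [completedRiemannZeta_eq]
  have : s - 1 ≠ 0 := sub_ne_zero.mpr h1
  have h2 : 1 - s ≠ 0 := sub_ne_zero.mpr (Ne.symm h1)
  field_simp
  ring

theorem xi_ne_zero_iff {s : ℂ} (hs : 0 < s.re) : xi s ≠ 0 ↔ riemannZeta₁ s ≠ 0 := by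
  by_cases h1 : s = 1
  · subst h1
    simp [xi]
  have h0 : s ≠ 0 := by rintro rfl; simp at hs
  have h2 : Complex.Gammaℝ s ≠ 0 := Complex.Gammaℝ_ne_zero_of_re_pos hs
  have h3 : s - 1 ≠ 0 := sub_ne_zero.mpr h1
  rw [xi_eq h0 h1]
  have h4 := riemannZeta_def_of_ne_zero h0
  have h5 := riemannZeta_eq_inv_sub_mul h1
  have h6 : completedRiemannZeta s = Complex.Gammaℝ s * ((s - 1)⁻¹ * riemannZeta₁ s) := by
    rw [← h5, h4]; field_simp
  rw [h6]
  have h7 : (s - 1)⁻¹ ≠ 0 := inv_ne_zero h3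
  simp [h0, h2, h3]

/-- zero-free disc -/
theorem zeta₁_ne_zero_disc {s : ℂ} (hs : s ∈ Metric.closedBall ((11 / 10 : ℝ) : ℂ) (13 / 20)) :
    riemannZeta₁ s ≠ 0 := by
  rw [Metric.mem_closedBall, Complex.dist_eq] at hs
  have hre := (Complex.abs_re_le_norm _).trans hs
  rw [Complex.sub_re, Complex.ofReal_re, abs_le] at hre
  have hspos : 0 < s.re := by linarith [hre.1]
  rw [← xi_ne_zero_iff hspos]
  have h1 : ‖completedRiemannZeta₀ s‖ ≤ 2 * (completedRiemannZeta₀ ((2 : ℝ) : ℂ)).re :=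
    norm_completed_le' (by linarith) (by linarith)
  have h2 : (completedRiemannZeta₀ ((2 : ℝ) : ℂ)).re = Real.pi / 6 - 1 / 2 := by
    push_cast
    rw [completed₀_two, Complex.ofReal_re]
  rw [h2] at h1
  have hpi := Real.pi_lt_d2
  have h3 : ‖s‖ ≤ 7 / 4 := by
    calc ‖s‖ = ‖(s - ((11 / 10 : ℝ) : ℂ)) + ((11 / 10 : ℝ) : ℂ)‖ := by ring_nf
      _ ≤ ‖s - ((11 / 10 : ℝ) : ℂ)‖ + ‖((11 / 10 : ℝ) : ℂ)‖ := norm_add_le _ _
      _ ≤ 13 / 20 + 11 / 10 := by
        rw [Complex.norm_real, Real.norm_eq_abs, abs_of_pos (by norm_num)]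
        linarith
      _ = 7 / 4 := by norm_num
  have h4 : ‖s - 1‖ ≤ 3 / 4 := by
    calc ‖s - 1‖ = ‖(s - ((11 / 10 : ℝ) : ℂ)) + ((1 / 10 : ℝ) : ℂ)‖ := by
          push_cast; ring_nf
      _ ≤ ‖s - ((11 / 10 : ℝ) : ℂ)‖ + ‖((1 / 10 : ℝ) : ℂ)‖ := norm_add_le _ _
      _ ≤ 13 / 20 + 1 / 10 := by
        rw [Complex.norm_real, Real.norm_eq_abs, abs_of_pos (by norm_num)]
        linarith
      _ = 3 / 4 := by norm_num
  intro hx
  unfold xi at hx
  have h5 : s * (s - 1) * completedRiemannZeta₀ s = -1 := by linear_combination hx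
  have h6 : ‖s * (s - 1) * completedRiemannZeta₀ s‖ = 1 := by rw [h5]; simp
  rw [norm_mul, norm_mul] at h6
  have h7 : ‖s‖ * ‖s - 1‖ ≤ 7 / 4 * (3 / 4) :=
    mul_le_mul h3 h4 (norm_nonneg _) (by norm_num)
  have h8 : ‖s‖ * ‖s - 1‖ * ‖completedRiemannZeta₀ s‖ ≤ 7 / 4 * (3 / 4) * (1 / 10) :=
    mul_le_mul h7 (by linarith) (norm_nonneg _) (by norm_num)
  linarith

theorem zeta₁_ne_zero_of_one_le {s : ℂ} (hs : 1 ≤ s.re) : riemannZeta₁ s ≠ 0 := by
  by_cases h1 : s = 1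
  · subst h1; simp
  have h2 := riemannZeta_ne_zero_of_one_le_re hs
  rw [riemannZeta_eq_inv_sub_mul h1] at h2
  exact right_ne_zero_of_mul h2

end Pool.Agent.H94.Cyc
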